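import Pool.Agent.R267.DI.Weak

/-!
NM-BOOLE: the weak type estimate of Boole and Loomis on the circle.
-/

set_option autoImplicit false
open Complex Real

namespace Pool.Agent.R267.NM.Boolep

open Pool.Agent.R267.DI MeasureTheory Filter Topology

lemma norm_pt (θ : ℝ) : ‖pt θ‖ = 1 := by
  unfold pt
  rw [mul_comm]
  exact Complex.norm_exp_ofReal_mul_I θ

lemma cont_pt : Continuous pt := by
  unfold pt
  fun_prop

/-- one term -/
noncomputable def FF (w ζ : ℂ) : ℂ := (1 + w * ζ) / (2 * (1 - w * ζ))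

/-- the reflected root -/
noncomputable def rw' (z : ℂ) : ℂ := if ‖z‖ < 1 then (starRingEnd ℂ) z else z⁻¹

lemma norm_rw' (z : ℂ) : ‖rw' z‖ ≤ 1 := by
  unfold rw'
  split_ifs with h
  · rw [RCLike.norm_conj]; exact h.le
  · rw [norm_inv]
    exact inv_le_one_of_one_le₀ (not_lt.1 h)

lemma im_term (z ζ : ℂ) (hζ : ‖ζ‖ = 1) : (ζ / (ζ - z)).im = -(FF (rw' z) ζ).im := by
  have hζ0 : ζ ≠ 0 := by
    intro h; rw [h, norm_zero] at hζ; exact zero_ne_one hζ
  unfold FF rw'
  split_ifs with h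
  · -- inside
    have h1 : ζ - z ≠ 0 := by
      intro h2
      rw [sub_eq_zero] at h2
      rw [← h2, hζ] at h
      exact lt_irrefl _ h
    have hcz : (starRingEnd ℂ) ζ * ζ = 1 := by
      rw [mul_comm, Complex.mul_conj, Complex.normSq_eq_norm_sq, hζ]
      norm_num
    have h2 : 1 - (starRingEnd ℂ) z * ζ ≠ 0 := by
      intro h3
      apply h1
      have h4 : (starRingEnd ℂ) (1 - (starRingEnd ℂ) z * ζ) = 0 := by rw [h3, map_zero]
      rw [map_sub, map_one, map_mul, Complex.conj_conj] at h4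
      have h5 : ζ - z * ((starRingEnd ℂ) ζ * ζ) = 0 := by
        have : ζ * (1 - z * (starRingEnd ℂ) ζ) = 0 := by rw [h4, mul_zero]
        linear_combination this
      rw [hcz, mul_one] at h5
      exact h5
    have h3 : ζ / (ζ - z) = (starRingEnd ℂ) (1 / (1 - (starRingEnd ℂ) z * ζ)) := by
      rw [map_div₀, map_one, map_sub, map_one, map_mul, Complex.conj_conj]
      have h4 : 1 - z * (starRingEnd ℂ) ζ ≠ 0 := by
        intro h5
        apply h2
        have h6 : (starRingEnd ℂ) (1 - z * (starRingEnd ℂ) ζ) = 0 := by rw [h5, map_zero]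
        rw [map_sub, map_one, map_mul, Complex.conj_conj] at h6
        exact h6
      rw [div_eq_div_iff h1 h4]
      linear_combination (-z) * hcz
    have h4 : 1 / (1 - (starRingEnd ℂ) z * ζ) =
        1 / 2 + (1 + (starRingEnd ℂ) z * ζ) / (2 * (1 - (starRingEnd ℂ) z * ζ)) := by
      field_simp
      ring
    rw [h3, h4, Complex.conj_im, Complex.add_im]
    norm_num
  · -- outside
    have hz0 : z ≠ 0 := by
      intro h0; rw [h0, norm_zero] at h; exact h one_pos
    by_cases h1 : ζ - z = 0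
    · rw [sub_eq_zero] at h1
      rw [h1]
      simp [hz0]
    · have h2 : 1 - z⁻¹ * ζ ≠ 0 := by
        intro h3
        apply h1
        have h4 : z * (1 - z⁻¹ * ζ) = 0 := by rw [h3, mul_zero]
        rw [mul_sub, mul_one, ← mul_assoc, mul_inv_cancel₀ hz0, one_mul] at h4
        linear_combination -h4
      have h3 : ζ / (ζ - z) = 1 / 2 - (1 + z⁻¹ * ζ) / (2 * (1 - z⁻¹ * ζ)) := by
        have h5 : z - ζ ≠ 0 := by
          intro h6; apply h1; linear_combination -h6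
        have h4 : (1 + z⁻¹ * ζ) / (2 * (1 - z⁻¹ * ζ)) = (z + ζ) / (2 * (z - ζ)) := by
          rw [div_eq_div_iff (mul_ne_zero two_ne_zero h2) (mul_ne_zero two_ne_zero h5)]
          field_simp
        rw [h4]
        field_simp
        ring
      rw [h3, Complex.sub_im]
      norm_num

lemma re_FF (w ζ : ℂ) (hw : ‖w‖ ≤ 1) (hζ : ‖ζ‖ ≤ 1) : 0 ≤ (FF w ζ).re := by
  unfold FF
  set u : ℂ := w * ζ with hu
  have hu1 : ‖u‖ ≤ 1 := by
    rw [hu, norm_mul]
    exact mul_le_one₀ hw (norm_nonneg _) hζ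
  have h1 : (1 + u) / (2 * (1 - u)) = ((1 + u) / (1 - u)) / ((2 : ℝ) : ℂ) := by
    push_cast
    rw [div_div, mul_comm 2]
  rw [h1, Complex.div_ofReal_re]
  refine div_nonneg ?_ (by norm_num)
  rw [Complex.div_re, ← add_div]
  refine div_nonneg ?_ (Complex.normSq_nonneg _)
  have h2 : u.re ^ 2 + u.im ^ 2 ≤ 1 := by
    have := Complex.sq_norm u
    rw [Complex.normSq_apply] at this
    nlinarith [norm_nonneg u]
  simp only [Complex.add_re, Complex.one_re, Complex.sub_re, Complex.add_im, Complex.one_im,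
    Complex.sub_im]
  nlinarith

variable {D : ℕ}

/-- the sum -/
noncomputable def F (w : Fin D → ℂ) (ζ : ℂ) : ℂ := ∑ k, FF (w k) ζ

/-- the Cayley transform -/
noncomputable def G (w : Fin D → ℂ) (t : ℝ) (ζ : ℂ) : ℂ := F w ζ / (F w ζ + t)

lemma re_F (w : Fin D → ℂ) (ζ : ℂ) (hw : ∀ k, ‖w k‖ ≤ 1) (hζ : ‖ζ‖ ≤ 1) : 0 ≤ (F w ζ).re := by
  unfold F
  rw [Complex.re_sum]
  exact Finset.sum_nonneg fun k _ => re_FF _ _ (hw k) hζ

lemma cay_ne (a : ℂ) (t : ℝ) (ht : 0 < t) (ha : 0 ≤ a.re) : a + t ≠ 0 := by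
  intro h
  have := congrArg Complex.re h
  simp only [Complex.add_re, Complex.ofReal_re, Complex.zero_re] at this
  linarith

lemma norm_cay (a : ℂ) (t : ℝ) (ht : 0 < t) (ha : 0 ≤ a.re) : ‖a / (a + t)‖ ≤ 1 := by
  rw [norm_div]
  refine div_le_one_of_le₀ ?_ (norm_nonneg _)
  rw [← sq_le_sq₀ (norm_nonneg _) (norm_nonneg _), Complex.sq_norm, Complex.sq_norm,
    Complex.normSq_apply, Complex.normSq_apply]
  simp only [Complex.add_re, Complex.ofReal_re, Complex.add_im, Complex.ofReal_im]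
  nlinarith [mul_nonneg ha ht.le, sq_nonneg t]

lemma re_cay (a : ℂ) (t : ℝ) (ht : 0 < t) (ha : 0 ≤ a.re) : 0 ≤ (a / (a + t)).re := by
  rw [Complex.div_re, ← add_div]
  refine div_nonneg ?_ (Complex.normSq_nonneg _)
  simp only [Complex.add_re, Complex.ofReal_re, Complex.add_im, Complex.ofReal_im]
  nlinarith [sq_nonneg a.im, mul_nonneg ha ht.le, sq_nonneg a.re]

lemma re_cay_half (a : ℂ) (t : ℝ) (ht : 0 < t) (ha : 0 ≤ a.re) (h : t < |a.im|) :
    1 / 2 ≤ (a / (a + t)).re := by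
  have h0 := cay_ne a t ht ha
  rw [Complex.div_re, ← add_div, le_div_iff₀ (Complex.normSq_pos.2 h0), Complex.normSq_apply]
  simp only [Complex.add_re, Complex.ofReal_re, Complex.add_im, Complex.ofReal_im]
  have h1 : t ^ 2 < a.im ^ 2 := by
    rw [← sq_abs a.im]
    exact pow_lt_pow_left₀ h ht.le two_ne_zero
  nlinarith [mul_nonneg ha ht.le, sq_nonneg a.re]

lemma F_cont (w : Fin D → ℂ) (ζ : ℂ) (h : ∀ k, 1 - w k * ζ ≠ 0) : ContinuousAt (F w) ζ := by
  unfold F FF
  refine tendsto_finsetSum _ fun k _ => ?_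
  refine ContinuousAt.div ?_ ?_ (mul_ne_zero two_ne_zero (h k))
  · fun_prop
  · fun_prop

lemma F_diff (w : Fin D → ℂ) (ζ : ℂ) (h : ∀ k, 1 - w k * ζ ≠ 0) : DifferentiableAt ℂ (F w) ζ := by
  unfold F FF
  refine DifferentiableAt.fun_sum fun k _ => ?_
  refine DifferentiableAt.div ?_ ?_ (mul_ne_zero two_ne_zero (h k))
  · fun_prop
  · fun_prop

lemma ne_of_lt (w : Fin D → ℂ) (hw : ∀ k, ‖w k‖ ≤ 1) (ζ : ℂ) (hζ : ‖ζ‖ < 1) (k : Fin D) :
    1 - w k * ζ ≠ 0 := by
  intro h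
  have h1 : w k * ζ = 1 := by linear_combination -h
  have h2 : ‖w k * ζ‖ < 1 := by
    rw [norm_mul]
    calc ‖w k‖ * ‖ζ‖ ≤ 1 * ‖ζ‖ := mul_le_mul_of_nonneg_right (hw k) (norm_nonneg _)
      _ < 1 := by rw [one_mul]; exact hζ
  rw [h1, norm_one] at h2
  exact lt_irrefl _ h2

lemma G_diff (w : Fin D → ℂ) (hw : ∀ k, ‖w k‖ ≤ 1) (t : ℝ) (ht : 0 < t) (ζ : ℂ)
    (hζ : ‖ζ‖ < 1) : DifferentiableAt ℂ (G w t) ζ := by
  unfold G
  have h := F_diff w ζ (ne_of_lt w hw ζ hζ)
  exact h.div (h.add (differentiableAt_const _)) (cay_ne _ t ht (re_F w ζ hw hζ.le))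

lemma G_mean (w : Fin D → ℂ) (hw : ∀ k, ‖w k‖ ≤ 1) (t : ℝ) (ht : 0 < t) (r : ℝ) (hr0 : 0 < r)
    (hr1 : r < 1) :
    ∫ θ in (0 : ℝ)..2 * π, G w t ((r : ℂ) * pt θ) = 2 * π * G w t 0 := by
  have h1 := circleAverage_of_differentiable_on_off_countable (f := G w t) (c := 0) (R := r)
    (s := ∅) Set.countable_empty ?_ ?_
  · rw [circleAverage_def] at h1
    have h2 : (∫ θ in (0 : ℝ)..2 * π, G w t (circleMap 0 r θ)) =
        ∫ θ in (0 : ℝ)..2 * π, G w t ((r : ℂ) * pt θ) := by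
      congr 1
      funext θ
      unfold circleMap pt
      rw [zero_add, mul_comm (θ : ℂ)]
    rw [h2] at h1
    rw [← h1, Complex.real_smul]
    push_cast
    field_simp
  · intro ζ hζ
    rw [Metric.mem_closedBall, dist_zero_right, abs_of_pos hr0] at hζ
    exact (G_diff w hw t ht ζ (hζ.trans_lt hr1)).continuousAt.continuousWithinAt
  · intro ζ hζ
    have h2 := hζ.1
    rw [Metric.mem_ball, dist_zero_right, abs_of_pos hr0] at h2
    exact G_diff w hw t ht ζ (h2.trans hr1)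

lemma G_norm (w : Fin D → ℂ) (hw : ∀ k, ‖w k‖ ≤ 1) (t : ℝ) (ht : 0 < t) (ζ : ℂ)
    (hζ : ‖ζ‖ ≤ 1) : ‖G w t ζ‖ ≤ 1 := norm_cay _ t ht (re_F w ζ hw hζ)

lemma G_zero (w : Fin D → ℂ) (t : ℝ) : G w t 0 = (((D : ℝ) / 2 / ((D : ℝ) / 2 + t) : ℝ) : ℂ) := by
  have h1 : F w 0 = (((D : ℝ) / 2 : ℝ) : ℂ) := by
    unfold F FF
    simp only [mul_zero, add_zero, sub_zero, mul_one, Finset.sum_const, Finset.card_univ,
      Fintype.card_fin, nsmul_eq_mul]
    push_cast
    ring
  unfold G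
  rw [h1]
  push_cast
  rfl

lemma G_meas (w : Fin D → ℂ) (t : ℝ) : Measurable (G w t) := by
  unfold G F FF
  fun_prop

/-- singular points are negligible -/
lemma sing_null (w : ℂ) : ∀ᵐ θ ∂(volume.restrict (Set.Ioc (0 : ℝ) (2 * π))), 1 - w * pt θ ≠ 0 := by
  have h1 : ({θ : ℝ | θ ∈ Set.Ioc (0 : ℝ) (2 * π) ∧ 1 - w * pt θ = 0}).Subsingleton := by
    rintro x ⟨hx, hx2⟩ y ⟨hy, hy2⟩
    have hw : w ≠ 0 := by
      rintro rfl
      simp at hx2
    have h2 : pt x = pt y := mul_left_cancel₀ hw (by linear_combination hy2 - hx2)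
    unfold pt at h2
    rw [Complex.exp_eq_exp_iff_exists_int] at h2
    obtain ⟨m, hm⟩ := h2
    have h3 : ((x : ℝ) : ℂ) = ((y + m * (2 * π) : ℝ) : ℂ) := by
      have h4 : Complex.I * ((x : ℂ)) = Complex.I * ((y + m * (2 * π) : ℝ) : ℂ) := by
        rw [hm]; push_cast; ring
      exact mul_left_cancel₀ Complex.I_ne_zero h4
    have h4 : x = y + m * (2 * π) := by exact_mod_cast h3
    have hpi := Real.pi_pos
    have h5 : (m : ℝ) < 1 := by
      by_contra hc
      have : (2 * π) ≤ m * (2 * π) := by nlinarith [not_lt.1 hc]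
      linarith [hx.2, hy.1]
    have h6 : (-1 : ℝ) < m := by
      by_contra hc
      have : m * (2 * π) ≤ -(2 * π) := by nlinarith [not_lt.1 hc]
      linarith [hx.1, hy.2]
    have h7 : m = 0 := by
      have h8 : m < 1 := by exact_mod_cast h5
      have h9 : (-1 : ℤ) < m := by exact_mod_cast h6
      omega
    rw [h4, h7]; simp
  rw [ae_restrict_iff' measurableSet_Ioc]
  rw [ae_iff]
  refine measure_mono_null ?_ (h1.measure_zero volume)
  intro θ hθ
  simp only [ne_eq, Classical.not_imp, not_not, Set.mem_ofPred_eq] at hθ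
  exact hθ

lemma G_lim (w : Fin D → ℂ) (hw : ∀ k, ‖w k‖ ≤ 1) (t : ℝ) (ht : 0 < t) :
    ∫ θ in Set.Ioc (0 : ℝ) (2 * π), G w t (pt θ) = 2 * π * G w t 0 := by
  set r : ℕ → ℝ := fun n => 1 - 1 / ((n : ℝ) + 2) with hr
  have hr0 : ∀ n, 0 < r n := by
    intro n
    have : (0 : ℝ) < (n : ℝ) + 2 := by positivity
    simp only [hr]
    rw [sub_pos, div_lt_one this]
    have : (0 : ℝ) ≤ n := by positivity
    linarith
  have hr1 : ∀ n, r n < 1 := by
    intro n
    simp only [hr]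
    have : (0 : ℝ) < 1 / ((n : ℝ) + 2) := by positivity
    linarith
  have hrl : Tendsto r atTop (𝓝 1) := by
    have h1 : Tendsto (fun n : ℕ => 1 / ((n : ℝ) + 2)) atTop (𝓝 0) := by
      refine Tendsto.div_atTop tendsto_const_nhds ?_
      exact tendsto_atTop_add_const_right _ _ tendsto_natCast_atTop_atTop
    have h2 := (tendsto_const_nhds (x := (1 : ℝ))).sub h1
    rw [sub_zero] at h2
    exact h2
  have h1 : Tendsto (fun n => ∫ θ in Set.Ioc (0 : ℝ) (2 * π), G w t ((r n : ℂ) * pt θ)) atTop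
      (𝓝 (∫ θ in Set.Ioc (0 : ℝ) (2 * π), G w t (pt θ))) := by
    refine tendsto_integral_of_dominated_convergence (fun _ => 1) ?_ ?_ ?_ ?_
    · intro n
      exact ((G_meas w t).comp (by
        have := cont_pt.measurable
        fun_prop)).aestronglyMeasurable
    · exact integrable_const _
    · intro n
      refine Filter.Eventually.of_forall fun θ => ?_
      refine G_norm w hw t ht _ ?_
      rw [norm_mul, norm_pt, mul_one, Complex.norm_real, Real.norm_eq_abs, abs_of_pos (hr0 n)]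
      exact (hr1 n).le
    · have h2 : ∀ᵐ θ ∂(volume.restrict (Set.Ioc (0 : ℝ) (2 * π))), ∀ k, 1 - w k * pt θ ≠ 0 := by
        rw [ae_all_iff]
        exact fun k => sing_null (w k)
      filter_upwards [h2] with θ hθ
      have h3 : ContinuousAt (G w t) (pt θ) := by
        unfold G
        have h4 := F_cont w (pt θ) hθ
        exact h4.div (h4.add continuousAt_const)
          (cay_ne _ t ht (re_F w _ hw (norm_pt θ).le))
      have h5 : Tendsto (fun n => (r n : ℂ) * pt θ) atTop (𝓝 (pt θ)) := by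
        have h6 : Tendsto (fun n => ((r n : ℝ) : ℂ)) atTop (𝓝 ((1 : ℝ) : ℂ)) :=
          (Complex.continuous_ofReal.tendsto 1).comp hrl
        have h7 := h6.mul_const (pt θ)
        rw [Complex.ofReal_one, one_mul] at h7
        exact h7
      exact h3.tendsto.comp h5
  have h2 : ∀ n, ∫ θ in Set.Ioc (0 : ℝ) (2 * π), G w t ((r n : ℂ) * pt θ) = 2 * π * G w t 0 := by
    intro n
    rw [← intervalIntegral.integral_of_le (by positivity)]
    exact G_mean w hw t ht (r n) (hr0 n) (hr1 n)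
  simp only [h2] at h1
  exact tendsto_nhds_unique h1 tendsto_const_nhds |>.symm ▸ rfl

end Pool.Agent.R267.NM.Boolep

namespace Pool.Agent.R267.NM

open Pool.Agent.R267.DI MeasureTheory Filter Topology Boolep

theorem s_BOOLE : S_BOOLE := by
  intro D z t ht
  set w : Fin D → ℂ := fun k => rw' (z k) with hwdef
  have hw : ∀ k, ‖w k‖ ≤ 1 := fun k => norm_rw' _
  have hV : ∀ θ : ℝ, (∑ k, pt θ / (pt θ - z k)).im = -(F w (pt θ)).im := by
    intro θ
    unfold F
    rw [Complex.im_sum, Complex.im_sum, ← Finset.sum_neg_distrib]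
    exact Finset.sum_congr rfl fun k _ => im_term (z k) (pt θ) (norm_pt θ)
  set μ := (volume : Measure ℝ).restrict (Set.Ioc (0 : ℝ) (2 * π)) with hμ
  set f : ℝ → ℝ := fun θ => (G w t (pt θ)).re with hf
  have hint : Integrable (fun θ => G w t (pt θ)) μ := by
    refine Integrable.of_bound ((G_meas w t).comp cont_pt.measurable).aestronglyMeasurable 1 ?_
    exact Filter.Eventually.of_forall fun θ => G_norm w hw t ht _ (norm_pt θ).le
  have hfint : Integrable f μ := hint.re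
  have h1 : ∫ θ, f θ ∂μ = 2 * π * ((D : ℝ) / 2 / ((D : ℝ) / 2 + t)) := by
    have h2 : ∫ θ, f θ ∂μ = (∫ θ, G w t (pt θ) ∂μ).re := by
      have := integral_re hint
      exact this
    rw [h2, G_lim w hw t ht, G_zero]
    have : (2 * π * (((D : ℝ) / 2 / ((D : ℝ) / 2 + t) : ℝ) : ℂ) : ℂ) =
        ((2 * π * ((D : ℝ) / 2 / ((D : ℝ) / 2 + t)) : ℝ) : ℂ) := by push_cast; ring
    rw [this, Complex.ofReal_re]
  have h2 : (1 / 2 : ℝ) * μ.real {θ | 1 / 2 ≤ f θ} ≤ ∫ θ, f θ ∂μ :=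
    mul_meas_ge_le_integral_of_nonneg (Filter.Eventually.of_forall fun θ =>
      re_cay _ t ht (re_F w _ hw (norm_pt θ).le)) hfint _
  have h3 : (2 * π * ((D : ℝ) / 2 / ((D : ℝ) / 2 + t))) ≤ π * D / t := by
    have hD : (0 : ℝ) ≤ D := by positivity
    have : (D : ℝ) / 2 / ((D : ℝ) / 2 + t) ≤ (D : ℝ) / 2 / t :=
      div_le_div_of_nonneg_left (by positivity) ht (by linarith)
    calc 2 * π * ((D : ℝ) / 2 / ((D : ℝ) / 2 + t)) ≤ 2 * π * ((D : ℝ) / 2 / t) :=
          mul_le_mul_of_nonneg_left this (by positivity)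
      _ = π * D / t := by ring
  have h4 : μ.real {θ | 1 / 2 ≤ f θ} ≤ 2 * π * D / t := by
    have : 2 * π * D / t = 2 * (π * D / t) := by ring
    rw [this]
    linarith
  have h5 : μ {θ | 1 / 2 ≤ f θ} ≤ ENNReal.ofReal (2 * π * D / t) := by
    rw [← ofReal_measureReal]
    exact ENNReal.ofReal_le_ofReal h4
  refine le_trans ?_ h5
  have hms : MeasurableSet {θ | 1 / 2 ≤ f θ} := by
    refine measurableSet_le measurable_const ?_
    exact Complex.measurable_re.comp ((G_meas w t).comp cont_pt.measurable)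
  rw [hμ, Measure.restrict_apply hms]
  refine measure_mono ?_
  rintro θ ⟨hθ, hθ2⟩
  refine ⟨?_, hθ⟩
  rw [hV, abs_neg] at hθ2
  exact re_cay_half _ t ht (re_F w _ hw (norm_pt θ).le) hθ2

end Pool.Agent.R267.NM
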