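import Pool.Agent.R267.NM.Defs
import Pool.Agent.R267.DI.Grid

set_option autoImplicit false
open Complex Real MeasureTheory

namespace Pool.Agent.R267.NM

open Pool.Agent.R267.DI

/-- Doubling around the node `j` with exponent `J`. -/
def Dbl (b : ℝ) (M n : ℕ) (c1 e : ℝ) (cf : ℤ → ℂ) (j : ℕ) (J : ℝ) : Prop :=
  ∀ w : ℂ, ‖w - ((j * b / n : ℝ) : ℂ)‖ ≤ c1 * e → ∃ θ : ℝ, |θ - j * b / n| ≤ e ∧
    ‖esum (2 * π / b) M cf w‖ ≤ Real.exp J * ‖esum (2 * π / b) M cf (θ : ℂ)‖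

theorem dbl_zero {b : ℝ} {M n : ℕ} {c1 e : ℝ} {cf : ℤ → ℂ} (he : 0 ≤ e)
    (hc : ∀ m ∈ Finset.Icc (-(M : ℤ)) (M : ℤ), cf m = 0) (j : ℕ) (J : ℝ) :
    Dbl b M n c1 e cf j J := by
  intro w _
  refine ⟨j * b / n, by simpa using he, ?_⟩
  have : ∀ v, esum (2 * π / b) M cf v = 0 := by
    intro v
    unfold esum
    apply Finset.sum_eq_zero
    intro m hm
    rw [hc m hm, zero_mul]
  rw [this, this]
  simp

/-- The function of `x` and `w` of a family of coefficients. -/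
noncomputable def Fe (b : ℝ) (M : ℕ) (v : ℤ → ℝ → ℂ) (x : ℝ) (w : ℂ) : ℂ :=
  esum (2 * π / b) M (fun m => v m x) w

theorem Fe_cont {b : ℝ} {M : ℕ} {v : ℤ → ℝ → ℂ} (hv : ∀ m, Continuous (v m)) :
    Continuous (fun p : ℝ × ℂ => Fe b M v p.1 p.2) := by
  unfold Fe esum
  refine continuous_finsetSum _ fun m _ => ?_
  have h1 : Continuous (fun p : ℝ × ℂ => v m p.1) := (hv m).comp continuous_fst
  refine h1.mul ?_
  fun_prop

/-- One column. -/
theorem column (hJR : S_JR) (hPICK : S_PICK) {b e W X c1 A AG lam : ℝ} {ρ : ℝ → ℝ} {M n : ℕ}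
    {φ : ℝ → ℝ → ℝ} {u' : ℤ → ℝ → ℂ} (hn : 0 < n) (he : 0 < e) (hc1 : 1 ≤ c1) (hW : 0 < W) (hA : 0 ≤ A)
    (hAG : 0 ≤ AG)
    (hsm : ContDiff ℝ 2 (fun p : ℝ × ℝ => φ p.1 p.2))
    (hu : ∀ m x, HasDerivAt (fc b φ m) (u' m x) x)
    (hu' : ∀ m x, HasDerivAt (u' m) ((((2 * π / b * m) ^ 2 - lam * ρ x : ℝ) : ℂ) * fc b φ m x) x)
    (hrep : ∀ x y : ℝ, (φ x y : ℂ) = esum (2 * π / b) M (fun m => fc b φ m x) (y : ℂ))
    (hweak : ∀ cf : ℤ → ℂ, ∃ J : ℕ → ℝ, (∀ j, 0 ≤ J j) ∧ (∀ j, j < n → Dbl b M n c1 e cf j (J j)) ∧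
      ∑ j ∈ Finset.range n, Real.log (1 + J j) ≤ A * n)
    (hslice : ∀ cf : ℤ → ℂ, (∃ m ∈ Finset.Icc (-(M : ℤ)) (M : ℤ), cf m ≠ 0) →
      ∃ G : ℕ → ℝ, (∀ j, 0 ≤ G j) ∧ (∑ j ∈ Finset.range n, G j ≤ A * n) ∧
      ∀ j, j < n → ∀ T : ℝ, 0 ≤ T →
      volume {y : ℝ | y ∈ Set.Ioc (j * b / n) (j * b / n + W) ∧
          T / e < |(deriv (fun t : ℝ => esum (2 * π / b) M cf (t : ℂ)) y
            / esum (2 * π / b) M cf (y : ℂ)).re|} ≤ ENNReal.ofReal (W / 2) →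
      Dbl b M n c1 e cf j (G j + A * (1 + T)))
    (K : ℕ → ℕ)
    (hgood : ∀ j, j < n → ∃ S : Set ℝ, MeasurableSet S ∧ S ⊆ Set.Icc X (X + W) ∧
      ENNReal.ofReal (4 * W / 5) ≤ volume S ∧
      ∀ x ∈ S, volume {y : ℝ | y ∈ Set.Ioc (j * b / n) (j * b / n + W) ∧
        AG * K j / W < |deriv (fun t => φ x t) y / φ x y|} ≤ ENNReal.ofReal (W / 2)) :
    ∃ m : ℕ → ℝ, (∀ j, 0 ≤ m j) ∧ (∑ j ∈ Finset.range n, m j ≤ (20 * A + 2) * n) ∧
      ∀ j, j < n → ∀ g : ℝ, 0 < g → g ≤ W / 10 →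
      ∃ x1 ∈ Set.Icc X (X + W), ∃ x2 ∈ Set.Icc X (X + W), x2 = x1 + g ∧
        Dbl b M n c1 e (fun m => fc b φ m x1) j (A * (1 + e * (AG * K j / W)) + m j) ∧
        Dbl b M n c1 e (fun m => fc b φ m x2) j (A * (1 + e * (AG * K j / W)) + m j) ∧
        Dbl b M n c1 e (fun m => u' m x1) j (Real.exp (m j)) := by
  classical
  have hfc : ∀ m, Continuous (fc b φ m) := fun m =>
    continuous_iff_continuousAt.2 fun x => (hu m x).continuousAt
  have hu'c : ∀ m, Continuous (u' m) := fun m =>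
    continuous_iff_continuousAt.2 fun x => (hu' m x).continuousAt
  choose! S hSm hSs hSv hS using hgood
  set S' : ℕ → Set ℝ := fun j => if j < n then S j else ∅ with hS'
  have hSj : ∀ j, j < n → S' j = S j := fun j hj => by rw [hS']; simp [hj]
  set k : ℕ → ℝ := fun j => A * (1 + e * (AG * K j / W)) with hk
  have hk0 : ∀ j, 0 ≤ k j := fun j => by rw [hk]; positivity
  have hce : e ≤ c1 * e := by nlinarith
  have hJ1 := fun j : ℕ => hJR (Fe b M (fc b φ)) (Fe_cont hfc) (c1 * e) e (j * b / n) he hce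
  have hJ2 := fun j : ℕ => hJR (Fe b M u') (Fe_cont hu'c) (c1 * e) e (j * b / n) he hce
  -- transfer between `Dbl` and the ratio
  have tr1 : ∀ j x J, 0 ≤ J → Dbl b M n c1 e (fun m => fc b φ m x) j J →
      jr (Fe b M (fc b φ)) (c1 * e) e (j * b / n) x ≤ J ∧
      Dbl b M n c1 e (fun m => fc b φ m x) j (jr (Fe b M (fc b φ)) (c1 * e) e (j * b / n) x) :=
    fun j x J hJ h => (hJ1 j).2.2 x J hJ h
  have tr2 : ∀ j x J, 0 ≤ J → Dbl b M n c1 e (fun m => u' m x) j J →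
      jr (Fe b M u') (c1 * e) e (j * b / n) x ≤ J ∧
      Dbl b M n c1 e (fun m => u' m x) j (jr (Fe b M u') (c1 * e) e (j * b / n) x) :=
    fun j x J hJ h => (hJ2 j).2.2 x J hJ h
  obtain ⟨m, hm0, hms, hm⟩ := hPICK n X W A
    (fun j x => jr (Fe b M (fc b φ)) (c1 * e) e (j * b / n) x)
    (fun j x => Real.log (1 + jr (Fe b M u') (c1 * e) e (j * b / n) x)) S' k hW hA
    (fun j => (hJ1 j).1)
    (fun j => Real.measurable_log.comp ((hJ2 j).1.const_add 1))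
    (fun j x => (hJ1 j).2.1 x)
    (fun j x => Real.log_nonneg (by have := (hJ2 j).2.1 x; linarith))
    hk0
    (fun j => by
      by_cases hj : j < n
      · rw [hSj j hj]; exact hSm j hj
      · rw [hS']; simp [hj])
    (fun j => by
      by_cases hj : j < n
      · rw [hSj j hj]; exact hSs j hj
      · rw [hS']; simp [hj])
    (fun j hj => by rw [hSj j hj]; exact hSv j hj)
    (fun x _ => by
      by_cases hcf : ∃ m ∈ Finset.Icc (-(M : ℤ)) (M : ℤ), fc b φ m x ≠ 0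
      · obtain ⟨G, hG0, hGs, hG⟩ := hslice (fun m => fc b φ m x) hcf
        refine ⟨G, hG0, hGs, fun j hj hx => ?_⟩
        rw [hSj j hj] at hx
        have hT : 0 ≤ e * (AG * K j / W) := by positivity
        have h1 := hG j hj (e * (AG * K j / W)) hT (by
          refine le_trans (measure_mono ?_) (hS j hj x hx)
          rintro y ⟨hy1, hy2⟩
          refine ⟨hy1, ?_⟩
          have e1 : (fun t : ℝ => esum (2 * π / b) M (fun m => fc b φ m x) (t : ℂ))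
              = fun t : ℝ => ((φ x t : ℝ) : ℂ) := funext fun t => (hrep x t).symm
          have hd : HasDerivAt (fun t => φ x t) (deriv (fun t => φ x t) y) y :=
            ((Pool.Agent.R267.DI.Grad.comp2 hsm x).differentiable (by norm_num) y).hasDerivAt
          have e2 : deriv (fun t : ℝ => ((φ x t : ℝ) : ℂ)) y
              = ((deriv (fun t => φ x t) y : ℝ) : ℂ) := hd.ofReal_comp.deriv
          rw [e1, e2, ← hrep x y, ← Complex.ofReal_div, Complex.ofReal_re] at hy2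
          have e3 : e * (AG * K j / W) / e = AG * K j / W := by field_simp
          rw [e3] at hy2
          exact hy2)
        have h2 := (tr1 j x _ (by have := hG0 j; positivity) h1).1
        rw [hk]
        exact h2
      · push Not at hcf
        refine ⟨fun _ => 0, fun _ => le_rfl, by simp; positivity, fun j hj _ => ?_⟩
        have h2 := (tr1 j x 0 le_rfl (dbl_zero he.le hcf j 0)).1
        have := hk0 j
        linarith)
    (fun x _ => by
      obtain ⟨J, hJ0, hJd, hJs⟩ := hweak (fun m => u' m x)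
      refine le_trans (Finset.sum_le_sum fun j hj => ?_) hJs
      rw [Finset.mem_range] at hj
      have h2 := (tr2 j x _ (hJ0 j) (hJd j hj)).1
      have h3 := (hJ2 j).2.1 x
      exact Real.log_le_log (by linarith) (by linarith))
  refine ⟨m, hm0, hms, fun j hj g hg hg2 => ?_⟩
  obtain ⟨x1, hx1, x2, hx2, hx12, -, -, q1, q2, q3⟩ := hm j hj g hg hg2
  have mono : ∀ (cf : ℤ → ℂ) (J J' : ℝ), J ≤ J' → Dbl b M n c1 e cf j J → Dbl b M n c1 e cf j J' := by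
    intro cf J J' hJJ h w hw
    obtain ⟨θ, hθ, hθ2⟩ := h w hw
    refine ⟨θ, hθ, hθ2.trans ?_⟩
    gcongr
  refine ⟨x1, hx1, x2, hx2, hx12, ?_, ?_, ?_⟩
  · obtain ⟨J, hJ0, hJd, -⟩ := hweak (fun m => fc b φ m x1)
    exact mono _ _ _ q1 (tr1 j x1 _ (hJ0 j) (hJd j hj)).2
  · obtain ⟨J, hJ0, hJd, -⟩ := hweak (fun m => fc b φ m x2)
    exact mono _ _ _ q2 (tr1 j x2 _ (hJ0 j) (hJd j hj)).2
  · obtain ⟨J, hJ0, hJd, -⟩ := hweak (fun m => u' m x1)
    refine mono _ _ _ ?_ (tr2 j x1 _ (hJ0 j) (hJd j hj)).2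
    have h3 := (hJ2 j).2.1 x1
    have h4 : (0 : ℝ) < 1 + jr (Fe b M u') (c1 * e) e (j * b / n) x1 := by linarith
    have h5 := (Real.log_le_iff_le_exp h4).1 q3
    linarith

end Pool.Agent.R267.NM
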