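import Pool.Agent.R267.NM.CrossAux

/-!
# Piece NM-CROSS (helper310), main file
-/

set_option autoImplicit false

open MeasureTheory Filter Topology

namespace Pool.Agent.R267.NM

open CrossAux

theorem CrossAux.final_arith (c m A W σ ε K : ℝ) (hW : 0 < W) (hσ : 0 < σ) (hε : 0 < ε)
    (hK : 0 < K) (hc0 : 0 ≤ c) (key : c * m ≤ A * 16) (hm2 : W / K / σ ≤ 2 * m)
    (hlo : 32 * σ * A / (ε * W) ≤ K) : c ≤ ε * K ^ 2 := by
  have hεW : 0 < ε * W := mul_pos hε hW
  have e0 : c * (W / K / σ) ≤ c * (2 * m) := mul_le_mul_of_nonneg_left hm2 hc0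
  have e4 : c * (W / K / σ) ≤ 32 * A := by linarith
  have e5 : c * W ≤ 32 * A * (σ * K) := by
    have e6 : c * W = c * (W / K / σ) * (σ * K) := by
      field_simp
    rw [e6]
    exact mul_le_mul_of_nonneg_right e4 (by positivity)
  rw [div_le_iff₀ hεW] at hlo
  have e9 := mul_le_mul_of_nonneg_right hlo hK.le
  have e8 : c * W ≤ ε * K ^ 2 * W := by
    calc c * W ≤ 32 * A * (σ * K) := e5
      _ = 32 * σ * A * K := by ring
      _ ≤ K * (ε * W) * K := e9
      _ = ε * K ^ 2 * W := by ring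
  exact le_of_mul_le_mul_right e8 hW

theorem CrossAux.k_arith (A W Z σ ε : ℝ) (hW : 0 < W) (hσ : 0 < σ) (hε : 0 < ε)
    (h : A ≤ 8 * W * Z / σ) : 32 * σ * A / (ε * W) ≤ 256 * Z / ε := by
  have hεW : 0 < ε * W := mul_pos hε hW
  rw [div_le_div_iff₀ hεW hε]
  rw [le_div_iff₀ hσ] at h
  have h1 := mul_le_mul_of_nonneg_right h (mul_pos (by norm_num : (0 : ℝ) < 32) hε).le
  calc 32 * σ * A * ε = A * σ * (32 * ε) := by ring
    _ ≤ 8 * W * Z * (32 * ε) := h1
    _ = 256 * Z * (ε * W) := by ring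

theorem CrossAux.m_arith (x : ℝ) (h : 1 ≤ x) : x ≤ 2 * (⌊x⌋₊ : ℝ) := by
  have e2 : x < ⌊x⌋₊ + 1 := Nat.lt_floor_add_one _
  have e3 : 1 ≤ ⌊x⌋₊ := Nat.le_floor (by simpa using h)
  have e3r : (1 : ℝ) ≤ ⌊x⌋₊ := by exact_mod_cast e3
  linarith

/-- Piece NM-CROSS. -/
theorem s_CROSS (h : Pool.Agent.R267.NL.S_MAX) : S_CROSS := by
  classical
  intro u q a b Q Z W ε nx n ha hb hZ0 hW hε hnx hn hWa hWb h9 hu hq0 hqQ hpde hpa hpb hne hZx hZy
  obtain ⟨x0, y0, h00⟩ := hne
  have hCx : {x | u x y0 = 0}.Countable :=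
    countable_zeros (fun x => u x y0) a ha (fun c => (hZx y0 ⟨x0, h00⟩ c).1)
  have hCy : {y | u x0 y = 0}.Countable :=
    countable_zeros (fun y => u x0 y) b hb (fun c => (hZy x0 ⟨y0, h00⟩ c).1)
  have hnx0 : (0 : ℝ) < nx := by exact_mod_cast hnx
  have hn0 : (0 : ℝ) < n := by exact_mod_cast hn
  have hnx1 : (1 : ℝ) ≤ nx := by exact_mod_cast hnx
  have hn1 : (1 : ℝ) ≤ n := by exact_mod_cast hn
  have hWa' : 4 * W ≤ a := hWa.trans (div_le_self ha.le hnx1)
  have hWb' : 4 * W ≤ b := hWb.trans (div_le_self hb.le hn1)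
  set κ := 256 * Z / ε + 2 with hκ
  have hκ2 : 2 ≤ κ := by
    have : 0 ≤ 256 * Z / ε := by positivity
    linarith
  have hκ0 : 0 < κ := by linarith
  set σ := W / κ with hσd
  have hσ0 : 0 < σ := div_pos hW hκ0
  have hσκ : κ * σ = W := by rw [hσd]; field_simp
  have hσW : σ ≤ W := by rw [← hσκ]; nlinarith
  obtain ⟨t, ht⟩ := exists_grid _ hCx σ
  obtain ⟨t', ht'⟩ := exists_grid _ hCy σ
  have fv : ∀ k : ℤ, ∀ c : ℝ, {y | y ∈ Set.Ico c (c + b) ∧ u (t + k * σ) y = 0}.Finite ∧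
      (Set.ncard {y | y ∈ Set.Ico c (c + b) ∧ u (t + k * σ) y = 0} : ℝ) ≤ Z :=
    fun k c => hZy _ ⟨y0, ht k⟩ c
  have fh : ∀ k : ℤ, ∀ c : ℝ, {x | x ∈ Set.Ico c (c + a) ∧ u x (t' + k * σ) = 0}.Finite ∧
      (Set.ncard {x | x ∈ Set.Ico c (c + a) ∧ u x (t' + k * σ) = 0} : ℝ) ≤ Z :=
    fun k c => hZx _ ⟨x0, ht' k⟩ c
  obtain ⟨V, hV, hVc⟩ := lines_count (fun k y => u (t + k * σ) y) t σ (-W) a (-W) b Z hσ0 ha.le
    hZ0 fv
  obtain ⟨H, hH, hHc⟩ := lines_count (fun k x => u x (t' + k * σ)) t' σ (-W) b (-W) a Z hσ0 hb.le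
    hZ0 fh
  set P : Finset ((ℤ × ℝ) ⊕ (ℤ × ℝ)) := V.disjSum H with hP
  have hPc : (P.card : ℝ) ≤ 2 * (a + b) * Z / σ := by
    rw [hP, Finset.card_disjSum]
    push_cast
    have e1 : 1 ≤ a / σ := by rw [le_div_iff₀ hσ0]; linarith
    have e2 : 1 ≤ b / σ := by rw [le_div_iff₀ hσ0]; linarith
    calc (V.card : ℝ) + H.card ≤ (a / σ + 1) * Z + (b / σ + 1) * Z := add_le_add hVc hHc
      _ ≤ (a / σ + a / σ) * Z + (b / σ + b / σ) * Z := by
          apply add_le_add <;> apply mul_le_mul_of_nonneg_right _ hZ0 <;> linarith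
      _ = 2 * (a + b) * Z / σ := by ring
  set X : ℕ → ℝ := fun i => i * a / nx with hX
  set Y : ℕ → ℝ := fun j => j * b / n with hY
  -- positions
  have hX0 : ∀ i, 0 ≤ X i := fun i => by simp only [hX]; positivity
  have hY0 : ∀ j, 0 ≤ Y j := fun j => by simp only [hY]; positivity
  have hXs : ∀ i i' : ℕ, i < i' → X i + 4 * W ≤ X i' := by
    intro i i' hi
    have e1 : (i : ℝ) + 1 ≤ i' := by exact_mod_cast hi
    have e2 : X i' = i' * (a / nx) := by simp only [hX]; ring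
    have e3 : X i = i * (a / nx) := by simp only [hX]; ring
    have e4 : 0 < a / nx := div_pos ha hnx0
    rw [e2, e3]
    nlinarith
  have hYs : ∀ i i' : ℕ, i < i' → Y i + 4 * W ≤ Y i' := by
    intro i i' hi
    have e1 : (i : ℝ) + 1 ≤ i' := by exact_mod_cast hi
    have e2 : Y i' = i' * (b / n) := by simp only [hY]; ring
    have e3 : Y i = i * (b / n) := by simp only [hY]; ring
    have e4 : 0 < b / n := div_pos hb hn0
    rw [e2, e3]
    nlinarith
  have hXa : ∀ i, i < nx → X i + 4 * W ≤ a := by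
    intro i hi
    have e1 := hXs i nx hi
    have e2 : X nx = a := by simp only [hX]; field_simp
    rwa [e2] at e1
  have hYb : ∀ j, j < n → Y j + 4 * W ≤ b := by
    intro j hj
    have e1 := hYs j n hj
    have e2 : Y n = b := by simp only [hY]; field_simp
    rwa [e2] at e1
  let inS : ℕ → ℕ → (ℤ × ℝ) ⊕ (ℤ × ℝ) → Prop := fun i j z =>
    (X i - W ≤ (px t t' σ z).1 ∧ (px t t' σ z).1 ≤ X i + 2 * W) ∧
    (Y j - W ≤ (px t t' σ z).2 ∧ (px t t' σ z).2 ≤ Y j + 2 * W)
  let Pij : ℕ → ℕ → Finset ((ℤ × ℝ) ⊕ (ℤ × ℝ)) := fun i j => P.filter (inS i j)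
  -- disjointness
  have hdisj : (∑ i ∈ Finset.range nx, ∑ j ∈ Finset.range n, (Pij i j).card) ≤ P.card := by
    rw [← Finset.sum_product' (Finset.range nx) (Finset.range n) (fun i j => (Pij i j).card)]
    rw [← Finset.card_biUnion]
    · apply Finset.card_le_card
      intro z hz
      obtain ⟨p, _, hp⟩ := Finset.mem_biUnion.1 hz
      exact (Finset.mem_filter.1 hp).1
    · intro p _ p' _ hpp
      show Disjoint (Pij p.1 p.2) (Pij p'.1 p'.2)
      rw [Finset.disjoint_left]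
      intro z hz hz'
      obtain ⟨_, ⟨r1, r2⟩, r3, r4⟩ := Finset.mem_filter.1 hz
      obtain ⟨_, ⟨r1', r2'⟩, r3', r4'⟩ := Finset.mem_filter.1 hz'
      apply hpp
      apply Prod.ext
      · rcases lt_trichotomy p.1 p'.1 with hlt | heq | hlt
        · have := hXs _ _ hlt
          linarith
        · exact heq
        · have := hXs _ _ hlt
          linarith
      · rcases lt_trichotomy p.2 p'.2 with hlt | heq | hlt
        · have := hYs _ _ hlt
          linarith
        · exact heq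
        · have := hYs _ _ hlt
          linarith
  -- membership
  have hmem : ∀ i j, i < nx → j < n → ∀ z, X i - W ≤ (px t t' σ z).1 →
      (px t t' σ z).1 ≤ X i + 2 * W → Y j - W ≤ (px t t' σ z).2 →
      (px t t' σ z).2 ≤ Y j + 2 * W →
      u (px t t' σ z).1 (px t t' σ z).2 = 0 → z ∈ Pij i j := by
    intro i j hi hj z g1 g2 g3 g4 g5
    apply Finset.mem_filter.2
    refine ⟨?_, ⟨g1, g2⟩, g3, g4⟩
    have i1 := hX0 i
    have i2 := hXa i hi
    have j1 := hY0 j
    have j2 := hYb j hj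
    rcases z with ⟨k, y⟩ | ⟨k, x⟩
    · simp only [px, Sum.elim_inl] at g1 g2 g3 g4 g5
      rw [hP, Finset.inl_mem_disjSum, hV]
      exact ⟨⟨by linarith, by linarith⟩, ⟨by linarith, by linarith⟩, g5⟩
    · simp only [px, Sum.elim_inr] at g1 g2 g3 g4 g5
      rw [hP, Finset.inr_mem_disjSum, hH]
      exact ⟨⟨by linarith, by linarith⟩, ⟨by linarith, by linarith⟩, g5⟩
  -- local bound of the number of pairs
  have hloc : ∀ i j, ((Pij i j).card : ℝ) ≤ 8 * W * Z / σ := by
    intro i j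
    obtain ⟨V', hV', hVc'⟩ := lines_count (fun k y => u (t + k * σ) y) t σ (X i - W) (3 * W)
      (Y j - W) b Z hσ0 (by linarith) hZ0 fv
    obtain ⟨H', hH', hHc'⟩ := lines_count (fun k x => u x (t' + k * σ)) t' σ (Y j - W) (3 * W)
      (X i - W) a Z hσ0 (by linarith) hZ0 fh
    have hsub : Pij i j ⊆ V'.disjSum H' := by
      intro z hz
      obtain ⟨hzP, ⟨g1, g2⟩, g3, g4⟩ := Finset.mem_filter.1 hz
      rcases z with ⟨k, y⟩ | ⟨k, x⟩
      · simp only [px, Sum.elim_inl] at g1 g2 g3 g4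
        rw [hP, Finset.inl_mem_disjSum, hV] at hzP
        rw [Finset.inl_mem_disjSum, hV']
        exact ⟨⟨by linarith, by linarith⟩, ⟨by linarith, by linarith⟩, hzP.2.2⟩
      · simp only [px, Sum.elim_inr] at g1 g2 g3 g4
        rw [hP, Finset.inr_mem_disjSum, hH] at hzP
        rw [Finset.inr_mem_disjSum, hH']
        exact ⟨⟨by linarith, by linarith⟩, ⟨by linarith, by linarith⟩, hzP.2.2⟩
    have h1 := Finset.card_le_card hsub
    rw [Finset.card_disjSum] at h1
    have h2 : ((Pij i j).card : ℝ) ≤ V'.card + H'.card := by exact_mod_cast h1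
    have e1 : 1 ≤ W / σ := by rw [le_div_iff₀ hσ0]; linarith
    have e2 : 3 * W / σ + 1 ≤ 4 * W / σ := by
      have : 4 * W / σ = 3 * W / σ + W / σ := by ring
      linarith
    have e3 := mul_le_mul_of_nonneg_right e2 hZ0
    calc ((Pij i j).card : ℝ) ≤ (3 * W / σ + 1) * Z + (3 * W / σ + 1) * Z := by linarith
      _ ≤ 4 * W / σ * Z + 4 * W / σ * Z := by linarith
      _ = 8 * W * Z / σ := by ring
  have hεW : 0 < ε * W := mul_pos hε hW
  obtain ⟨K, hKdef⟩ : ∃ K : ℕ → ℕ → ℕ, ∀ i j, K i j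
      = ⌈32 * σ * ((Pij i j).card : ℝ) / (ε * W)⌉₊ + 1 := ⟨_, fun _ _ => rfl⟩
  have hKlo : ∀ i j, 32 * σ * ((Pij i j).card : ℝ) / (ε * W) ≤ K i j := by
    intro i j
    have e1 := Nat.le_ceil (32 * σ * ((Pij i j).card : ℝ) / (ε * W))
    rw [hKdef]; push_cast; linarith
  have hKhi : ∀ i j, (K i j : ℝ) ≤ 32 * σ * ((Pij i j).card : ℝ) / (ε * W) + 2 := by
    intro i j
    have e1 := Nat.ceil_lt_add_one (a := 32 * σ * ((Pij i j).card : ℝ) / (ε * W)) (by positivity)
    rw [hKdef]; push_cast; linarith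
  have hKpos : ∀ i j, 0 < K i j := fun i j => by rw [hKdef]; exact Nat.succ_pos _
  refine ⟨K, hKpos, ?_, ?_⟩
  · calc ∑ i ∈ Finset.range nx, ∑ j ∈ Finset.range n, (K i j : ℝ)
        ≤ ∑ i ∈ Finset.range nx, ∑ j ∈ Finset.range n,
            (32 * σ / (ε * W) * ((Pij i j).card : ℝ) + 2) := by
          apply Finset.sum_le_sum
          intro i _
          apply Finset.sum_le_sum
          intro j _
          have := hKhi i j
          have e : 32 * σ * ((Pij i j).card : ℝ) / (ε * W)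
              = 32 * σ / (ε * W) * ((Pij i j).card : ℝ) := by ring
          rw [← e]; exact this
      _ = 32 * σ / (ε * W) * ((∑ i ∈ Finset.range nx, ∑ j ∈ Finset.range n,
            (Pij i j).card : ℕ) : ℝ) + 2 * nx * n := by
          simp only [Finset.sum_add_distrib, ← Finset.mul_sum, Finset.sum_const, nsmul_eq_mul,
            Finset.card_range]
          push_cast
          ring
      _ ≤ 32 * σ / (ε * W) * (2 * (a + b) * Z / σ) + 2 * nx * n := by
          have e1 : ((∑ i ∈ Finset.range nx, ∑ j ∈ Finset.range n, (Pij i j).card : ℕ) : ℝ)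
              ≤ 2 * (a + b) * Z / σ := le_trans (by exact_mod_cast hdisj) hPc
          have e2 : 0 ≤ 32 * σ / (ε * W) := by positivity
          linarith [mul_le_mul_of_nonneg_left e1 e2]
      _ = 64 * ((a + b) * Z / (ε * W)) + 2 * nx * n := by field_simp; ring
      _ ≤ 2 * nx * n + 1000 * (a + b) * Z / (ε * W) := by
          have e1 : 0 ≤ (a + b) * Z / (ε * W) := by positivity
          have e2 : 1000 * (a + b) * Z / (ε * W) = 1000 * ((a + b) * Z / (ε * W)) := by ring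
          rw [e2]; linarith
  · intro i j hi hj
    have hKp : 0 < K i j := hKpos i j
    have hKr : (0 : ℝ) < K i j := by exact_mod_cast hKp
    have hKκ : (K i j : ℝ) ≤ κ := by
      have e1 := hKhi i j
      have e2 : 32 * σ * ((Pij i j).card : ℝ) / (ε * W) ≤ 256 * Z / ε :=
        k_arith _ W Z σ ε hW hσ0 hε (hloc i j)
      rw [hκ]; linarith
    have hσK : σ ≤ W / K i j := by
      rw [le_div_iff₀ hKr, ← hσκ]
      nlinarith
    set S : Set (ℕ × ℕ) := {p : ℕ × ℕ | p.1 < K i j ∧ p.2 < K i j ∧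
      ∃ x ∈ Set.Icc (i * a / nx + p.1 * (W / K i j)) (i * a / nx + (p.1 + 1) * (W / K i j)),
      ∃ y ∈ Set.Icc (j * b / n + p.2 * (W / K i j)) (j * b / n + (p.2 + 1) * (W / K i j)),
        u x y = 0} with hS
    have hSf : S.Finite := by
      apply (Finset.finite_toSet (Finset.range (K i j) ×ˢ Finset.range (K i j))).subset
      rintro p ⟨h1, h2, _⟩
      simp only [Finset.coe_product, Set.mem_prod, Finset.mem_coe, Finset.mem_range]
      exact ⟨h1, h2⟩
    rw [Set.ncard_eq_toFinset_card _ hSf]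
    have key := local_count h u q Q (X i) (Y j) W σ t t' (K i j) hKp hW hσ0 hσK h9 hu hq0 hqQ hpde
      (Pij i j) (hmem i j hi hj) hSf.toFinset (by
        intro p hp
        have hp' : p ∈ S := (Set.Finite.mem_toFinset hSf).1 hp
        exact hp')
    set c := hSf.toFinset.card with hc
    set m := ⌊W / K i j / σ⌋₊ with hm
    have keyr : (c : ℝ) * m ≤ ((Pij i j).card : ℝ) * 16 := by exact_mod_cast key
    have hm2 : W / K i j / σ ≤ 2 * m := by
      apply m_arith
      rw [le_div_iff₀ hσ0]; linarith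
    exact final_arith _ _ _ W σ ε _ hW hσ0 hε hKr (Nat.cast_nonneg _) keyr hm2 (hKlo i j)

end Pool.Agent.R267.NM
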