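import Pool.Agent.R267.NM.Defs

/-!
# Piece NM-CROSS (helper310): subdivisions in which few small squares meet the zero set
-/

set_option autoImplicit false

open MeasureTheory Filter Topology

namespace Pool.Agent.R267.NM.CrossAux

/-- zeros on a family of lines -/
theorem lines_count (f : ℤ → ℝ → ℝ) (t σ c ℓ c' b Z : ℝ) (hσ : 0 < σ) (hℓ : 0 ≤ ℓ) (hZ : 0 ≤ Z)
    (hf : ∀ k : ℤ, ∀ c : ℝ, {y | y ∈ Set.Ico c (c + b) ∧ f k y = 0}.Finite ∧
      (Set.ncard {y | y ∈ Set.Ico c (c + b) ∧ f k y = 0} : ℝ) ≤ Z) :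
    ∃ V : Finset (ℤ × ℝ), (∀ (k : ℤ) (y : ℝ), (k, y) ∈ V ↔
        (c ≤ t + k * σ ∧ t + k * σ ≤ c + ℓ) ∧ y ∈ Set.Ico c' (c' + b) ∧ f k y = 0) ∧
      (V.card : ℝ) ≤ (ℓ / σ + 1) * Z := by
  classical
  set I := Finset.Icc ⌈(c - t) / σ⌉ ⌊(c + ℓ - t) / σ⌋ with hI
  set V : Finset (ℤ × ℝ) :=
    I.biUnion (fun k => ((hf k c').1.toFinset).image (fun y => (k, y))) with hV
  have hmem : ∀ k : ℤ, k ∈ I ↔ (c ≤ t + k * σ ∧ t + k * σ ≤ c + ℓ) := by
    intro k
    rw [hI, Finset.mem_Icc, Int.ceil_le, Int.le_floor, div_le_iff₀ hσ, le_div_iff₀ hσ]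
    constructor
    · rintro ⟨h1, h2⟩; constructor <;> linarith
    · rintro ⟨h1, h2⟩; constructor <;> linarith
  refine ⟨V, ?_, ?_⟩
  · intro k y
    rw [hV, Finset.mem_biUnion]
    constructor
    · rintro ⟨k', hk', h⟩
      obtain ⟨y', hy', h'⟩ := Finset.mem_image.1 h
      obtain ⟨e1, e2⟩ := Prod.mk.inj h'
      subst e1
      subst e2
      obtain ⟨hy1, hy2⟩ := (Set.Finite.mem_toFinset _).1 hy'
      exact ⟨(hmem _).1 hk', hy1, hy2⟩
    · rintro ⟨h1, h2, h3⟩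
      exact ⟨k, (hmem k).2 h1,
        Finset.mem_image.2 ⟨y, (Set.Finite.mem_toFinset _).2 ⟨h2, h3⟩, rfl⟩⟩
  · have h1 : V.card ≤ ∑ k ∈ I, (((hf k c').1.toFinset).image (fun y => (k, y))).card :=
      Finset.card_biUnion_le
    have h2 : (V.card : ℝ) ≤ ∑ _k ∈ I, Z := by
      calc (V.card : ℝ)
          ≤ ((∑ k ∈ I, (((hf k c').1.toFinset).image (fun y => (k, y))).card : ℕ) : ℝ) := by
            exact_mod_cast h1
        _ = ∑ k ∈ I, ((((hf k c').1.toFinset).image (fun y => (k, y))).card : ℝ) := by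
            push_cast; rfl
        _ ≤ ∑ _k ∈ I, Z := by
            apply Finset.sum_le_sum
            intro k _
            have h3 : (((hf k c').1.toFinset).image (fun y => (k, y))).card
                ≤ ((hf k c').1.toFinset).card := Finset.card_image_le
            have h4 := (hf k c').2
            rw [Set.ncard_eq_toFinset_card _ (hf k c').1] at h4
            exact le_trans (by exact_mod_cast h3) h4
    have h5 : (I.card : ℝ) ≤ ℓ / σ + 1 := by
      rw [hI, Int.card_Icc]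
      have h6 : 0 ≤ ℓ / σ + 1 := by positivity
      have h7 : ((⌊(c + ℓ - t) / σ⌋ + 1 - ⌈(c - t) / σ⌉ : ℤ) : ℝ) ≤ ℓ / σ + 1 := by
        push_cast
        have e1 := Int.floor_le ((c + ℓ - t) / σ)
        have e2 := Int.le_ceil ((c - t) / σ)
        have e3 : (c + ℓ - t) / σ = (c - t) / σ + ℓ / σ := by ring
        linarith
      rcases le_or_gt 0 (⌊(c + ℓ - t) / σ⌋ + 1 - ⌈(c - t) / σ⌉) with h8 | h8
      · have h9 := Int.toNat_of_nonneg h8
        have h10 : (((⌊(c + ℓ - t) / σ⌋ + 1 - ⌈(c - t) / σ⌉).toNat : ℕ) : ℝ)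
            = ((⌊(c + ℓ - t) / σ⌋ + 1 - ⌈(c - t) / σ⌉ : ℤ) : ℝ) := by
          rw [← Int.cast_natCast, h9]
        rw [h10]; exact h7
      · rw [Int.toNat_of_nonpos h8.le]
        simpa using h6
    rw [Finset.sum_const, nsmul_eq_mul] at h2
    exact h2.trans (mul_le_mul_of_nonneg_right h5 hZ)

/-- a grid avoiding a countable set -/
theorem exists_grid (C : Set ℝ) (hC : C.Countable) (δ : ℝ) :
    ∃ t, ∀ k : ℤ, t + k * δ ∉ C := by
  have h1 : (⋃ k : ℤ, (fun t : ℝ => t + k * δ) ⁻¹' C).Countable :=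
    Set.countable_iUnion fun k => hC.preimage (add_left_injective _)
  obtain ⟨t, ht, _⟩ := (h1.dense_compl ℝ).exists_between (zero_lt_one (α := ℝ))
  refine ⟨t, fun k hk => ht ?_⟩
  rw [Set.mem_iUnion]
  exact ⟨k, hk⟩

/-- the zeros are countable -/
theorem countable_zeros (f : ℝ → ℝ) (b : ℝ) (hb : 0 < b)
    (hZ : ∀ c : ℝ, {y | y ∈ Set.Ico c (c + b) ∧ f y = 0}.Finite) : {y | f y = 0}.Countable := by
  have h1 : {y | f y = 0} ⊆ ⋃ n : ℤ, {y | y ∈ Set.Ico ((n : ℝ) * b) ((n : ℝ) * b + b) ∧ f y = 0} := by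
    intro y hy
    rw [Set.mem_iUnion]
    refine ⟨⌊y / b⌋, ⟨?_, ?_⟩, hy⟩
    · have := Int.floor_le (y / b)
      rwa [le_div_iff₀ hb] at this
    · have := Int.lt_floor_add_one (y / b)
      rw [div_lt_iff₀ hb] at this
      linarith
  exact (Set.countable_iUnion fun n => (hZ _).countable).mono h1

/-- the point of a pair (line, zero) -/
def px (t t' σ : ℝ) : (ℤ × ℝ) ⊕ (ℤ × ℝ) → ℝ × ℝ :=
  Sum.elim (fun z => (t + z.1 * σ, z.2)) (fun z => (z.2, t' + z.1 * σ))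

/-- integers near a real -/
theorem near_mem (X δ x : ℝ) (hδ : 0 < δ) (p : ℕ) (h1 : X + ((p : ℝ) - 1) * δ ≤ x)
    (h2 : x ≤ X + ((p : ℝ) + 2) * δ) :
    (p : ℤ) ∈ Finset.Icc (⌊(x - X) / δ⌋ - 2) (⌊(x - X) / δ⌋ + 1) := by
  have s1 : (p : ℝ) - 1 ≤ (x - X) / δ := by rw [le_div_iff₀ hδ]; linarith
  have s2 : (x - X) / δ ≤ (p : ℝ) + 2 := by rw [div_le_iff₀ hδ]; linarith
  rw [Finset.mem_Icc]
  constructor
  · have h3 := Int.floor_le ((x - X) / δ)
    have : ((⌊(x - X) / δ⌋ - 2 : ℤ) : ℝ) ≤ ((p : ℤ) : ℝ) := by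
      push_cast; linarith
    exact_mod_cast this
  · have h3 : (p : ℤ) - 1 ≤ ⌊(x - X) / δ⌋ := by
      rw [Int.le_floor]; push_cast; exact s1
    linarith

/-- local double counting -/
theorem local_count (h : Pool.Agent.R267.NL.S_MAX) (u q : ℝ → ℝ → ℝ) (Q X Y W σ t t' : ℝ)
    (K : ℕ) (hK : 0 < K) (hW : 0 < W) (hσ : 0 < σ) (hσW : σ ≤ W / K) (h9 : 9 * Q * W ^ 2 ≤ 1)
    (hu : ContDiff ℝ 2 (fun p : ℝ × ℝ => u p.1 p.2)) (hq0 : ∀ x y, 0 ≤ q x y)
    (hqQ : ∀ x y, q x y ≤ Q)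
    (hpde : ∀ x y, deriv (deriv (fun t => u t y)) x + deriv (deriv (fun t => u x t)) y
      + q x y * u x y = 0)
    (P : Finset ((ℤ × ℝ) ⊕ (ℤ × ℝ)))
    (hP : ∀ z, X - W ≤ (px t t' σ z).1 → (px t t' σ z).1 ≤ X + 2 * W →
      Y - W ≤ (px t t' σ z).2 → (px t t' σ z).2 ≤ Y + 2 * W →
      u (px t t' σ z).1 (px t t' σ z).2 = 0 → z ∈ P)
    (C : Finset (ℕ × ℕ))
    (hC : ∀ p ∈ C, p.1 < K ∧ p.2 < K ∧
      ∃ x ∈ Set.Icc (X + p.1 * (W / K)) (X + (p.1 + 1) * (W / K)),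
      ∃ y ∈ Set.Icc (Y + p.2 * (W / K)) (Y + (p.2 + 1) * (W / K)), u x y = 0) :
    C.card * ⌊W / K / σ⌋₊ ≤ P.card * 16 := by
  classical
  have hK0 : (0 : ℝ) < K := by exact_mod_cast hK
  have hK1 : (1 : ℝ) ≤ K := by exact_mod_cast hK
  set δ := W / K with hδ
  have hδ0 : 0 < δ := div_pos hW hK0
  have hKδ : (K : ℝ) * δ = W := by rw [hδ]; field_simp
  have hδW : δ ≤ W := by rw [← hKδ]; nlinarith
  have hQ0 : 0 ≤ Q := (hq0 0 0).trans (hqQ 0 0)
  let r : ℕ × ℕ → (ℤ × ℝ) ⊕ (ℤ × ℝ) → Prop := fun p z =>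
    (X + ((p.1 : ℝ) - 1) * δ ≤ (px t t' σ z).1 ∧ (px t t' σ z).1 ≤ X + ((p.1 : ℝ) + 2) * δ) ∧
    (Y + ((p.2 : ℝ) - 1) * δ ≤ (px t t' σ z).2 ∧ (px t t' σ z).2 ≤ Y + ((p.2 : ℝ) + 2) * δ)
  apply Finset.card_mul_le_card_mul r
  · -- every crossed square has many pairs nearby
    intro p hp
    obtain ⟨hp1, hp2, x, hx, y, hy, hxy⟩ := hC p hp
    have hp1r : (p.1 : ℝ) + 1 ≤ K := by exact_mod_cast hp1
    have hp2r : (p.2 : ℝ) + 1 ≤ K := by exact_mod_cast hp2
    have hp1n : (0 : ℝ) ≤ p.1 := Nat.cast_nonneg _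
    have hp2n : (0 : ℝ) ≤ p.2 := Nat.cast_nonneg _
    set a0 := ⌊(X + p.1 * δ - t) / σ⌋ with ha0
    set a1 := ⌈(X + (p.1 + 1) * δ - t) / σ⌉ with ha1
    set b0 := ⌊(Y + p.2 * δ - t') / σ⌋ with hb0
    set b1 := ⌈(Y + (p.2 + 1) * δ - t') / σ⌉ with hb1
    have A1 : t + a0 * σ ≤ X + p.1 * δ := by
      have := Int.floor_le ((X + p.1 * δ - t) / σ)
      rw [le_div_iff₀ hσ] at this
      linarith
    have A2 : X + p.1 * δ < t + (a0 + 1) * σ := by
      have := Int.lt_floor_add_one ((X + p.1 * δ - t) / σ)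
      rw [div_lt_iff₀ hσ] at this
      linarith
    have A3 : X + (p.1 + 1) * δ ≤ t + a1 * σ := by
      have := Int.le_ceil ((X + (p.1 + 1) * δ - t) / σ)
      rw [div_le_iff₀ hσ] at this
      linarith
    have A4 : t + (a1 - 1) * σ < X + (p.1 + 1) * δ := by
      have := Int.ceil_lt_add_one ((X + (p.1 + 1) * δ - t) / σ)
      have h2 : (a1 : ℝ) - 1 < (X + (p.1 + 1) * δ - t) / σ := by linarith
      rw [lt_div_iff₀ hσ] at h2
      linarith
    have B1 : t' + b0 * σ ≤ Y + p.2 * δ := by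
      have := Int.floor_le ((Y + p.2 * δ - t') / σ)
      rw [le_div_iff₀ hσ] at this
      linarith
    have B2 : Y + p.2 * δ < t' + (b0 + 1) * σ := by
      have := Int.lt_floor_add_one ((Y + p.2 * δ - t') / σ)
      rw [div_lt_iff₀ hσ] at this
      linarith
    have B3 : Y + (p.2 + 1) * δ ≤ t' + b1 * σ := by
      have := Int.le_ceil ((Y + (p.2 + 1) * δ - t') / σ)
      rw [div_le_iff₀ hσ] at this
      linarith
    have B4 : t' + (b1 - 1) * σ < Y + (p.2 + 1) * δ := by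
      have := Int.ceil_lt_add_one ((Y + (p.2 + 1) * δ - t') / σ)
      have h2 : (b1 : ℝ) - 1 < (Y + (p.2 + 1) * δ - t') / σ := by linarith
      rw [lt_div_iff₀ hσ] at h2
      linarith
    have a01 : a0 < a1 := by
      have h2 : (a0 : ℝ) * σ < a1 * σ := by nlinarith
      have h3 : (a0 : ℝ) < a1 := lt_of_mul_lt_mul_right h2 hσ.le
      exact_mod_cast h3
    have b01 : b0 < b1 := by
      have h2 : (b0 : ℝ) * σ < b1 * σ := by nlinarith
      have h3 : (b0 : ℝ) < b1 := lt_of_mul_lt_mul_right h2 hσ.le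
      exact_mod_cast h3
    set m := ⌊δ / σ⌋₊ with hm
    have hmσ : (m : ℝ) * σ ≤ δ := by
      have h2 := Nat.floor_le (a := δ / σ) (by positivity)
      rwa [le_div_iff₀ hσ] at h2
    let φ : (ℤ × ℝ) ⊕ (ℤ × ℝ) → ℤ := Sum.elim
      (fun z => if z.1 ≤ a0 then a0 - z.1 else z.1 - a1)
      (fun z => if z.1 ≤ b0 then b0 - z.1 else z.1 - b1)
    have hsurj : (Finset.range m).image (fun k : ℕ => (k : ℤ))
        ⊆ (P.bipartiteAbove r p).image φ := by
      intro k' hk'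
      obtain ⟨k, hk, rfl⟩ := Finset.mem_image.1 hk'
      have hkm : (k : ℝ) + 1 ≤ m := by exact_mod_cast Finset.mem_range.1 hk
      have hk0 : (0 : ℝ) ≤ k := Nat.cast_nonneg _
      have hkσ : ((k : ℝ) + 1) * σ ≤ δ := (mul_le_mul_of_nonneg_right hkm hσ.le).trans hmσ
      have hkσ0 : 0 ≤ (k : ℝ) * σ := by positivity
      set xl := t + ((a0 - k : ℤ) : ℝ) * σ with hxl
      set xr := t + ((a1 + k : ℤ) : ℝ) * σ with hxr
      set yl := t' + ((b0 - k : ℤ) : ℝ) * σ with hyl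
      set yr := t' + ((b1 + k : ℤ) : ℝ) * σ with hyr
      have C1 : xl ≤ X + p.1 * δ := by rw [hxl]; push_cast; linarith
      have C2 : X + ((p.1 : ℝ) - 1) * δ ≤ xl := by rw [hxl]; push_cast; linarith
      have C3 : X + (p.1 + 1) * δ ≤ xr := by rw [hxr]; push_cast; linarith
      have C4 : xr ≤ X + ((p.1 : ℝ) + 2) * δ := by rw [hxr]; push_cast; linarith
      have D1 : yl ≤ Y + p.2 * δ := by rw [hyl]; push_cast; linarith
      have D2 : Y + ((p.2 : ℝ) - 1) * δ ≤ yl := by rw [hyl]; push_cast; linarith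
      have D3 : Y + (p.2 + 1) * δ ≤ yr := by rw [hyr]; push_cast; linarith
      have D4 : yr ≤ Y + ((p.2 : ℝ) + 2) * δ := by rw [hyr]; push_cast; linarith
      -- boundary zero
      have hbz : ∃ x' ∈ Set.Icc xl xr, ∃ y' ∈ Set.Icc yl yr,
          (x' = xl ∨ x' = xr ∨ y' = yl ∨ y' = yr) ∧ u x' y' = 0 := by
        by_contra hcon
        push Not at hcon
        have hsm : Q * (xr - xl) ^ 2 ≤ 1 := by
          have e1 : xr - xl ≤ 3 * W := by linarith
          have e2 : 0 ≤ xr - xl := by linarith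
          have e3 : (xr - xl) ^ 2 ≤ (3 * W) ^ 2 := pow_le_pow_left₀ e2 e1 2
          calc Q * (xr - xl) ^ 2 ≤ Q * (3 * W) ^ 2 := mul_le_mul_of_nonneg_left e3 hQ0
            _ = 9 * Q * W ^ 2 := by ring
            _ ≤ 1 := h9
        exact h u q Q xl xr yl yr (by linarith) (by linarith) hu hq0 hqQ hpde hsm
          (fun x' hx' y' hy' hb => hcon x' hx' y' hy' hb) x
          ⟨C1.trans hx.1, hx.2.trans C3⟩ y ⟨D1.trans hy.1, hy.2.trans D3⟩ hxy
      obtain ⟨x', ⟨hx1, hx2⟩, y', ⟨hy1, hy2⟩, hcase, hz⟩ := hbz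
      have E1 : X + ((p.1 : ℝ) - 1) * δ ≤ x' := C2.trans hx1
      have E2 : x' ≤ X + ((p.1 : ℝ) + 2) * δ := hx2.trans C4
      have E3 : Y + ((p.2 : ℝ) - 1) * δ ≤ y' := D2.trans hy1
      have E4 : y' ≤ Y + ((p.2 : ℝ) + 2) * δ := hy2.trans D4
      have F1 : X - W ≤ x' := by
        have : -δ ≤ ((p.1 : ℝ) - 1) * δ := by nlinarith
        linarith
      have F2 : x' ≤ X + 2 * W := by
        have : ((p.1 : ℝ) + 2) * δ ≤ W + δ := by rw [← hKδ]; nlinarith
        linarith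
      have F3 : Y - W ≤ y' := by
        have : -δ ≤ ((p.2 : ℝ) - 1) * δ := by nlinarith
        linarith
      have F4 : y' ≤ Y + 2 * W := by
        have : ((p.2 : ℝ) + 2) * δ ≤ W + δ := by rw [← hKδ]; nlinarith
        linarith
      have fin : ∀ z : (ℤ × ℝ) ⊕ (ℤ × ℝ), px t t' σ z = (x', y') → φ z = (k : ℤ) →
          (k : ℤ) ∈ (P.bipartiteAbove r p).image φ := by
        intro z hz1 hz2
        rw [Finset.mem_image]
        refine ⟨z, ?_, hz2⟩
        rw [Finset.mem_bipartiteAbove]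
        refine ⟨hP z ?_ ?_ ?_ ?_ ?_, ⟨?_, ?_⟩, ?_, ?_⟩ <;> rw [hz1] <;> assumption
      rcases hcase with e | e | e | e
      · apply fin (Sum.inl (a0 - k, y'))
        · simp only [px, Sum.elim_inl]; rw [e]
        · simp [φ]
      · apply fin (Sum.inl (a1 + k, y'))
        · simp only [px, Sum.elim_inl]; rw [e]
        · simp only [φ, Sum.elim_inl]
          rw [if_neg (by omega)]
          omega
      · apply fin (Sum.inr (b0 - k, x'))
        · simp only [px, Sum.elim_inr]; rw [e]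
        · simp [φ]
      · apply fin (Sum.inr (b1 + k, x'))
        · simp only [px, Sum.elim_inr]; rw [e]
        · simp only [φ, Sum.elim_inr]
          rw [if_neg (by omega)]
          omega
    calc m = ((Finset.range m).image (fun k : ℕ => (k : ℤ))).card := by
          rw [Finset.card_image_of_injective _ Nat.cast_injective, Finset.card_range]
      _ ≤ ((P.bipartiteAbove r p).image φ).card := Finset.card_le_card hsurj
      _ ≤ (P.bipartiteAbove r p).card := Finset.card_image_le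
  · -- every pair is near at most 16 squares
    intro z _
    set s1 := ⌊((px t t' σ z).1 - X) / δ⌋ with hs1
    set s2 := ⌊((px t t' σ z).2 - Y) / δ⌋ with hs2
    have hsub : (C.bipartiteBelow r z).image (fun p : ℕ × ℕ => ((p.1 : ℤ), (p.2 : ℤ)))
        ⊆ Finset.Icc (s1 - 2) (s1 + 1) ×ˢ Finset.Icc (s2 - 2) (s2 + 1) := by
      intro w hw
      obtain ⟨p, hp, rfl⟩ := Finset.mem_image.1 hw
      obtain ⟨_, ⟨r1, r2⟩, r3, r4⟩ := (Finset.mem_bipartiteBelow r).1 hp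
      rw [Finset.mem_product]
      exact ⟨near_mem X δ _ hδ0 p.1 r1 r2, near_mem Y δ _ hδ0 p.2 r3 r4⟩
    have hcard : ((C.bipartiteBelow r z).image
        (fun p : ℕ × ℕ => ((p.1 : ℤ), (p.2 : ℤ)))).card = (C.bipartiteBelow r z).card := by
      apply Finset.card_image_of_injective
      intro p p' hpp
      obtain ⟨e1, e2⟩ := Prod.mk.inj hpp
      exact Prod.ext (by exact_mod_cast e1) (by exact_mod_cast e2)
    rw [← hcard]
    refine (Finset.card_le_card hsub).trans ?_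
    rw [Finset.card_product, Int.card_Icc, Int.card_Icc]
    have e1 : (s1 + 1 + 1 - (s1 - 2)).toNat = 4 := by
      have : s1 + 1 + 1 - (s1 - 2) = 4 := by ring
      rw [this]; rfl
    have e2 : (s2 + 1 + 1 - (s2 - 2)).toNat = 4 := by
      have : s2 + 1 + 1 - (s2 - 2) = 4 := by ring
      rw [this]; rfl
    rw [e1, e2]

end Pool.Agent.R267.NM.CrossAux
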