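import Pool.Agent.R267.DI.Weak
import Pool.Agent.R267.DI.Defs2
import Pool.Agent.R267.NL.Defs

set_option autoImplicit false
open Complex Real MeasureTheory

/-!
# Project NM (MP_c7f82c_an): bounded average doubling index on all tori of revolution

Exact statements of the independent pieces. See NOTES.md.
-/
namespace Pool.Agent.R267.NM

open Pool.Agent.R267.DI

/-- (NM-TWO) Bound of the `x`-derivative on complex discs from two close slices. -/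
def S_TWO : Prop := ∀ Q0 : ℝ, 0 < Q0 → ∃ C c : ℝ, 1 ≤ C ∧ 0 < c ∧ c ≤ 1 ∧
  ∀ (κ Q : ℝ) (M : ℕ) (q : ℝ → ℝ) (u u' : ℤ → ℝ → ℂ), 0 < Q → Continuous q → (∀ x, |q x| ≤ Q) →
  (∀ m x, HasDerivAt (u m) (u' m x) x) →
  (∀ m x, HasDerivAt (u' m) ((((κ * m) ^ 2 - q x : ℝ) : ℂ) * u m x) x) →
  ∀ (L x1 x2 y0 K0 T : ℝ), 0 < L → Q * L ^ 2 ≤ Q0 → 1 ≤ T → 0 ≤ K0 →
  c * L / (2 * T) ≤ x2 - x1 → x2 - x1 ≤ c * L / T →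
  (∀ w : ℂ, ‖w - (y0 : ℂ)‖ ≤ 2 * L → ‖esum κ M (fun m => u m x1) w‖ ≤ K0) →
  (∀ w : ℂ, ‖w - (y0 : ℂ)‖ ≤ 2 * L → ‖esum κ M (fun m => u m x2) w‖ ≤ K0) →
  (∀ w : ℂ, ‖w - (y0 : ℂ)‖ ≤ 2 * L →
    L * ‖esum κ M (fun m => u' m x1) w‖ ≤ Real.exp T * K0) →
  ∀ w : ℂ, ‖w - (y0 : ℂ)‖ ≤ L → L * ‖esum κ M (fun m => u' m x1) w‖ ≤ C * T * K0

/-- (NM-LOCB) Doubling index of a disc from the slices at two close points. -/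
def S_LOCB : Prop := ∀ (ρ : ℝ → ℝ) (a b s ρ0 ρ1 C : ℝ), Continuous ρ → 0 < a → 0 < b → 0 < ρ0 →
  (∀ x, ρ0 ≤ ρ x) → (∀ x, ρ x ≤ ρ1) → (∀ x, ρ (x + a) = ρ x) → 0 < C →
  ∃ A c : ℝ, 0 ≤ A ∧ 0 < c ∧ ∀ (lam : ℝ) (φ : ℝ → ℝ → ℝ) (M : ℕ) (u' : ℤ → ℝ → ℂ), 0 < lam →
  IsEigenfunction ρ a b s lam φ →
  (∀ m x, HasDerivAt (fc b φ m) (u' m x) x) →
  (∀ m x, HasDerivAt (u' m) ((((2 * π / b * m) ^ 2 - lam * ρ x : ℝ) : ℂ) * fc b φ m x) x) →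
  (∀ x y : ℝ, (φ x y : ℂ) = esum (2 * π / b) M (fun m => fc b φ m x) (y : ℂ)) →
  (∀ x y : ℝ, ((deriv (fun t => φ t y) x : ℝ) : ℂ)
      = esum (2 * π / b) M (fun m => u' m x) (y : ℂ)) →
  ∀ (q : ℝ × ℝ) (m n : ℤ) (x1 x2 y0 J T e : ℝ), 0 ≤ J → 1 ≤ T →
  e = C / Real.sqrt lam / Real.sqrt ρ1 / 4 →
  c * e / (2 * T) ≤ x2 - x1 → x2 - x1 ≤ c * e / T →
  |q.1 + m * a - x1| ≤ e → |q.1 + m * a - x2| ≤ e → |q.2 + m * s + n * b - y0| ≤ e →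
  (∀ w : ℂ, ‖w - (y0 : ℂ)‖ ≤ 64 * Real.sqrt ρ1 / Real.sqrt ρ0 * e → ∃ θ : ℝ, |θ - y0| ≤ e ∧
    ‖esum (2 * π / b) M (fun m => fc b φ m x1) w‖
      ≤ Real.exp J * ‖esum (2 * π / b) M (fun m => fc b φ m x1) (θ : ℂ)‖) →
  (∀ w : ℂ, ‖w - (y0 : ℂ)‖ ≤ 64 * Real.sqrt ρ1 / Real.sqrt ρ0 * e → ∃ θ : ℝ, |θ - y0| ≤ e ∧
    ‖esum (2 * π / b) M (fun m => fc b φ m x2) w‖
      ≤ Real.exp J * ‖esum (2 * π / b) M (fun m => fc b φ m x2) (θ : ℂ)‖) →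
  (∀ w : ℂ, ‖w - (y0 : ℂ)‖ ≤ 64 * Real.sqrt ρ1 / Real.sqrt ρ0 * e → ∃ θ : ℝ, |θ - y0| ≤ e ∧
    ‖esum (2 * π / b) M (fun m => u' m x1) w‖
      ≤ Real.exp T * ‖esum (2 * π / b) M (fun m => u' m x1) (θ : ℂ)‖) →
  doublingIndex ρ a b s φ q (C / Real.sqrt lam) ≤ A * (1 + J + Real.log T)

/-- (NM-SLICE) Doubling on a slice from the typical logarithmic derivative. -/
def S_SLICE : Prop := ∀ b c0 c1 c2 : ℝ, 0 < b → 0 < c0 → 0 < c1 → 0 < c2 →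
  ∃ τ0 : ℝ, 0 < τ0 ∧ ∀ τ1 : ℝ, 0 < τ1 → ∃ A : ℝ, 0 ≤ A ∧
  ∀ (M n : ℕ) (e : ℝ), 0 < n → 0 < e → 2 * π / b * e ≤ c0 → M * (2 * π / b * e) ≤ c0 →
  b ≤ n * e → n * e ≤ c2 →
  ∀ c : ℤ → ℂ, (∃ m ∈ Finset.Icc (-(M : ℤ)) (M : ℤ), c m ≠ 0) →
  ∃ G : ℕ → ℝ, (∀ j, 0 ≤ G j) ∧ (∑ j ∈ Finset.range n, G j ≤ A * n) ∧
  ∀ j, j < n → ∀ T W : ℝ, 0 ≤ T → τ1 * e ≤ W → W ≤ τ0 * e →
  volume {y : ℝ | y ∈ Set.Ioc (j * b / n) (j * b / n + W) ∧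
      T / e < |(deriv (fun t : ℝ => esum (2 * π / b) M c (t : ℂ)) y
        / esum (2 * π / b) M c (y : ℂ)).re|} ≤ ENNReal.ofReal (W / 2) →
  ∀ w : ℂ, ‖w - ((j * b / n : ℝ) : ℂ)‖ ≤ c1 * e → ∃ θ : ℝ, |θ - j * b / n| ≤ e ∧
    ‖esum (2 * π / b) M c w‖ ≤ Real.exp (G j + A * (1 + T)) * ‖esum (2 * π / b) M c (θ : ℂ)‖

/-- (NM-LOGSUM) The logarithms of the slice exponents are summable (from the weak type bound). -/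
def S_LOGSUM : Prop := ∀ A : ℝ, 0 ≤ A → ∃ A' : ℝ, 0 ≤ A' ∧ ∀ (n : ℕ) (J : ℕ → ℝ),
  (∀ j, 0 ≤ J j) →
  (∀ t : ℝ, 0 < t → (((Finset.range n).filter (fun j : ℕ => t < J j)).card : ℝ) ≤ A * n / t) →
  ∑ j ∈ Finset.range n, Real.log (1 + J j) ≤ A' * n

/-- (NM-ENERGY) Energy of `log |u|` on a rectangle without zeros. -/
def S_ENERGY : Prop := ∀ (u q : ℝ → ℝ → ℝ) (x1 x2 y1 y2 : ℝ), x1 < x2 → y1 < y2 →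
  ContDiff ℝ 2 (fun p : ℝ × ℝ => u p.1 p.2) → (∀ x y, 0 ≤ q x y) →
  (∀ x y, deriv (deriv (fun t => u t y)) x + deriv (deriv (fun t => u x t)) y
    + q x y * u x y = 0) →
  (∀ x ∈ Set.Icc x1 x2, ∀ y ∈ Set.Icc y1 y2, u x y ≠ 0) →
  ∫ x in x1..x2, ∫ y in y1..y2,
    (Real.sin (π * (x - x1) / (x2 - x1)) * Real.sin (π * (y - y1) / (y2 - y1))) ^ 2
      * (deriv (fun t => u x t) y / u x y) ^ 2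
    ≤ π ^ 2 * ((y2 - y1) / (x2 - x1) + (x2 - x1) / (y2 - y1))

/-- (NM-GOOD) Typical logarithmic derivative in a square with few small squares meeting the zero
set. -/
def S_GOOD : Prop := ∃ A : ℝ, 0 ≤ A ∧ ∀ (u q : ℝ → ℝ → ℝ) (X Y W : ℝ) (K : ℕ), 0 < W → 0 < K →
  ContDiff ℝ 2 (fun p : ℝ × ℝ => u p.1 p.2) → (∀ x y, 0 ≤ q x y) →
  (∀ x y, deriv (deriv (fun t => u t y)) x + deriv (deriv (fun t => u x t)) y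
    + q x y * u x y = 0) →
  (Set.ncard {p : ℕ × ℕ | p.1 < K ∧ p.2 < K ∧
    ∃ x ∈ Set.Icc (X + p.1 * (W / K)) (X + (p.1 + 1) * (W / K)),
    ∃ y ∈ Set.Icc (Y + p.2 * (W / K)) (Y + (p.2 + 1) * (W / K)), u x y = 0} : ℝ)
      ≤ K ^ 2 / 100 →
  ∃ S : Set ℝ, MeasurableSet S ∧ S ⊆ Set.Icc X (X + W) ∧ ENNReal.ofReal (4 * W / 5) ≤ volume S ∧
    ∀ x ∈ S, volume {y : ℝ | y ∈ Set.Ioc Y (Y + W) ∧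
      A * K / W < |deriv (fun t => u x t) y / u x y|} ≤ ENNReal.ofReal (W / 2)

/-- (NM-CROSS) Subdivisions in which few small squares meet the zero set. -/
def S_CROSS : Prop := ∀ (u q : ℝ → ℝ → ℝ) (a b Q Z W ε : ℝ) (nx n : ℕ), 0 < a → 0 < b → 0 ≤ Z →
  0 < W → 0 < ε → 0 < nx → 0 < n → 4 * W ≤ a / nx → 4 * W ≤ b / n → 9 * Q * W ^ 2 ≤ 1 →
  ContDiff ℝ 2 (fun p : ℝ × ℝ => u p.1 p.2) → (∀ x y, 0 ≤ q x y) → (∀ x y, q x y ≤ Q) →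
  (∀ x y, deriv (deriv (fun t => u t y)) x + deriv (deriv (fun t => u x t)) y
    + q x y * u x y = 0) →
  (∀ x y, u (x + a) y = u x y) → (∀ x y, u x (y + b) = u x y) → (∃ x y, u x y ≠ 0) →
  (∀ y, (∃ x, u x y ≠ 0) → ∀ c : ℝ, {x | x ∈ Set.Ico c (c + a) ∧ u x y = 0}.Finite ∧
    (Set.ncard {x | x ∈ Set.Ico c (c + a) ∧ u x y = 0} : ℝ) ≤ Z) →
  (∀ x, (∃ y, u x y ≠ 0) → ∀ c : ℝ, {y | y ∈ Set.Ico c (c + b) ∧ u x y = 0}.Finite ∧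
    (Set.ncard {y | y ∈ Set.Ico c (c + b) ∧ u x y = 0} : ℝ) ≤ Z) →
  ∃ K : ℕ → ℕ → ℕ, (∀ i j, 0 < K i j) ∧
    (∑ i ∈ Finset.range nx, ∑ j ∈ Finset.range n, (K i j : ℝ)
      ≤ 2 * nx * n + 1000 * (a + b) * Z / (ε * W)) ∧
    ∀ i j, i < nx → j < n →
    (Set.ncard {p : ℕ × ℕ | p.1 < K i j ∧ p.2 < K i j ∧
      ∃ x ∈ Set.Icc (i * a / nx + p.1 * (W / K i j)) (i * a / nx + (p.1 + 1) * (W / K i j)),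
      ∃ y ∈ Set.Icc (j * b / n + p.2 * (W / K i j)) (j * b / n + (p.2 + 1) * (W / K i j)),
        u x y = 0} : ℝ) ≤ ε * (K i j : ℝ) ^ 2

/-- (NM-PICK) Selection of two good slices in a column, with summable constants. -/
def S_PICK : Prop := ∀ (n : ℕ) (X W A : ℝ) (J h : ℕ → ℝ → ℝ) (S : ℕ → Set ℝ) (k : ℕ → ℝ), 0 < W →
  0 ≤ A → (∀ j, Measurable (J j)) → (∀ j, Measurable (h j)) → (∀ j x, 0 ≤ J j x) →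
  (∀ j x, 0 ≤ h j x) → (∀ j, 0 ≤ k j) → (∀ j, MeasurableSet (S j)) →
  (∀ j, S j ⊆ Set.Icc X (X + W)) → (∀ j, j < n → ENNReal.ofReal (4 * W / 5) ≤ volume (S j)) →
  (∀ x ∈ Set.Icc X (X + W), ∃ G : ℕ → ℝ, (∀ j, 0 ≤ G j) ∧ (∑ j ∈ Finset.range n, G j ≤ A * n) ∧
    ∀ j, j < n → x ∈ S j → J j x ≤ G j + k j) →
  (∀ x ∈ Set.Icc X (X + W), ∑ j ∈ Finset.range n, h j x ≤ A * n) →
  ∃ m : ℕ → ℝ, (∀ j, 0 ≤ m j) ∧ (∑ j ∈ Finset.range n, m j ≤ (20 * A + 2) * n) ∧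
    ∀ j, j < n → ∀ g : ℝ, 0 < g → g ≤ W / 10 →
    ∃ x1 ∈ Set.Icc X (X + W), ∃ x2 ∈ Set.Icc X (X + W), x2 = x1 + g ∧ x1 ∈ S j ∧ x2 ∈ S j ∧
      J j x1 ≤ k j + m j ∧ J j x2 ≤ k j + m j ∧ h j x1 ≤ m j

/-- Logarithm of the ratio of the suprema of `|F x ·|` over a complex disc and a real interval. -/
noncomputable def jr (F : ℝ → ℂ → ℂ) (R e y0 x : ℝ) : ℝ :=
  Real.log (sSup ((fun w : ℂ => ‖F x w‖) '' Metric.closedBall (y0 : ℂ) R) /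
    sSup ((fun θ : ℝ => ‖F x (θ : ℂ)‖) '' Set.Icc (y0 - e) (y0 + e)))

/-- (NM-JR) Properties of the ratio. -/
def S_JR : Prop := ∀ (F : ℝ → ℂ → ℂ), Continuous (fun p : ℝ × ℂ => F p.1 p.2) →
  ∀ R e y0 : ℝ, 0 < e → e ≤ R → Measurable (jr F R e y0) ∧ (∀ x, 0 ≤ jr F R e y0 x) ∧
  ∀ x J : ℝ, 0 ≤ J → (∀ w : ℂ, ‖w - (y0 : ℂ)‖ ≤ R → ∃ θ : ℝ, |θ - y0| ≤ e ∧
      ‖F x w‖ ≤ Real.exp J * ‖F x (θ : ℂ)‖) →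
    jr F R e y0 x ≤ J ∧ ∀ w : ℂ, ‖w - (y0 : ℂ)‖ ≤ R → ∃ θ : ℝ, |θ - y0| ≤ e ∧
      ‖F x w‖ ≤ Real.exp (jr F R e y0 x) * ‖F x (θ : ℂ)‖

end Pool.Agent.R267.NM
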