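import Pool.Agent.R267.NM.Defs

set_option autoImplicit false
open Real MeasureTheory Set

/-!
# NM-ENERGY: energy of `log |u|` on a rectangle without zeros
-/
namespace Pool.Agent.R267.NM

namespace EnergyAux

/-- The sine factor. -/
noncomputable def sn (a b x : ℝ) : ℝ := Real.sin (π * (x - a) / (b - a))

/-- Its derivative. -/
noncomputable def sn' (a b x : ℝ) : ℝ := Real.cos (π * (x - a) / (b - a)) * (π / (b - a))

lemma sn_deriv (a b x : ℝ) : HasDerivAt (sn a b) (sn' a b x) x := by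
  have h1 : HasDerivAt (fun x => π * (x - a) / (b - a)) (π / (b - a)) x := by
    have h2 := (((hasDerivAt_id x).sub_const a).const_mul π).div_const (b - a)
    simpa using h2
  exact h1.sin

lemma sn_left (a b : ℝ) : sn a b a = 0 := by simp [sn]

lemma sn_right {a b : ℝ} (h : a < b) : sn a b b = 0 := by
  have : b - a ≠ 0 := (sub_pos.2 h).ne'
  unfold sn
  rw [mul_div_assoc, div_self this, mul_one, Real.sin_pi]

lemma sn_cont (a b : ℝ) : Continuous (sn a b) := by
  unfold sn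
  fun_prop

lemma sn'_cont (a b : ℝ) : Continuous (sn' a b) := by
  unfold sn'
  fun_prop

lemma int_sn {a b : ℝ} (h : a < b) : ∫ x in a..b, (sn a b x) ^ 2 = (b - a) / 2 := by
  have hw : b - a ≠ 0 := (sub_pos.2 h).ne'
  have hd : ∀ x ∈ uIcc a b, HasDerivAt
      (fun x => x / 2 - (b - a) / (2 * π) * (sn a b x * Real.cos (π * (x - a) / (b - a))))
      ((sn a b x) ^ 2) x := by
    intro x _
    have h0 : HasDerivAt (fun x => π * (x - a) / (b - a)) (π / (b - a)) x := by
      have h2 := (((hasDerivAt_id x).sub_const a).const_mul π).div_const (b - a)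
      simpa using h2
    have h1 := ((hasDerivAt_id x).div_const 2).sub
      (((sn_deriv a b x).mul h0.cos).const_mul ((b - a) / (2 * π)))
    refine h1.congr_deriv ?_
    have h3 := Real.sin_sq_add_cos_sq (π * (x - a) / (b - a))
    have hpi := Real.pi_ne_zero
    unfold sn'
    change 1 / 2 - (b - a) / (2 * π) *
      (Real.cos (π * (x - a) / (b - a)) * (π / (b - a)) * Real.cos (π * (x - a) / (b - a)) +
        sn a b x * (-Real.sin (π * (x - a) / (b - a)) * (π / (b - a)))) = sn a b x ^ 2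
    unfold sn
    generalize Real.cos (π * (x - a) / (b - a)) = c at h3 ⊢
    generalize Real.sin (π * (x - a) / (b - a)) = s at h3 ⊢
    have h4 : (b - a) / (2 * π) * (c * (π / (b - a)) * c + s * (-s * (π / (b - a)))) =
        (c ^ 2 - s ^ 2) / 2 := by
      field_simp
      ring
    rw [h4]
    linarith
  have hi : IntervalIntegrable (fun x => sn a b x ^ 2) volume a b :=
    ((sn_cont a b).pow 2).intervalIntegrable _ _
  rw [intervalIntegral.integral_eq_sub_of_hasDerivAt hd hi, sn_left, sn_right h]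
  ring

lemma int_sn' {a b : ℝ} (h : a < b) :
    ∫ x in a..b, (sn' a b x) ^ 2 = π ^ 2 / (2 * (b - a)) := by
  have hw : b - a ≠ 0 := (sub_pos.2 h).ne'
  have h1 : ∀ x, (sn' a b x) ^ 2 = (π / (b - a)) ^ 2 * (1 - (sn a b x) ^ 2) := by
    intro x
    have h3 := Real.sin_sq_add_cos_sq (π * (x - a) / (b - a))
    unfold sn' sn
    rw [mul_pow, ← h3]
    ring
  have hi : IntervalIntegrable (fun x => sn a b x ^ 2) volume a b :=
    ((sn_cont a b).pow 2).intervalIntegrable _ _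
  simp_rw [h1]
  rw [intervalIntegral.integral_const_mul,
    intervalIntegral.integral_sub intervalIntegrable_const hi, int_sn h,
    intervalIntegral.integral_const, smul_eq_mul, mul_one]
  field_simp
  ring

/-- The product measure on the rectangle. -/
noncomputable def pm (x1 x2 y1 y2 : ℝ) : Measure (ℝ × ℝ) :=
  (volume.restrict (Ioc x1 x2)).prod (volume.restrict (Ioc y1 y2))

lemma pm_eq (x1 x2 y1 y2 : ℝ) :
    pm x1 x2 y1 y2 = volume.restrict (Ioc x1 x2 ×ˢ Ioc y1 y2) := by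
  unfold pm
  rw [Measure.prod_restrict]
  rfl

lemma int_of_cont {x1 x2 y1 y2 : ℝ} {F : ℝ × ℝ → ℝ}
    (hF : ContinuousOn F (Icc x1 x2 ×ˢ Icc y1 y2)) : Integrable F (pm x1 x2 y1 y2) := by
  rw [pm_eq]
  exact (hF.integrableOn_compact (isCompact_Icc.prod isCompact_Icc)).mono_set
    (prod_mono Ioc_subset_Icc_self Ioc_subset_Icc_self)

lemma iter {x1 x2 y1 y2 : ℝ} (hx : x1 < x2) (hy : y1 < y2) {F : ℝ × ℝ → ℝ}
    (hF : Integrable F (pm x1 x2 y1 y2)) :
    ∫ p, F p ∂(pm x1 x2 y1 y2) = ∫ x in x1..x2, ∫ y in y1..y2, F (x, y) := by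
  unfold pm at hF ⊢
  rw [integral_prod _ hF, intervalIntegral.integral_of_le hx.le]
  simp_rw [intervalIntegral.integral_of_le hy.le]

lemma iter' {x1 x2 y1 y2 : ℝ} (hx : x1 < x2) (hy : y1 < y2) {F : ℝ × ℝ → ℝ}
    (hF : Integrable F (pm x1 x2 y1 y2)) :
    ∫ p, F p ∂(pm x1 x2 y1 y2) = ∫ y in y1..y2, ∫ x in x1..x2, F (x, y) := by
  unfold pm at hF ⊢
  rw [integral_prod_symm _ hF, intervalIntegral.integral_of_le hy.le]
  simp_rw [intervalIntegral.integral_of_le hx.le]

lemma path1 {V : ℝ × ℝ → ℝ} (hV : Differentiable ℝ V) (x y : ℝ) :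
    HasDerivAt (fun t => V (t, y)) (fderiv ℝ V (x, y) (1, 0)) x := by
  have h1 : HasDerivAt (fun t : ℝ => ((t, y) : ℝ × ℝ)) ((1, 0) : ℝ × ℝ) x :=
    (hasDerivAt_id x).prodMk (hasDerivAt_const x y)
  exact (hV (x, y)).hasFDerivAt.comp_hasDerivAt x h1

lemma path2 {V : ℝ × ℝ → ℝ} (hV : Differentiable ℝ V) (x y : ℝ) :
    HasDerivAt (fun t => V (x, t)) (fderiv ℝ V (x, y) (0, 1)) y := by
  have h1 : HasDerivAt (fun t : ℝ => ((x, t) : ℝ × ℝ)) ((0, 1) : ℝ × ℝ) y :=
    (hasDerivAt_const y x).prodMk (hasDerivAt_id y)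
  exact (hV (x, y)).hasFDerivAt.comp_hasDerivAt y h1

lemma dir_contDiff {V : ℝ × ℝ → ℝ} {n : ℕ} (hV : ContDiff ℝ (n + 1 : ℕ) V) (v : ℝ × ℝ) :
    ContDiff ℝ n (fun p => fderiv ℝ V p v) :=
  (hV.fderiv_right (m := n) (by norm_cast)).clm_apply contDiff_const

/-- The divergence in one direction. -/
noncomputable def dv (c c' u v v' : ℝ) : ℝ :=
  2 * c * c' * (v / u) + c ^ 2 * ((v' * u - v * v) / u ^ 2)

lemma dv_deriv {s U V : ℝ → ℝ} {s' V' : ℝ} {k x : ℝ} (hs : HasDerivAt s s' x)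
    (hU : HasDerivAt U (V x) x) (hV : HasDerivAt V V' x) (h0 : U x ≠ 0) :
    HasDerivAt (fun t => (s t * k) ^ 2 * (V t / U t)) (dv (s x * k) (s' * k) (U x) (V x) V') x := by
  have h1 := ((hs.mul_const k).pow 2).mul (hV.div hU h0)
  refine h1.congr_deriv ?_
  unfold dv
  simp only [Pi.pow_apply, Pi.div_apply, Nat.cast_ofNat, Nat.add_one_sub_one, pow_one]

lemma alg {c a b u v1 v2 v11 v22 q : ℝ} (hu : u ≠ 0) (hq : 0 ≤ q)
    (he : v11 + v22 + q * u = 0) :
    c ^ 2 * (v2 / u) ^ 2 ≤ 4 * (a ^ 2 + b ^ 2) - 2 * dv c a u v1 v11 - 2 * dv c b u v2 v22 := by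
  have h1 : (v11 * u - v1 * v1) / u ^ 2 = v11 / u - (v1 / u) ^ 2 := by
    field_simp
  have h2 : (v22 * u - v2 * v2) / u ^ 2 = v22 / u - (v2 / u) ^ 2 := by
    field_simp
  have h3 : v11 / u + v22 / u = -q := by
    rw [← add_div, div_eq_iff hu]
    linarith
  unfold dv
  rw [h1, h2]
  generalize v1 / u = P
  generalize v2 / u = R
  generalize v11 / u = X at h3 ⊢
  generalize v22 / u = Y at h3 ⊢
  have h4 : Y = -q - X := by linarith
  subst h4
  nlinarith [sq_nonneg (2 * b - c * R), sq_nonneg (a - c * P), sq_nonneg a,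
    mul_nonneg (sq_nonneg c) hq]

end EnergyAux

open EnergyAux in
theorem s_ENERGY : S_ENERGY := by
  intro u q x1 x2 y1 y2 hx hy hC hq hpde hne
  set U : ℝ × ℝ → ℝ := fun p => u p.1 p.2 with hU
  set V1 : ℝ × ℝ → ℝ := fun p => fderiv ℝ U p (1, 0) with hV1
  set V2 : ℝ × ℝ → ℝ := fun p => fderiv ℝ U p (0, 1) with hV2
  set V11 : ℝ × ℝ → ℝ := fun p => fderiv ℝ V1 p (1, 0) with hV11
  set V22 : ℝ × ℝ → ℝ := fun p => fderiv ℝ V2 p (0, 1) with hV22
  have hC2 : ContDiff ℝ ((1 + 1 : ℕ) : ℕ∞) U := by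
    simpa using hC
  have cV1 : ContDiff ℝ (1 : ℕ) V1 := dir_contDiff (n := 1) (by exact_mod_cast hC2) _
  have cV2 : ContDiff ℝ (1 : ℕ) V2 := dir_contDiff (n := 1) (by exact_mod_cast hC2) _
  have cV11 : ContDiff ℝ (0 : ℕ) V11 := dir_contDiff (n := 0) (by exact_mod_cast cV1) _
  have cV22 : ContDiff ℝ (0 : ℕ) V22 := dir_contDiff (n := 0) (by exact_mod_cast cV2) _
  have dU : Differentiable ℝ U := hC.differentiable (by norm_num)
  have dV1 : Differentiable ℝ V1 := cV1.differentiable (by norm_num)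
  have dV2 : Differentiable ℝ V2 := cV2.differentiable (by norm_num)
  have kU := dU.continuous
  have kV1 := dV1.continuous
  have kV2 := dV2.continuous
  have kV11 := cV11.continuous
  have kV22 := cV22.continuous
  have e1 : ∀ y, deriv (fun t => u t y) = fun x => V1 (x, y) := by
    intro y
    funext x
    exact (path1 dU x y).deriv
  have e2 : ∀ x, deriv (fun t => u x t) = fun y => V2 (x, y) := by
    intro x
    funext y
    exact (path2 dU x y).deriv
  have e11 : ∀ x y, deriv (deriv (fun t => u t y)) x = V11 (x, y) := by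
    intro x y
    rw [e1]
    exact (path1 dV1 x y).deriv
  have e22 : ∀ x y, deriv (deriv (fun t => u x t)) y = V22 (x, y) := by
    intro x y
    rw [e2]
    exact (path2 dV2 x y).deriv
  -- the functions on the rectangle
  let c : ℝ × ℝ → ℝ := fun p => sn x1 x2 p.1 * sn y1 y2 p.2
  let ca : ℝ × ℝ → ℝ := fun p => sn' x1 x2 p.1 * sn y1 y2 p.2
  let cb : ℝ × ℝ → ℝ := fun p => sn' y1 y2 p.2 * sn x1 x2 p.1
  have kc : Continuous c := ((sn_cont _ _).comp continuous_fst).mul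
    ((sn_cont _ _).comp continuous_snd)
  have kca : Continuous ca := ((sn'_cont _ _).comp continuous_fst).mul
    ((sn_cont _ _).comp continuous_snd)
  have kcb : Continuous cb := ((sn'_cont _ _).comp continuous_snd).mul
    ((sn_cont _ _).comp continuous_fst)
  have hne' : ∀ p ∈ Icc x1 x2 ×ˢ Icc y1 y2, U p ≠ 0 := fun p hp => hne _ hp.1 _ hp.2
  have kdiv : ∀ V : ℝ × ℝ → ℝ, Continuous V →
      ContinuousOn (fun p => V p / U p) (Icc x1 x2 ×ˢ Icc y1 y2) :=
    fun V hV => hV.continuousOn.div kU.continuousOn hne'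
  have kdv : ∀ (c' V V' : ℝ × ℝ → ℝ), Continuous c' → Continuous V → Continuous V' →
      ContinuousOn (fun p => dv (c p) (c' p) (U p) (V p) (V' p)) (Icc x1 x2 ×ˢ Icc y1 y2) := by
    intro c' V V' h1 h2 h3
    unfold dv
    refine ContinuousOn.add ?_ ?_
    · exact ((continuousOn_const.mul kc.continuousOn).mul h1.continuousOn).mul (kdiv V h2)
    · refine (kc.pow 2).continuousOn.mul ?_
      refine ContinuousOn.div ((h3.mul kU).sub (h2.mul h2)).continuousOn
        (kU.pow 2).continuousOn ?_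
      intro p hp
      exact pow_ne_zero 2 (hne' p hp)
  have iA : Integrable (fun p => dv (c p) (ca p) (U p) (V1 p) (V11 p)) (pm x1 x2 y1 y2) :=
    int_of_cont (kdv _ _ _ kca kV1 kV11)
  have iB : Integrable (fun p => dv (c p) (cb p) (U p) (V2 p) (V22 p)) (pm x1 x2 y1 y2) :=
    int_of_cont (kdv _ _ _ kcb kV2 kV22)
  have iD1 : Integrable (fun p => ca p ^ 2) (pm x1 x2 y1 y2) :=
    int_of_cont (kca.pow 2).continuousOn
  have iD2 : Integrable (fun p => cb p ^ 2) (pm x1 x2 y1 y2) :=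
    int_of_cont (kcb.pow 2).continuousOn
  have iG : Integrable (fun p => c p ^ 2 * (V2 p / U p) ^ 2) (pm x1 x2 y1 y2) :=
    int_of_cont ((kc.pow 2).continuousOn.mul ((kdiv V2 kV2).pow 2))
  -- the divergence terms vanish
  have zA : ∫ p, dv (c p) (ca p) (U p) (V1 p) (V11 p) ∂(pm x1 x2 y1 y2) = 0 := by
    rw [iter' hx hy iA]
    have hz : ∀ y ∈ uIcc y1 y2,
        ∫ x in x1..x2, dv (c (x, y)) (ca (x, y)) (U (x, y)) (V1 (x, y)) (V11 (x, y)) = 0 := by
      intro y hyy
      rw [uIcc_of_le hy.le] at hyy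
      have hd : ∀ x ∈ uIcc x1 x2, HasDerivAt
          (fun t => (sn x1 x2 t * sn y1 y2 y) ^ 2 * (V1 (t, y) / U (t, y)))
          (dv (c (x, y)) (ca (x, y)) (U (x, y)) (V1 (x, y)) (V11 (x, y))) x := by
        intro x hxx
        rw [uIcc_of_le hx.le] at hxx
        exact dv_deriv (U := fun t => U (t, y)) (V := fun t => V1 (t, y)) (sn_deriv x1 x2 x)
          (path1 dU x y) (path1 dV1 x y) (hne' (x, y) ⟨hxx, hyy⟩)
      have hi : IntervalIntegrable
          (fun x => dv (c (x, y)) (ca (x, y)) (U (x, y)) (V1 (x, y)) (V11 (x, y)))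
          volume x1 x2 := by
        apply ContinuousOn.intervalIntegrable
        rw [uIcc_of_le hx.le]
        exact (kdv _ _ _ kca kV1 kV11).comp (by fun_prop : Continuous fun x : ℝ => ((x, y) :
          ℝ × ℝ)).continuousOn (fun x hxx => ⟨hxx, hyy⟩)
      rw [intervalIntegral.integral_eq_sub_of_hasDerivAt hd hi, sn_left, sn_right hx]
      simp
    rw [intervalIntegral.integral_congr hz]
    simp
  have zB : ∫ p, dv (c p) (cb p) (U p) (V2 p) (V22 p) ∂(pm x1 x2 y1 y2) = 0 := by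
    rw [iter hx hy iB]
    have hz : ∀ x ∈ uIcc x1 x2,
        ∫ y in y1..y2, dv (c (x, y)) (cb (x, y)) (U (x, y)) (V2 (x, y)) (V22 (x, y)) = 0 := by
      intro x hxx
      rw [uIcc_of_le hx.le] at hxx
      have hd : ∀ y ∈ uIcc y1 y2, HasDerivAt
          (fun t => (sn y1 y2 t * sn x1 x2 x) ^ 2 * (V2 (x, t) / U (x, t)))
          (dv (c (x, y)) (cb (x, y)) (U (x, y)) (V2 (x, y)) (V22 (x, y))) y := by
        intro y hyy
        rw [uIcc_of_le hy.le] at hyy
        have h1 := dv_deriv (U := fun t => U (x, t)) (V := fun t => V2 (x, t))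
          (k := sn x1 x2 x) (sn_deriv y1 y2 y)
          (path2 dU x y) (path2 dV2 x y) (hne' (x, y) ⟨hxx, hyy⟩)
        have h2 : c (x, y) = sn y1 y2 y * sn x1 x2 x := mul_comm _ _
        rw [h2]
        exact h1
      have hi : IntervalIntegrable
          (fun y => dv (c (x, y)) (cb (x, y)) (U (x, y)) (V2 (x, y)) (V22 (x, y)))
          volume y1 y2 := by
        apply ContinuousOn.intervalIntegrable
        rw [uIcc_of_le hy.le]
        exact (kdv _ _ _ kcb kV2 kV22).comp (by fun_prop : Continuous fun y : ℝ => ((x, y) :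
          ℝ × ℝ)).continuousOn (fun y hyy => ⟨hxx, hyy⟩)
      rw [intervalIntegral.integral_eq_sub_of_hasDerivAt hd hi, sn_left, sn_right hy]
      simp
    rw [intervalIntegral.integral_congr hz]
    simp
  -- the energy of the cutoff
  have vD1 : ∫ p, ca p ^ 2 ∂(pm x1 x2 y1 y2) = π ^ 2 / (2 * (x2 - x1)) * ((y2 - y1) / 2) := by
    rw [iter hx hy iD1]
    have h1 : ∀ x y, ca (x, y) ^ 2 = sn' x1 x2 x ^ 2 * sn y1 y2 y ^ 2 := fun x y => mul_pow _ _ _
    simp_rw [h1, intervalIntegral.integral_const_mul, intervalIntegral.integral_mul_const]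
    rw [int_sn hy, int_sn' hx]
  have vD2 : ∫ p, cb p ^ 2 ∂(pm x1 x2 y1 y2) = π ^ 2 / (2 * (y2 - y1)) * ((x2 - x1) / 2) := by
    rw [iter' hx hy iD2]
    have h1 : ∀ x y, cb (x, y) ^ 2 = sn' y1 y2 y ^ 2 * sn x1 x2 x ^ 2 := fun x y => mul_pow _ _ _
    simp_rw [h1, intervalIntegral.integral_const_mul, intervalIntegral.integral_mul_const]
    rw [int_sn hx, int_sn' hy]
  -- the conclusion
  have iD12 : Integrable (fun p => ca p ^ 2 + cb p ^ 2) (pm x1 x2 y1 y2) := iD1.add iD2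
  have iD : Integrable (fun p => 4 * (ca p ^ 2 + cb p ^ 2)) (pm x1 x2 y1 y2) :=
    iD12.const_mul 4
  have iA2 : Integrable (fun p => 2 * dv (c p) (ca p) (U p) (V1 p) (V11 p)) (pm x1 x2 y1 y2) :=
    iA.const_mul 2
  have iB2 : Integrable (fun p => 2 * dv (c p) (cb p) (U p) (V2 p) (V22 p)) (pm x1 x2 y1 y2) :=
    iB.const_mul 2
  have iE : Integrable (fun p => 4 * (ca p ^ 2 + cb p ^ 2) -
      2 * dv (c p) (ca p) (U p) (V1 p) (V11 p)) (pm x1 x2 y1 y2) := iD.sub iA2
  have hmain : ∫ p, c p ^ 2 * (V2 p / U p) ^ 2 ∂(pm x1 x2 y1 y2) ≤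
      ∫ p, ((4 * (ca p ^ 2 + cb p ^ 2) - 2 * dv (c p) (ca p) (U p) (V1 p) (V11 p)) -
        2 * dv (c p) (cb p) (U p) (V2 p) (V22 p)) ∂(pm x1 x2 y1 y2) := by
    refine integral_mono_ae iG (iE.sub iB2) ?_
    rw [pm_eq]
    filter_upwards [ae_restrict_mem (measurableSet_Ioc.prod measurableSet_Ioc)] with p hp
    have hp' : p ∈ Icc x1 x2 ×ˢ Icc y1 y2 :=
      ⟨Ioc_subset_Icc_self hp.1, Ioc_subset_Icc_self hp.2⟩
    refine alg (hne' p hp') (hq p.1 p.2) ?_
    have h1 := hpde p.1 p.2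
    rw [e11, e22] at h1
    exact h1
  rw [integral_sub iE iB2, integral_sub iD iA2, integral_const_mul,
    integral_const_mul, integral_const_mul, zA, zB, integral_add iD1 iD2, vD1, vD2,
    iter hx hy iG] at hmain
  have hw : x2 - x1 ≠ 0 := (sub_pos.2 hx).ne'
  have hh : y2 - y1 ≠ 0 := (sub_pos.2 hy).ne'
  have hfin : 4 * (π ^ 2 / (2 * (x2 - x1)) * ((y2 - y1) / 2) +
      π ^ 2 / (2 * (y2 - y1)) * ((x2 - x1) / 2)) - 2 * 0 - 2 * 0 =
      π ^ 2 * ((y2 - y1) / (x2 - x1) + (x2 - x1) / (y2 - y1)) := by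
    field_simp
    ring
  rw [hfin] at hmain
  refine le_trans (le_of_eq ?_) hmain
  refine intervalIntegral.integral_congr fun x _ => ?_
  refine intervalIntegral.integral_congr fun y _ => ?_
  simp only [e2]
  rfl

end Pool.Agent.R267.NM
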