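import Pool.Agent.R267.NM.Defs
import Pool.Agent.R267.DI.Hwk
import Pool.Agent.R267.DI.WeakAsm
import Pool.Agent.R267.DI.Grid

/-!
# NM-SLICE: doubling on a slice from the typical logarithmic derivative (helper316)
-/

set_option autoImplicit false
open Complex Real MeasureTheory

namespace Pool.Agent.R267.NM

open Pool.Agent.R267.DI

namespace SliceAux

open TrigAux WeakAux

/-- roots, with the logarithmic derivative -/
lemma exists_roots' (P : Polynomial ℂ) : ∃ (D : ℕ) (z : Fin D → ℂ), D ≤ P.natDegree ∧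
    (∀ w, ‖P.eval w‖ = ‖P.leadingCoeff‖ * ∏ k, ‖w - z k‖) ∧
    ∀ w, P.eval w ≠ 0 → P.derivative.eval w / P.eval w = ∑ k, 1 / (w - z k) := by
  set L := P.roots.toList with hL
  have h3 : P.roots = (L : Multiset ℂ) := (Multiset.coe_toList _).symm
  refine ⟨L.length, fun k => L.get k, ?_, fun w => ?_, fun w hw => ?_⟩
  · rw [hL, Multiset.length_toList]; exact P.card_roots'
  · have h1 : P = Polynomial.C P.leadingCoeff *
        (P.roots.map (fun a => Polynomial.X - Polynomial.C a)).prod :=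
      (IsAlgClosed.splits P).eq_prod_roots
    have h2 : P.eval w = P.leadingCoeff * (P.roots.map (fun a => w - a)).prod := by
      conv_lhs => rw [h1]
      rw [Polynomial.eval_mul, Polynomial.eval_C, Polynomial.eval_multiset_prod,
        Multiset.map_map]
      congr 3
      ext a
      simp
    rw [h2, norm_mul, h3, Multiset.map_coe, Multiset.prod_coe]
    congr 1
    have h4 := Fin.prod_univ_fun_getElem L (fun a => w - a)
    rw [← h4, norm_prod]
    rfl
  · rw [(IsAlgClosed.splits P).eval_derivative_div_eval_of_ne_zero hw, h3, Multiset.map_coe,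
      Multiset.sum_coe]
    have h4 := Fin.sum_univ_fun_getElem L (fun a => 1 / (w - a))
    rw [← h4]
    rfl

/-- the logarithmic derivative of the exponential sum on the real line -/
lemma log_der {b : ℝ} (M : ℕ) (c : ℤ → ℂ) {D : ℕ} (z : Fin D → ℂ)
    (hz : ∀ w, (tpoly M c).eval w ≠ 0 →
      (tpoly M c).derivative.eval w / (tpoly M c).eval w = ∑ k, 1 / (w - z k)) (y : ℝ)
    (hy : (tpoly M c).eval (pt (2 * π / b * y)) ≠ 0) :
    (deriv (fun t : ℝ => esum (2 * π / b) M c (t : ℂ)) y / esum (2 * π / b) M c (y : ℂ)).re =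
      -(2 * π / b * (∑ k, pt (2 * π / b * y) / (pt (2 * π / b * y) - z k)).im) := by
  set κ : ℝ := 2 * π / b with hκ
  set P := tpoly M c with hP
  have hfun : ∀ w : ℂ, esum κ M c w = Complex.exp (-(Complex.I * (M : ℂ) * ((κ : ℂ) * w))) *
      P.eval (Complex.exp (Complex.I * ((κ : ℂ) * w))) := by
    intro w
    rw [esum_scale, esum_eq]
  have hptw : Complex.exp (Complex.I * ((κ : ℂ) * (y : ℂ))) = pt (κ * y) := by
    unfold pt; push_cast; rfl
  have hder : HasDerivAt (fun w : ℂ => esum κ M c w)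
      ((Complex.exp (-(Complex.I * (M : ℂ) * ((κ : ℂ) * (y : ℂ)))) *
        (-(Complex.I * (M : ℂ) * (κ : ℂ)))) * P.eval (pt (κ * y)) +
      Complex.exp (-(Complex.I * (M : ℂ) * ((κ : ℂ) * (y : ℂ)))) *
        (P.derivative.eval (pt (κ * y)) * (pt (κ * y) * (Complex.I * (κ : ℂ))))) (y : ℂ) := by
    have e1 : HasDerivAt (fun w : ℂ => -(Complex.I * (M : ℂ) * ((κ : ℂ) * w)))
        (-(Complex.I * (M : ℂ) * (κ : ℂ))) (y : ℂ) := by
      have := ((hasDerivAt_id (y : ℂ)).const_mul (κ : ℂ)).const_mul (Complex.I * (M : ℂ))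
      simpa using this.fun_neg
    have e2 : HasDerivAt (fun w : ℂ => Complex.I * ((κ : ℂ) * w)) (Complex.I * (κ : ℂ)) (y : ℂ) := by
      have := ((hasDerivAt_id (y : ℂ)).const_mul (κ : ℂ)).const_mul Complex.I
      simpa using this
    have e3 := e2.cexp
    rw [hptw] at e3
    have e4 : HasDerivAt (fun w : ℂ => P.eval (Complex.exp (Complex.I * ((κ : ℂ) * w))))
        (P.derivative.eval (pt (κ * y)) * (pt (κ * y) * (Complex.I * (κ : ℂ)))) (y : ℂ) := by
      have hp := P.hasDerivAt (Complex.exp (Complex.I * ((κ : ℂ) * (y : ℂ))))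
      rw [hptw] at hp
      have hp2 : HasDerivAt (fun x => P.eval x) (P.derivative.eval (pt (κ * y)))
        (Complex.exp (Complex.I * ((κ : ℂ) * (y : ℂ)))) := by rw [hptw]; exact hp
      exact hp2.comp (y : ℂ) e3
    have e5 := e1.cexp.mul e4
    rw [hptw] at e5
    have e6 : (fun w : ℂ => esum κ M c w) = (fun w : ℂ => Complex.exp (-(Complex.I * (M : ℂ) * ((κ : ℂ) * w)))) *
      (fun w : ℂ => P.eval (Complex.exp (Complex.I * ((κ : ℂ) * w)))) := by
      funext w; exact hfun w
    rw [e6]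
    exact e5
  have hder2 := hder.comp_ofReal
  rw [hder2.deriv, hfun, hptw]
  set E := Complex.exp (-(Complex.I * (M : ℂ) * ((κ : ℂ) * (y : ℂ)))) with hE
  have hE0 : E ≠ 0 := Complex.exp_ne_zero _
  set ζ := pt (κ * y) with hζ
  have hq : (E * (-(Complex.I * (M : ℂ) * (κ : ℂ))) * P.eval ζ +
      E * (P.derivative.eval ζ * (ζ * (Complex.I * (κ : ℂ))))) / (E * P.eval ζ) =
      -(Complex.I * (M : ℂ) * (κ : ℂ)) + Complex.I * (κ : ℂ) * (ζ * (P.derivative.eval ζ / P.eval ζ)) := by
    field_simp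
  rw [hq, hz ζ hy, Finset.mul_sum]
  have hsum : ∑ k, ζ * (1 / (ζ - z k)) = ∑ k, ζ / (ζ - z k) := by
    apply Finset.sum_congr rfl
    intro k _
    rw [mul_one_div]
  rw [hsum]
  simp [Complex.add_re, Complex.mul_re, Complex.mul_im]

/-- the measure hypothesis bounds the far field -/
lemma far_le (h3 : S_BOOLE) {b : ℝ} (hb : 0 < b) (M : ℕ) (c : ℤ → ℂ) (hP0 : tpoly M c ≠ 0)
    {D : ℕ} (z : Fin D → ℂ)
    (hz : ∀ w, (tpoly M c).eval w ≠ 0 →
      (tpoly M c).derivative.eval w / (tpoly M c).eval w = ∑ k, 1 / (w - z k))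
    {B h T W e c5 y0 : ℝ} (hB : 0 < B) (hh : 0 < h) (he : 0 < e)
    (hhη : h ≤ 2 * π / b * e) (hT : 0 ≤ T) (hW : 0 < W)
    (hW1 : 2 * π / b * W ≤ h) (hW2 : 2 * π / b * W ≤ B * h / 2) (hc5 : h * D ≤ c5) (hy0 : 0 ≤ y0)
    (hy1 : 2 * π / b * y0 + 2 * π / b * W ≤ 2 * π)
    (hvol : volume {y : ℝ | y ∈ Set.Ioc y0 (y0 + W) ∧
      T / e < |(deriv (fun t : ℝ => esum (2 * π / b) M c (t : ℂ)) y
        / esum (2 * π / b) M c (y : ℂ)).re|} ≤ ENNReal.ofReal (W / 2)) :
    h * qH z B h (2 * π / b * y0) ≤ T + 8 * π * (h / (2 * π / b * W)) * qN z B h (2 * π / b * y0)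
      + 2 * qQ z B h (2 * π / b * y0) + 2 * c5 / B := by
  by_contra hcon
  push Not at hcon
  have hld := log_der (b := b) M c z hz
  have hκ : 0 < 2 * π / b := by positivity
  set κ := 2 * π / b with hκdef
  have hcore := Hwk.core h3 z B h (κ * W) c5 (κ * y0) T hB hh (by positivity) hW1 hW2 hc5
    (by positivity) hy1 hcon
  set Z : Set ℝ := {θ : ℝ | (tpoly M c).eval (pt θ) = 0} with hZdef
  have hZ : volume Z = 0 := by
    apply Set.Countable.measure_zero
    have hsub : Z ⊆ ⋃ a ∈ (tpoly M c).roots.toFinset, {θ : ℝ | Complex.exp (Complex.I * (θ : ℂ)) = a} := by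
      intro θ hθ
      rw [Set.mem_iUnion₂]
      refine ⟨pt θ, ?_, rfl⟩
      rw [Multiset.mem_toFinset, Polynomial.mem_roots hP0]
      exact hθ
    refine Set.Countable.mono hsub ?_
    apply Set.Countable.biUnion (Finset.countable_toSet _)
    intro a _
    exact countable_pre a
  set Sθ : Set ℝ := Set.Ioc (κ * y0) (κ * y0 + κ * W) ∩
    {θ : ℝ | T / h < |(∑ k, pt θ / (pt θ - z k)).im|} with hSθ
  have hpre : (fun y : ℝ => κ * y) ⁻¹' (Sθ \ Z) ⊆ {y : ℝ | y ∈ Set.Ioc y0 (y0 + W) ∧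
      T / e < |(deriv (fun t : ℝ => esum κ M c (t : ℂ)) y / esum κ M c (y : ℂ)).re|} := by
    intro y hy
    obtain ⟨⟨⟨hy1, hy2⟩, hy3⟩, hyZ⟩ := hy
    refine ⟨⟨lt_of_mul_lt_mul_left hy1 hκ.le, ?_⟩, ?_⟩
    · rw [← mul_add] at hy2
      exact le_of_mul_le_mul_left hy2 hκ
    · rw [hld y hyZ, abs_neg, abs_mul, abs_of_pos hκ]
      have h5 : T / e = κ * (T / (κ * e)) := by field_simp
      rw [h5]
      apply mul_lt_mul_of_pos_left _ hκ
      refine lt_of_le_of_lt ?_ hy3
      exact div_le_div_of_nonneg_left hT hh hhη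
  have hv : volume ((fun y : ℝ => κ * y) ⁻¹' (Sθ \ Z)) = ENNReal.ofReal |κ⁻¹| * volume (Sθ \ Z) :=
    Real.volume_preimage_mul_left hκ.ne' _
  have hd : volume (Sθ \ Z) = volume Sθ := measure_sdiff_null hZ
  have hfin : ENNReal.ofReal (3 * W / 4) ≤ ENNReal.ofReal (W / 2) := by
    calc ENNReal.ofReal (3 * W / 4) = ENNReal.ofReal |κ⁻¹| * ENNReal.ofReal (3 * (κ * W) / 4) := by
          rw [← ENNReal.ofReal_mul (abs_nonneg _), abs_of_pos (inv_pos.2 hκ)]
          congr 1
          field_simp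
      _ ≤ ENNReal.ofReal |κ⁻¹| * volume Sθ := by gcongr
      _ = volume ((fun y : ℝ => κ * y) ⁻¹' (Sθ \ Z)) := by rw [hv, hd]
      _ ≤ _ := measure_mono hpre
      _ ≤ ENNReal.ofReal (W / 2) := hvol
  rw [ENNReal.ofReal_le_ofReal_iff (by positivity)] at hfin
  linarith

end SliceAux

open TrigAux WeakAux SliceAux

/-- NM-SLICE -/
theorem s_SLICE (h1 : S_LOC1) (h2 : S_SUMS) (h3 : S_BOOLE) : S_SLICE := by
  intro b c0 c1 c2 hb hc0 hc1 hc2
  obtain ⟨B, C, hB, hC, hloc⟩ := h1 (c1 * (1 + c0)) (by positivity)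
  have hκ : 0 < 2 * π / b := by positivity
  obtain ⟨AS, hAS, hsum⟩ := h2 B (2 * π / (1 + c0)) (2 * π / b * c2) hB (by positivity) (by positivity)
  set τ0 : ℝ := min (1 / (1 + c0)) (min (B / (2 * (1 + c0))) (b / c2)) with hτ0
  have hτ0p : 0 < τ0 := lt_min (by positivity) (lt_min (by positivity) (by positivity))
  have hτa : τ0 ≤ 1 / (1 + c0) := min_le_left _ _
  have hτb : τ0 ≤ B / (2 * (1 + c0)) := (min_le_right _ _).trans (min_le_left _ _)
  have hτc : τ0 ≤ b / c2 := (min_le_right _ _).trans (min_le_right _ _)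
  refine ⟨τ0, hτ0p, ?_⟩
  intro τ1 hτ1
  set K : ℝ := C * (8 * π / τ1 + 3) with hK
  have hKp : 0 < K := by positivity
  set K0 : ℝ := c0 * c1 + C * (1 + 2 * (2 * c0) / B + 2 * c0) with hK0
  have hK0p : 0 < K0 := by positivity
  have hCK0 : C ≤ K0 := by
    rw [hK0]
    have : 0 ≤ c0 * c1 + C * (2 * (2 * c0) / B + 2 * c0) := by positivity
    linarith
  refine ⟨K * AS * c0 + K0, by positivity, ?_⟩
  intro M n e hn he hηc hMη hbn hnc c hc
  set κ : ℝ := 2 * π / b with hκdef
  set η : ℝ := κ * e with hηdef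
  have hη : 0 < η := by positivity
  have hnR : (1 : ℝ) ≤ n := by exact_mod_cast hn
  have hnpos : (0 : ℝ) < n := by linarith
  have hnη : 2 * π ≤ n * η := by
    have e1 : (n : ℝ) * η = κ * (n * e) := by rw [hηdef]; ring
    have e2 : 2 * π = κ * b := by rw [hκdef]; field_simp
    rw [e1, e2]
    exact mul_le_mul_of_nonneg_left hbn hκ.le
  have hnη2 : n * η ≤ κ * c2 := by
    have e1 : (n : ℝ) * η = κ * (n * e) := by rw [hηdef]; ring
    rw [e1]
    exact mul_le_mul_of_nonneg_left hnc hκ.le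
  set h : ℝ := η / (1 + c0) with hh
  have hhpos : 0 < h := by positivity
  have hhη : h ≤ η := by
    rw [hh]; exact div_le_self hη.le (by linarith)
  have hh1 : h ≤ 1 := by
    rw [hh, div_le_iff₀ (by positivity)]; linarith
  have hnh1 : 2 * π / (1 + c0) ≤ n * h := by
    rw [hh, ← mul_div_assoc]; gcongr
  have hnh2 : n * h ≤ κ * c2 := (mul_le_mul_of_nonneg_left hhη hnpos.le).trans hnη2
  obtain ⟨D, z, hD, hz, hzl⟩ := exists_roots' (tpoly M c)
  have hP0 : tpoly M c ≠ 0 := tpoly_ne M c hc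
  have hDM : (D : ℝ) ≤ 2 * M := by
    have := hD.trans (tpoly_deg M c)
    exact_mod_cast this
  have hD0 : (0 : ℝ) ≤ D := Nat.cast_nonneg _
  have hhD : h * D ≤ 2 * c0 := by
    calc h * D ≤ η * (2 * M) := mul_le_mul hhη hDM hD0 hη.le
      _ = 2 * (M * η) := by ring
      _ ≤ 2 * c0 := by linarith
  have hDn : (D : ℝ) ≤ c0 * n := by
    have e1 : (2 * M : ℝ) * η ≤ 2 * c0 := by linarith
    have e2 : (2 : ℝ) * c0 ≤ c0 * (n * η) := by
      have : (2 : ℝ) ≤ n * η := by
        have := Real.pi_gt_three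
        linarith
      have e4 := mul_le_mul_of_nonneg_left this hc0.le
      linarith
    have e3 : (2 * M : ℝ) * η ≤ (c0 * n) * η := by linarith
    exact hDM.trans (le_of_mul_le_mul_right e3 hη)
  set ang : ℕ → ℝ := fun j => 2 * π * j / n with hang
  set F : ℕ → ℝ := fun j => qN z B h (ang j) + qQ z B h (ang j) + qW z B h (ang j) with hF
  have hF0 : ∀ j, 0 ≤ F j := fun j =>
    add_nonneg (add_nonneg (qN_nonneg z _) (qQ_nonneg z _)) (qW_nonneg z hhpos _)
  have hH0 : ∀ j, 0 ≤ h * qH z B h (ang j) := fun j => mul_nonneg hhpos.le (qH_nonneg z _)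
  set J : ℕ → ℝ := fun j => c0 * c1 + C * (1 + F j + h * qH z B h (ang j) + h * D) with hJ
  have hgood : Good M n η c1 c J := by
    refine ⟨?_, ?_⟩
    · intro j
      have hhD0 : 0 ≤ h * D := by positivity
      have := hF0 j
      have := hH0 j
      simp only [hJ]; positivity
    · intro j _ w hw
      have hw' : ‖w - ((ang j : ℝ) : ℂ)‖ ≤ c1 * (1 + c0) * h := by
        have e : c1 * (1 + c0) * h = c1 * η := by rw [hh]; field_simp
        rw [e]; exact hw
      obtain ⟨θ, hθ, hprod⟩ := hloc D z h (ang j) hhpos hh1 w hw'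
      refine ⟨θ, hθ.trans hhη, ?_⟩
      have e0 : ‖esum 1 M c (θ : ℂ)‖ = ‖(tpoly M c).leadingCoeff‖ * ∏ k, ‖pt θ - z k‖ := by
        rw [esum_eq, norm_mul, hz, Complex.norm_exp]
        have e1 : (-(Complex.I * (M : ℂ) * (θ : ℂ))).re = 0 := by
          simp [Complex.mul_re, Complex.mul_im]
        rw [e1, Real.exp_zero, one_mul]
        rfl
      have hU : ‖esum 1 M c w‖ ≤ Real.exp (c0 * c1) *
          (‖(tpoly M c).leadingCoeff‖ * ∏ k, ‖Complex.exp (Complex.I * w) - z k‖) := by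
        rw [esum_eq, norm_mul, hz]
        apply mul_le_mul_of_nonneg_right _ (by positivity)
        rw [Complex.norm_exp]
        apply Real.exp_le_exp.mpr
        have e1 : (-(Complex.I * (M : ℂ) * w)).re = M * w.im := by
          simp [Complex.mul_re, Complex.mul_im]
        rw [e1]
        have e2 : w.im = (w - ((2 * π * j / n : ℝ) : ℂ)).im := by
          rw [Complex.sub_im, Complex.ofReal_im, sub_zero]
        have e3 : w.im ≤ c1 * η := by
          rw [e2]
          exact (le_abs_self _).trans ((Complex.abs_im_le_norm _).trans hw)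
        have e4 := mul_le_mul_of_nonneg_left e3 (Nat.cast_nonneg (α := ℝ) M)
        have e5 := mul_le_mul_of_nonneg_left hMη hc1.le
        have e6 : (M : ℝ) * (c1 * η) = c1 * (M * η) := by ring
        have e7 : c1 * c0 = c0 * c1 := mul_comm _ _
        linarith
      rw [e0]
      calc ‖esum 1 M c w‖ ≤ _ := hU
        _ ≤ Real.exp (c0 * c1) * (‖(tpoly M c).leadingCoeff‖ *
            (Real.exp (C * (1 + qN z B h (ang j) + qQ z B h (ang j) + qW z B h (ang j) +
              h * qH z B h (ang j) + h * D)) * ∏ k, ‖pt θ - z k‖)) := by gcongr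
        _ = (Real.exp (c0 * c1) * Real.exp (C * (1 + qN z B h (ang j) + qQ z B h (ang j) +
              qW z B h (ang j) + h * qH z B h (ang j) + h * D))) *
              (‖(tpoly M c).leadingCoeff‖ * ∏ k, ‖pt θ - z k‖) := by ring
        _ = _ := by
          rw [← Real.exp_add]
          congr 2
          simp only [hJ, hF]; ring
  refine ⟨fun j => K * F j, fun j => mul_nonneg hKp.le (hF0 j), ?_, ?_⟩
  · rw [← Finset.mul_sum]
    have hs := hsum D n z h hn hhpos hh1 hnh1 hnh2
    calc K * ∑ j ∈ Finset.range n, F j ≤ K * (AS * D) := mul_le_mul_of_nonneg_left hs hKp.le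
      _ ≤ K * (AS * (c0 * n)) := by gcongr
      _ = K * AS * c0 * n := by ring
      _ ≤ (K * AS * c0 + K0) * n := by
        apply mul_le_mul_of_nonneg_right _ hnpos.le
        linarith
  · intro j hj T W hT hW1 hW2 hvol w hw
    have hWp : 0 < W := lt_of_lt_of_le (by positivity) hW1
    have hang' : κ * (j * b / n) = ang j := by
      simp only [hang, hκdef]; field_simp
    have hκW : κ * W ≤ τ0 * η := by
      calc κ * W ≤ κ * (τ0 * e) := mul_le_mul_of_nonneg_left hW2 hκ.le
        _ = τ0 * η := by rw [hηdef]; ring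
    have a1 : κ * W ≤ h := by
      calc κ * W ≤ τ0 * η := hκW
        _ ≤ 1 / (1 + c0) * η := mul_le_mul_of_nonneg_right hτa hη.le
        _ = h := by rw [hh]; ring
    have a2 : κ * W ≤ B * h / 2 := by
      calc κ * W ≤ τ0 * η := hκW
        _ ≤ B / (2 * (1 + c0)) * η := mul_le_mul_of_nonneg_right hτb hη.le
        _ = B * h / 2 := by rw [hh]; field_simp
    have a3 : κ * (j * b / n) + κ * W ≤ 2 * π := by
      rw [hang']
      have b1 : (n : ℝ) * (κ * W) ≤ 2 * π := by
        calc (n : ℝ) * (κ * W) ≤ n * (τ0 * η) := mul_le_mul_of_nonneg_left hκW hnpos.le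
          _ = τ0 * (n * η) := by ring
          _ ≤ (b / c2) * (κ * c2) := mul_le_mul hτc hnη2 (by positivity) (by positivity)
          _ = 2 * π := by rw [hκdef]; field_simp
      have b2 : κ * W ≤ 2 * π / n := by rw [le_div_iff₀ hnpos]; linarith
      have b3 : ((j + 1 : ℕ) : ℝ) ≤ n := by exact_mod_cast hj
      push_cast at b3
      have b4 : 2 * π * j / n + 2 * π / n = 2 * π * ((j + 1) / n) := by ring
      have b5 : ((j : ℝ) + 1) / n ≤ 1 := by rw [div_le_one hnpos]; exact b3
      have b6 := mul_le_mul_of_nonneg_left b5 (by positivity : (0 : ℝ) ≤ 2 * π)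
      simp only [hang]
      linarith
    have hfar := far_le h3 hb M c hP0 z hzl (B := B) (h := h) (T := T) (W := W) (e := e)
      (c5 := 2 * c0) (y0 := j * b / n) hB hhpos he hhη hT hWp a1 a2 hhD (by positivity) a3 hvol
    rw [← hκdef, hang'] at hfar
    have hqN := qN_nonneg z (B := B) (h := h) (ang j)
    have hqQ := qQ_nonneg z (B := B) (h := h) (ang j)
    have hqW := qW_nonneg z (B := B) hhpos (ang j)
    have hratio : h / (κ * W) ≤ 1 / τ1 := by
      rw [div_le_div_iff₀ (by positivity) hτ1]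
      calc h * τ1 ≤ η * τ1 := mul_le_mul_of_nonneg_right hhη hτ1.le
        _ = κ * (τ1 * e) := by rw [hηdef]; ring
        _ ≤ κ * W := mul_le_mul_of_nonneg_left hW1 hκ.le
        _ = 1 * (κ * W) := (one_mul _).symm
    have hJle : J j ≤ K * F j + (K * AS * c0 + K0) * (1 + T) := by
      have hpi := Real.pi_pos
      have d1 : 8 * π * (h / (κ * W)) * qN z B h (ang j) ≤ 8 * π / τ1 * qN z B h (ang j) := by
        apply mul_le_mul_of_nonneg_right _ hqN
        calc 8 * π * (h / (κ * W)) ≤ 8 * π * (1 / τ1) := by gcongr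
          _ = 8 * π / τ1 := by ring
      have d2 : F j + h * qH z B h (ang j) ≤ (8 * π / τ1 + 3) * F j + T + 2 * (2 * c0) / B := by
        have d3 : 0 ≤ 8 * π / τ1 * (qQ z B h (ang j) + qW z B h (ang j)) := by positivity
        have d10 : (8 * π / τ1 + 3) * F j = 8 * π / τ1 * qN z B h (ang j) +
            8 * π / τ1 * (qQ z B h (ang j) + qW z B h (ang j)) + 3 * qN z B h (ang j) +
            3 * qQ z B h (ang j) + 3 * qW z B h (ang j) := by
          simp only [hF]; ring
        rw [d10]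
        simp only [hF]
        linarith
      have d4 : C * (1 + F j + h * qH z B h (ang j) + h * D) ≤
          C * (1 + ((8 * π / τ1 + 3) * F j + T + 2 * (2 * c0) / B) + 2 * c0) := by
        apply mul_le_mul_of_nonneg_left _ hC.le
        linarith
      have d5 : C * T ≤ K0 * T := mul_le_mul_of_nonneg_right hCK0 hT
      have d6 : 0 ≤ K * AS * c0 * (1 + T) := by positivity
      simp only [hJ]
      have d7 : K * F j = C * ((8 * π / τ1 + 3) * F j) := by rw [hK]; ring
      rw [d7]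
      have d8 : (K * AS * c0 + K0) * (1 + T) = K * AS * c0 * (1 + T) + K0 + K0 * T := by ring
      rw [d8]
      have d11 : C * (1 + ((8 * π / τ1 + 3) * F j + T + 2 * (2 * c0) / B) + 2 * c0) =
          C * (1 + 2 * (2 * c0) / B + 2 * c0) + C * ((8 * π / τ1 + 3) * F j) + C * T := by ring
      rw [d11] at d4
      have d9 : K0 = c0 * c1 + C * (1 + 2 * (2 * c0) / B + 2 * c0) := hK0
      linarith
    obtain ⟨θ, hθ, hθ2⟩ := hgood.scale hb hηdef hj w hw
    refine ⟨θ, hθ, hθ2.trans ?_⟩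
    apply mul_le_mul_of_nonneg_right _ (norm_nonneg _)
    exact Real.exp_le_exp.mpr hJle

end Pool.Agent.R267.NM
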