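import Pool.Agent.R267.NM.Main
import Pool.Agent.R267.NM.Slice
import Pool.Agent.R267.NM.Cross

set_option autoImplicit false
open Complex Real MeasureTheory
open scoped ENNReal

namespace Pool.Agent.R267.NM

open Pool.Agent.R267.DI Pool.Agent.R267.NL

/-- Bounded average doubling index on all tori of revolution. -/
theorem average {ρ : ℝ → ℝ} {a b : ℝ} (hρ : Continuous ρ) (ha : 0 < a) (hb : 0 < b)
    (hpos : ∀ x, 0 < ρ x) (hper : ∀ x, ρ (x + a) = ρ x) {C C1 C2 : ℝ} (hC : 0 < C) (hC1 : 0 < C1)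
    (hC2 : 0 < C2) :
    ∃ A : ℝ, 0 < A ∧ ∀ (lam : ℝ) (φ : ℝ → ℝ → ℝ), 0 < lam → IsEigenfunction ρ a b 0 lam φ →
      ∀ (ι : Type) [Fintype ι] (c : ι → ℝ × ℝ), IsAdmissible ρ a b 0 lam φ C C1 C2 c →
      (∑ i, doublingIndex ρ a b 0 φ (c i) (C / Real.sqrt lam)) / Fintype.card ι ≤ A := by
  obtain ⟨A, hA, h⟩ := average_bounded (s_SLICE s_LOC1 s_SUMS s_BOOLE) (s_CROSS s_MAX) hρ ha hb
    hpos hper hC hC1 hC2
  refine ⟨A + 1, by linarith, fun lam φ hlam hφ ι _ c hc => ?_⟩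
  have hne : Nonempty ι := ⟨(hc.covers (0, 0)).choose⟩
  have hcard : (0 : ℝ) < Fintype.card ι := by exact_mod_cast Fintype.card_pos
  rw [div_le_iff₀ hcard]
  have := h lam φ hlam hφ ι c hc
  linarith

/-- Yau's upper bound on tori of revolution with a continuous metric. -/
theorem flat_length_rev {ρ : ℝ → ℝ} {a b : ℝ} (hρ : Continuous ρ) (ha : 0 < a) (hb : 0 < b)
    (hpos : ∀ x, 0 < ρ x) (hper : ∀ x, ρ (x + a) = ρ x) :
    ∃ ρ1 : ℝ, 0 < ρ1 ∧ (∀ x, ρ x ≤ ρ1) ∧ ∀ (lam : ℝ) (φ : ℝ → ℝ → ℝ), 0 < lam →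
      IsEigenfunction ρ a b 0 lam φ →
      μH[1] {p : EuclideanSpace ℝ (Fin 2) | p 0 ∈ Set.Icc 0 a ∧ p 1 ∈ Set.Icc 0 b ∧
        φ (p 0) (p 1) = 0} ≤ ENNReal.ofReal (200 * (a + b) ^ 2 * Real.sqrt (lam * ρ1)) := by
  obtain ⟨ρ0, ρ1, hρ0, h0, h1⟩ := exists_bounds hρ ha hpos hper
  have hρ01 : ρ0 ≤ ρ1 := (h0 0).trans (h1 0)
  have hρ1 : 0 < ρ1 := lt_of_lt_of_le hρ0 hρ01
  refine ⟨ρ1, hρ1, h1, ?_⟩
  intro lam φ hlam h
  obtain ⟨M, hM, hM2⟩ := exists_M (lam := lam) (ρ1 := ρ1) hb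
  obtain ⟨u', hu, hu', hrep, hrep'⟩ := s_FOU ρ a b 0 lam ρ1 φ M hρ ha hb hlam h1 hper h.smooth
    h.per2 h.per1 h.pde hM
  have hφa : ∀ x y, φ (x + a) y = φ x y := by
    intro x y
    have := h.per1 x y
    rwa [add_zero] at this
  have hsq0 : 0 ≤ Real.sqrt (lam * ρ1) := Real.sqrt_nonneg _
  have hc := s_COVER s_MAX φ (fun x _ => lam * ρ x) a b (lam * ρ1)
    (2 * (a + b) * Real.sqrt (lam * ρ1)) ha hb (by positivity) h.smooth
    (fun x _ => by have := hpos x; positivity)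
    (fun x _ => by have := h1 x; gcongr) h.pde hφa h.per2 h.ne
    (fun y hy cc => by
      obtain ⟨z1, z2⟩ := zer_x hρ ha hb hlam (fun x => (hpos x).le) h1 hρ1 hper hφa hM2 hu hu' hrep
        y hy cc
      exact ⟨z1, num3 hb.le hsq0 z2⟩)
    (fun x hx cc => by
      obtain ⟨z1, z2⟩ := zer_y hb (by positivity) hM2 hrep x hx cc
      exact ⟨z1, num4 ha.le hsq0 z2⟩)
  refine hc.trans (le_of_eq ?_)
  congr 1
  ring

end Pool.Agent.R267.NM
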