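import Pool.Agent.R267.NM.Defs

set_option autoImplicit false
open Complex Real MeasureTheory

/-!
# NM-GOOD: the typical logarithmic derivative in a square
-/
namespace Pool.Agent.R267.NM

/-- the logarithmic derivative `u_y / u` -/
noncomputable def rr (u : ℝ → ℝ → ℝ) (p : ℝ × ℝ) : ℝ :=
  deriv (fun t => u p.1 t) p.2 / u p.1 p.2

theorem deriv_eq_fd (u : ℝ → ℝ → ℝ) (hu : ContDiff ℝ 2 (fun p : ℝ × ℝ => u p.1 p.2)) (x y : ℝ) :
    deriv (fun t => u x t) y = fderiv ℝ (fun p : ℝ × ℝ => u p.1 p.2) (x, y) (0, 1) := by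
  have h1 : HasFDerivAt (fun p : ℝ × ℝ => u p.1 p.2)
      (fderiv ℝ (fun p : ℝ × ℝ => u p.1 p.2) (x, y)) (x, y) :=
    (hu.differentiable (by norm_num) _).hasFDerivAt
  have h2 : HasDerivAt (fun t : ℝ => (x, t)) ((0 : ℝ), (1 : ℝ)) y :=
    (hasDerivAt_const y x).prodMk (hasDerivAt_id y)
  exact (h1.comp_hasDerivAt y h2).deriv

theorem cont_uy (u : ℝ → ℝ → ℝ) (hu : ContDiff ℝ 2 (fun p : ℝ × ℝ => u p.1 p.2)) :
    Continuous (fun p : ℝ × ℝ => deriv (fun t => u p.1 t) p.2) := by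
  have : (fun p : ℝ × ℝ => deriv (fun t => u p.1 t) p.2)
      = fun p => fderiv ℝ (fun p : ℝ × ℝ => u p.1 p.2) p (0, 1) := by
    funext p; exact deriv_eq_fd u hu p.1 p.2
  rw [this]
  exact (hu.continuous_fderiv (by norm_num)).clm_apply continuous_const

theorem meas_rr (u : ℝ → ℝ → ℝ) (hu : ContDiff ℝ 2 (fun p : ℝ × ℝ => u p.1 p.2)) :
    Measurable (rr u) :=
  (cont_uy u hu).measurable.div hu.continuous.measurable

theorem sin_lb (s : ℝ) (h1 : 1 / 80 ≤ s) (h2 : s ≤ 79 / 80) : 1 / 40 ≤ Real.sin (π * s) := by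
  have hπ := Real.pi_pos
  rcases le_or_gt s (1 / 2) with h | h
  · have h3 := Real.mul_le_sin (x := π * s) (by positivity) (by nlinarith)
    have h4 : 2 / π * (π * s) = 2 * s := by field_simp
    rw [h4] at h3
    linarith
  · have h3 := Real.mul_le_sin (x := π * (1 - s)) (mul_nonneg hπ.le (by linarith)) (by nlinarith)
    have h4 : 2 / π * (π * (1 - s)) = 2 * (1 - s) := by field_simp
    have h5 : Real.sin (π * s) = Real.sin (π * (1 - s)) := by
      rw [← Real.sin_pi_sub]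
      congr 1
      ring
    rw [h4] at h3
    rw [h5]
    linarith

/-- the weighted square of the logarithmic derivative -/
noncomputable def FF (u : ℝ → ℝ → ℝ) (x1 y1 δ : ℝ) (p : ℝ × ℝ) : ℝ :=
  (Real.sin (π * (p.1 - x1) / (x1 + δ - x1)) * Real.sin (π * (p.2 - y1) / (y1 + δ - y1))) ^ 2
    * (rr u p) ^ 2

theorem meas_FF (u : ℝ → ℝ → ℝ) (x1 y1 δ : ℝ) (hu : ContDiff ℝ 2 (fun p : ℝ × ℝ => u p.1 p.2)) :
    Measurable (FF u x1 y1 δ) := by
  unfold FF
  refine Measurable.mul ?_ ((meas_rr u hu).pow_const 2)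
  have : Continuous fun p : ℝ × ℝ => (Real.sin (π * (p.1 - x1) / (x1 + δ - x1)) *
      Real.sin (π * (p.2 - y1) / (y1 + δ - y1))) ^ 2 := by fun_prop
  exact this.measurable

theorem core_bound (h : S_ENERGY) (u q : ℝ → ℝ → ℝ) (x1 y1 δ : ℝ) (hδ : 0 < δ)
    (hu : ContDiff ℝ 2 (fun p : ℝ × ℝ => u p.1 p.2)) (hq : ∀ x y, 0 ≤ q x y)
    (hpde : ∀ x y, deriv (deriv (fun t => u t y)) x + deriv (deriv (fun t => u x t)) y
      + q x y * u x y = 0)
    (hnz : ∀ x ∈ Set.Icc x1 (x1 + δ), ∀ y ∈ Set.Icc y1 (y1 + δ), u x y ≠ 0) :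
    volume {p : ℝ × ℝ | (p.1 ∈ Set.Icc (x1 + δ / 80) (x1 + 79 * δ / 80) ∧
      p.2 ∈ Set.Icc (y1 + δ / 80) (y1 + 79 * δ / 80)) ∧ 100000 / δ < |rr u p|}
      ≤ ENNReal.ofReal (4 / 100 * δ ^ 2) := by
  have hen := h u q x1 (x1 + δ) y1 (y1 + δ) (by linarith) (by linarith) hu hq hpde hnz
  have hF : ∀ x y, (Real.sin (π * (x - x1) / (x1 + δ - x1)) *
      Real.sin (π * (y - y1) / (y1 + δ - y1))) ^ 2
      * (deriv (fun t => u x t) y / u x y) ^ 2 = FF u x1 y1 δ (x, y) := fun x y => rfl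
  simp only [hF] at hen
  have hrhs : π ^ 2 * ((y1 + δ - y1) / (x1 + δ - x1) + (x1 + δ - x1) / (y1 + δ - y1)) ≤ 20 := by
    have e1 : y1 + δ - y1 = δ := by ring
    have e2 : x1 + δ - x1 = δ := by ring
    rw [e1, e2, div_self hδ.ne']
    have := Real.pi_lt_d2
    have h3 := Real.pi_pos
    nlinarith
  have hcont : ContinuousOn (FF u x1 y1 δ) (Set.Icc x1 (x1 + δ) ×ˢ Set.Icc y1 (y1 + δ)) := by
    unfold FF
    refine ContinuousOn.mul ?_ (ContinuousOn.pow ?_ 2)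
    · have : Continuous fun p : ℝ × ℝ => (Real.sin (π * (p.1 - x1) / (x1 + δ - x1)) *
        Real.sin (π * (p.2 - y1) / (y1 + δ - y1))) ^ 2 := by fun_prop
      exact this.continuousOn
    · refine ContinuousOn.div (cont_uy u hu).continuousOn hu.continuous.continuousOn ?_
      rintro ⟨x, y⟩ ⟨hx, hy⟩
      exact hnz x hx y hy
  have hint0 : IntegrableOn (FF u x1 y1 δ) (Set.Icc x1 (x1 + δ) ×ˢ Set.Icc y1 (y1 + δ)) volume :=
    hcont.integrableOn_compact (isCompact_Icc.prod isCompact_Icc)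
  have hint : IntegrableOn (FF u x1 y1 δ) (Set.Ioc x1 (x1 + δ) ×ˢ Set.Ioc y1 (y1 + δ)) volume :=
    hint0.mono_set (Set.prod_mono Set.Ioc_subset_Icc_self Set.Ioc_subset_Icc_self)
  have hprod : ∫ z in Set.Ioc x1 (x1 + δ) ×ˢ Set.Ioc y1 (y1 + δ), FF u x1 y1 δ z ≤ 20 := by
    rw [Measure.volume_eq_prod] at hint ⊢
    rw [setIntegral_prod _ hint]
    rw [intervalIntegral.integral_of_le (by linarith)] at hen
    have e : ∀ x, ∫ y in y1..(y1 + δ), FF u x1 y1 δ (x, y)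
        = ∫ y in Set.Ioc y1 (y1 + δ), FF u x1 y1 δ (x, y) :=
      fun x => intervalIntegral.integral_of_le (by linarith)
    simp only [e] at hen
    exact hen.trans hrhs
  have hl : ∫⁻ z in Set.Ioc x1 (x1 + δ) ×ˢ Set.Ioc y1 (y1 + δ),
      ENNReal.ofReal (FF u x1 y1 δ z) ≤ ENNReal.ofReal 20 := by
    rw [← ofReal_integral_eq_lintegral_ofReal hint
      (Filter.Eventually.of_forall fun z => by unfold FF; positivity)]
    exact ENNReal.ofReal_le_ofReal hprod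
  set c : ℝ := (1 / 40) ^ 4 * (100000 / δ) ^ 2 with hc
  have hcpos : 0 < c := by positivity
  have hmk := mul_meas_ge_le_lintegral
    (μ := volume.restrict (Set.Ioc x1 (x1 + δ) ×ˢ Set.Ioc y1 (y1 + δ)))
    (meas_FF u x1 y1 δ hu).ennreal_ofReal (ENNReal.ofReal c)
  have hsub : {p : ℝ × ℝ | (p.1 ∈ Set.Icc (x1 + δ / 80) (x1 + 79 * δ / 80) ∧
      p.2 ∈ Set.Icc (y1 + δ / 80) (y1 + 79 * δ / 80)) ∧ 100000 / δ < |rr u p|} ⊆
      {z | ENNReal.ofReal c ≤ ENNReal.ofReal (FF u x1 y1 δ z)} ∩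
        Set.Ioc x1 (x1 + δ) ×ˢ Set.Ioc y1 (y1 + δ) := by
    rintro ⟨x, y⟩ ⟨⟨⟨hx1, hx2⟩, ⟨hy1, hy2⟩⟩, hr⟩
    simp only at hx1 hx2 hy1 hy2
    refine ⟨ENNReal.ofReal_le_ofReal ?_, ⟨⟨?_, ?_⟩, ⟨?_, ?_⟩⟩⟩
    · have e1 : π * (x - x1) / (x1 + δ - x1) = π * ((x - x1) / δ) := by
        rw [show x1 + δ - x1 = δ by ring, mul_div_assoc]
      have e2 : π * (y - y1) / (y1 + δ - y1) = π * ((y - y1) / δ) := by
        rw [show y1 + δ - y1 = δ by ring, mul_div_assoc]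
      have s1 : 1 / 40 ≤ Real.sin (π * ((x - x1) / δ)) := by
        apply sin_lb
        · rw [le_div_iff₀ hδ]; linarith
        · rw [div_le_iff₀ hδ]; linarith
      have s2 : 1 / 40 ≤ Real.sin (π * ((y - y1) / δ)) := by
        apply sin_lb
        · rw [le_div_iff₀ hδ]; linarith
        · rw [div_le_iff₀ hδ]; linarith
      have hr' : (100000 / δ) ^ 2 ≤ (rr u (x, y)) ^ 2 := by
        rw [← sq_abs (rr u (x, y))]
        exact pow_le_pow_left₀ (by positivity) hr.le 2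
      have hs : (1 / 40 : ℝ) ^ 4 ≤ (Real.sin (π * ((x - x1) / δ)) *
          Real.sin (π * ((y - y1) / δ))) ^ 2 := by
        have : (1 / 40 : ℝ) * (1 / 40) ≤ Real.sin (π * ((x - x1) / δ)) *
          Real.sin (π * ((y - y1) / δ)) := mul_le_mul s1 s2 (by norm_num) (by linarith)
        calc (1 / 40 : ℝ) ^ 4 = ((1 / 40) * (1 / 40)) ^ 2 := by ring
          _ ≤ _ := pow_le_pow_left₀ (by norm_num) this 2
      show c ≤ (Real.sin (π * (x - x1) / (x1 + δ - x1)) *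
        Real.sin (π * (y - y1) / (y1 + δ - y1))) ^ 2 * (rr u (x, y)) ^ 2
      rw [e1, e2, hc]
      exact mul_le_mul hs hr' (by positivity) (by positivity)
    · show x1 < x
      linarith
    · show x ≤ x1 + δ
      linarith
    · show y1 < y
      linarith
    · show y ≤ y1 + δ
      linarith
  have hms : MeasurableSet {z | ENNReal.ofReal c ≤ ENNReal.ofReal (FF u x1 y1 δ z)} :=
    measurableSet_le measurable_const (meas_FF u x1 y1 δ hu).ennreal_ofReal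
  rw [Measure.restrict_apply hms] at hmk
  have h5 : ENNReal.ofReal c * volume {p : ℝ × ℝ | (p.1 ∈ Set.Icc (x1 + δ / 80) (x1 + 79 * δ / 80) ∧
      p.2 ∈ Set.Icc (y1 + δ / 80) (y1 + 79 * δ / 80)) ∧ 100000 / δ < |rr u p|}
      ≤ ENNReal.ofReal 20 :=
    (mul_le_mul_right (measure_mono hsub) _).trans (hmk.trans hl)
  have hc0 : ENNReal.ofReal c ≠ 0 := by simpa using hcpos
  have h6 := (ENNReal.le_div_iff_mul_le (Or.inl hc0) (Or.inl ENNReal.ofReal_ne_top)).2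
    ((mul_comm _ _).trans_le h5)
  refine h6.trans ?_
  rw [← ENNReal.ofReal_div_of_pos hcpos]
  apply ENNReal.ofReal_le_ofReal
  rw [div_le_iff₀ hcpos, hc]
  field_simp
  norm_num

theorem vol_box (a b c d : ℝ) (hab : a ≤ b) :
    volume (Set.Ioc a b ×ˢ Set.Ioc c d : Set (ℝ × ℝ)) = ENNReal.ofReal ((b - a) * (d - c)) := by
  rw [Measure.volume_eq_prod, Measure.prod_prod, Real.volume_Ioc, Real.volume_Ioc,
    ENNReal.ofReal_mul (by linarith)]

theorem cell_bound (h : S_ENERGY) (u q : ℝ → ℝ → ℝ) (x1 y1 δ : ℝ) (hδ : 0 < δ)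
    (hu : ContDiff ℝ 2 (fun p : ℝ × ℝ => u p.1 p.2)) (hq : ∀ x y, 0 ≤ q x y)
    (hpde : ∀ x y, deriv (deriv (fun t => u t y)) x + deriv (deriv (fun t => u x t)) y
      + q x y * u x y = 0)
    (hnz : ∀ x ∈ Set.Icc x1 (x1 + δ), ∀ y ∈ Set.Icc y1 (y1 + δ), u x y ≠ 0) :
    volume (Set.Ioc x1 (x1 + δ) ×ˢ Set.Ioc y1 (y1 + δ) ∩ {p : ℝ × ℝ | 100000 / δ < |rr u p|})
      ≤ ENNReal.ofReal (9 / 100 * δ ^ 2) := by
  have hcore := core_bound h u q x1 y1 δ hδ hu hq hpde hnz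
  set E0 := {p : ℝ × ℝ | (p.1 ∈ Set.Icc (x1 + δ / 80) (x1 + 79 * δ / 80) ∧
      p.2 ∈ Set.Icc (y1 + δ / 80) (y1 + 79 * δ / 80)) ∧ 100000 / δ < |rr u p|} with hE0
  have hsub : Set.Ioc x1 (x1 + δ) ×ˢ Set.Ioc y1 (y1 + δ) ∩ {p : ℝ × ℝ | 100000 / δ < |rr u p|} ⊆
      E0 ∪ (Set.Ioc x1 (x1 + δ / 80) ×ˢ Set.Ioc y1 (y1 + δ) ∪
        (Set.Ioc (x1 + 79 * δ / 80) (x1 + δ) ×ˢ Set.Ioc y1 (y1 + δ) ∪
        (Set.Ioc x1 (x1 + δ) ×ˢ Set.Ioc y1 (y1 + δ / 80) ∪
        Set.Ioc x1 (x1 + δ) ×ˢ Set.Ioc (y1 + 79 * δ / 80) (y1 + δ)))) := by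
    rintro ⟨x, y⟩ ⟨⟨⟨hx1, hx2⟩, ⟨hy1, hy2⟩⟩, hr⟩
    simp only at hx1 hx2 hy1 hy2
    by_cases a1 : x < x1 + δ / 80
    · exact Or.inr (Or.inl ⟨⟨hx1, a1.le⟩, ⟨hy1, hy2⟩⟩)
    by_cases a2 : x1 + 79 * δ / 80 < x
    · exact Or.inr (Or.inr (Or.inl ⟨⟨a2, hx2⟩, ⟨hy1, hy2⟩⟩))
    by_cases a3 : y < y1 + δ / 80
    · exact Or.inr (Or.inr (Or.inr (Or.inl ⟨⟨hx1, hx2⟩, ⟨hy1, a3.le⟩⟩)))
    by_cases a4 : y1 + 79 * δ / 80 < y
    · exact Or.inr (Or.inr (Or.inr (Or.inr ⟨⟨hx1, hx2⟩, ⟨a4, hy2⟩⟩)))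
    exact Or.inl ⟨⟨⟨not_lt.1 a1, not_lt.1 a2⟩, ⟨not_lt.1 a3, not_lt.1 a4⟩⟩, hr⟩
  have v1 := vol_box x1 (x1 + δ / 80) y1 (y1 + δ) (by linarith)
  have v2 := vol_box (x1 + 79 * δ / 80) (x1 + δ) y1 (y1 + δ) (by linarith)
  have v3 := vol_box x1 (x1 + δ) y1 (y1 + δ / 80) (by linarith)
  have v4 := vol_box x1 (x1 + δ) (y1 + 79 * δ / 80) (y1 + δ) (by linarith)
  calc _ ≤ _ := measure_mono hsub
    _ ≤ ENNReal.ofReal (4 / 100 * δ ^ 2) + (ENNReal.ofReal ((x1 + δ / 80 - x1) * (y1 + δ - y1)) +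
        (ENNReal.ofReal ((x1 + δ - (x1 + 79 * δ / 80)) * (y1 + δ - y1)) +
        (ENNReal.ofReal ((x1 + δ - x1) * (y1 + δ / 80 - y1)) +
        ENNReal.ofReal ((x1 + δ - x1) * (y1 + δ - (y1 + 79 * δ / 80)))))) := by
        refine (measure_union_le _ _).trans (add_le_add hcore ?_)
        refine (measure_union_le _ _).trans (add_le_add v1.le ?_)
        refine (measure_union_le _ _).trans (add_le_add v2.le ?_)
        exact (measure_union_le _ _).trans (add_le_add v3.le v4.le)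
    _ = ENNReal.ofReal (9 / 100 * δ ^ 2) := by
        have e1 : x1 + δ / 80 - x1 = δ / 80 := by ring
        have e2 : y1 + δ - y1 = δ := by ring
        have e3 : x1 + δ - (x1 + 79 * δ / 80) = δ / 80 := by ring
        have e4 : x1 + δ - x1 = δ := by ring
        have e5 : y1 + δ / 80 - y1 = δ / 80 := by ring
        have e6 : y1 + δ - (y1 + 79 * δ / 80) = δ / 80 := by ring
        rw [e1, e2, e3, e4, e5, e6]
        rw [← ENNReal.ofReal_add (by positivity) (by positivity),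
          ← ENNReal.ofReal_add (by positivity) (by positivity),
          ← ENNReal.ofReal_add (by positivity) (by positivity),
          ← ENNReal.ofReal_add (by positivity) (by positivity)]
        congr 1
        ring

theorem cell_exists (X W δ : ℝ) (K : ℕ) (hδ : 0 < δ) (hK : K * δ = W) (x : ℝ)
    (hx : x ∈ Set.Ioc X (X + W)) : ∃ i : ℕ, i < K ∧ x ∈ Set.Ioc (X + i * δ) (X + i * δ + δ) := by
  obtain ⟨h1, h2⟩ := hx
  set t : ℝ := (x - X) / δ with ht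
  have ht0 : 0 < t := div_pos (by linarith) hδ
  have htx : t * δ = x - X := div_mul_cancel₀ _ hδ.ne'
  have htK : t ≤ K := by
    rw [ht, div_le_iff₀ hδ, hK]; linarith
  have hn1 : 0 < ⌈t⌉₊ := Nat.ceil_pos.2 ht0
  obtain ⟨i, hi⟩ : ∃ i, ⌈t⌉₊ = i + 1 := ⟨⌈t⌉₊ - 1, by omega⟩
  have h3 : t ≤ (i : ℝ) + 1 := by
    have := Nat.le_ceil t
    rw [hi] at this
    exact_mod_cast this
  have h4 : (i : ℝ) < t := by
    have := Nat.ceil_lt_add_one ht0.le
    rw [hi] at this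
    push_cast at this
    linarith
  have h5 : ⌈t⌉₊ ≤ K := Nat.ceil_le.2 htK
  refine ⟨i, by omega, ?_, ?_⟩
  · have := mul_lt_mul_of_pos_right h4 hδ
    linarith
  · have := mul_le_mul_of_nonneg_right h3 hδ.le
    linarith

theorem s_GOOD (h : S_ENERGY) : S_GOOD := by
  refine ⟨100000, by norm_num, ?_⟩
  intro u q X Y W K hW hK hu hq hpde hcount
  classical
  have hKr : (0 : ℝ) < K := by exact_mod_cast hK
  set δ : ℝ := W / K with hδd
  have hδ : 0 < δ := div_pos hW hKr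
  have hKδ : (K : ℝ) * δ = W := by rw [hδd]; field_simp
  have hthr : (100000 : ℝ) * K / W = 100000 / δ := by
    rw [hδd]; field_simp
  rw [hthr]
  set Bad : Set (ℝ × ℝ) := (Set.Ioc X (X + W) ×ˢ Set.Ioc Y (Y + W)) ∩
    {p : ℝ × ℝ | 100000 / δ < |rr u p|} with hBad
  have hrm : MeasurableSet {p : ℝ × ℝ | 100000 / δ < |rr u p|} :=
    measurableSet_lt measurable_const (meas_rr u hu).abs
  have hBm : MeasurableSet Bad := (measurableSet_Ioc.prod measurableSet_Ioc).inter hrm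
  -- the crossed cells
  set cr : ℕ × ℕ → Prop := fun p => ∃ x ∈ Set.Icc (X + p.1 * δ) (X + (p.1 + 1) * δ),
    ∃ y ∈ Set.Icc (Y + p.2 * δ) (Y + (p.2 + 1) * δ), u x y = 0 with hcr
  have hcard : (((Finset.range K ×ˢ Finset.range K).filter cr).card : ℝ) ≤ K ^ 2 / 100 := by
    rw [← Set.ncard_coe_finset]
    convert hcount using 3
    ext p
    simp only [Finset.coe_filter, Finset.mem_product, Finset.mem_range, Set.mem_ofPred_eq, hcr,
      and_assoc]
  set cell : ℕ × ℕ → Set (ℝ × ℝ) := fun p =>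
    Set.Ioc (X + p.1 * δ) (X + p.1 * δ + δ) ×ˢ Set.Ioc (Y + p.2 * δ) (Y + p.2 * δ + δ) with hcell
  have hcov : Bad ⊆ ⋃ p ∈ Finset.range K ×ˢ Finset.range K,
      (cell p ∩ {p : ℝ × ℝ | 100000 / δ < |rr u p|}) := by
    rintro ⟨x, y⟩ ⟨⟨hx, hy⟩, hr⟩
    obtain ⟨i, hi, hxi⟩ := cell_exists X W δ K hδ hKδ x hx
    obtain ⟨j, hj, hyj⟩ := cell_exists Y W δ K hδ hKδ y hy
    simp only [Set.mem_iUnion]
    exact ⟨(i, j), Finset.mem_product.2 ⟨Finset.mem_range.2 hi, Finset.mem_range.2 hj⟩,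
      ⟨⟨hxi, hyj⟩, hr⟩⟩
  have hone : ∀ p : ℕ × ℕ, volume (cell p ∩ {p : ℝ × ℝ | 100000 / δ < |rr u p|}) ≤
      ENNReal.ofReal ((if cr p then δ ^ 2 else 0) + 9 / 100 * δ ^ 2) := by
    intro p
    by_cases hp : cr p
    · rw [if_pos hp]
      refine (measure_mono Set.inter_subset_left).trans ?_
      rw [hcell, vol_box _ _ _ _ (by linarith)]
      apply ENNReal.ofReal_le_ofReal
      have : 0 ≤ δ ^ 2 := sq_nonneg δ
      nlinarith
    · rw [if_neg hp, zero_add]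
      refine cell_bound h u q _ _ δ hδ hu hq hpde ?_
      intro x hx y hy h0
      apply hp
      refine ⟨x, ⟨hx.1, ?_⟩, y, ⟨hy.1, ?_⟩, h0⟩
      · have := hx.2; linarith
      · have := hy.2; linarith
  have hBv : volume Bad ≤ ENNReal.ofReal (W ^ 2 / 10) := by
    calc volume Bad ≤ _ := measure_mono hcov
      _ ≤ ∑ p ∈ Finset.range K ×ˢ Finset.range K,
          volume (cell p ∩ {p : ℝ × ℝ | 100000 / δ < |rr u p|}) := measure_biUnion_finset_le _ _
      _ ≤ ∑ p ∈ Finset.range K ×ˢ Finset.range K,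
          ENNReal.ofReal ((if cr p then δ ^ 2 else 0) + 9 / 100 * δ ^ 2) :=
          Finset.sum_le_sum fun p _ => hone p
      _ = ENNReal.ofReal (∑ p ∈ Finset.range K ×ˢ Finset.range K,
          ((if cr p then δ ^ 2 else 0) + 9 / 100 * δ ^ 2)) := by
          rw [ENNReal.ofReal_sum_of_nonneg]
          intro p _
          split_ifs <;> positivity
      _ ≤ ENNReal.ofReal (W ^ 2 / 10) := by
          apply ENNReal.ofReal_le_ofReal
          rw [Finset.sum_add_distrib, ← Finset.sum_filter, Finset.sum_const, Finset.sum_const,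
            Finset.card_product, Finset.card_range, nsmul_eq_mul, nsmul_eq_mul]
          have h1 := mul_le_mul_of_nonneg_right hcard (sq_nonneg δ)
          have h2 : W ^ 2 = K ^ 2 * δ ^ 2 := by rw [← hKδ]; ring
          push_cast
          rw [h2]
          nlinarith
  -- Fubini and Markov
  set g : ℝ → ENNReal := fun x => volume (Prod.mk x ⁻¹' Bad) with hg
  have hgm : Measurable g := measurable_measure_prodMk_left hBm
  have hgi : ∫⁻ x, g x = volume Bad := by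
    rw [Measure.volume_eq_prod, Measure.prod_apply hBm]
  set T : Set ℝ := {x | ENNReal.ofReal (W / 2) ≤ g x} with hT
  have hTm : MeasurableSet T := measurableSet_le measurable_const hgm
  have hTv : volume T ≤ ENNReal.ofReal (W / 5) := by
    have h1 := mul_meas_ge_le_lintegral (μ := (volume : Measure ℝ)) hgm (ENNReal.ofReal (W / 2))
    rw [hgi] at h1
    have h2 := h1.trans hBv
    have h0 : ENNReal.ofReal (W / 2) ≠ 0 := by simpa using hW
    have h3 := (ENNReal.le_div_iff_mul_le (Or.inl h0) (Or.inl ENNReal.ofReal_ne_top)).2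
      ((mul_comm _ _).trans_le h2)
    refine h3.trans ?_
    rw [← ENNReal.ofReal_div_of_pos (by positivity)]
    apply ENNReal.ofReal_le_ofReal
    rw [div_le_iff₀ (by positivity)]
    nlinarith
  refine ⟨Set.Ioc X (X + W) \ T, measurableSet_Ioc.diff hTm,
    fun x hx => Set.Ioc_subset_Icc_self hx.1, ?_, ?_⟩
  · refine le_trans ?_ le_measure_sdiff
    rw [Real.volume_Ioc]
    refine le_trans ?_ (tsub_le_tsub_left hTv _)
    rw [← ENNReal.ofReal_sub _ (by positivity)]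
    apply ENNReal.ofReal_le_ofReal
    linarith
  · rintro x ⟨hx, hxT⟩
    have h1 : g x < ENNReal.ofReal (W / 2) := not_le.1 hxT
    refine le_trans (measure_mono ?_) h1.le
    rintro y ⟨hy, hr⟩
    exact ⟨⟨hx, hy⟩, hr⟩

end Pool.Agent.R267.NM
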