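import Pool.Agent.R267.NM.Defs

/-!
# Piece NM-JR (helper310): measurable ratio of suprema
-/

set_option autoImplicit false

open MeasureTheory Filter Topology

namespace Pool.Agent.R267.NM

/-- Piece NM-JR. -/
theorem s_JR : S_JR := by
  intro F hF R e y0 he heR
  set K1 : Set ℂ := Metric.closedBall (y0 : ℂ) R with hK1
  set K2 : Set ℝ := Set.Icc (y0 - e) (y0 + e) with hK2
  have cK1 : IsCompact K1 := isCompact_closedBall _ _
  have cK2 : IsCompact K2 := isCompact_Icc
  have nK2 : K2.Nonempty := ⟨y0, by simp [hK2]; linarith⟩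
  have cN : Continuous fun x : ℝ => sSup ((fun w : ℂ => ‖F x w‖) '' K1) := by
    apply IsCompact.continuous_sSup (f := fun (x : ℝ) (w : ℂ) => ‖F x w‖) cK1
    exact hF.norm
  have cD : Continuous fun x : ℝ => sSup ((fun θ : ℝ => ‖F x (θ : ℂ)‖) '' K2) := by
    apply IsCompact.continuous_sSup (f := fun (x : ℝ) (θ : ℝ) => ‖F x (θ : ℂ)‖) cK2
    exact (hF.comp (continuous_fst.prodMk (Complex.continuous_ofReal.comp continuous_snd))).norm
  set N : ℝ → ℝ := fun x => sSup ((fun w : ℂ => ‖F x w‖) '' K1) with hN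
  set D : ℝ → ℝ := fun x => sSup ((fun θ : ℝ => ‖F x (θ : ℂ)‖) '' K2) with hD
  have cx : ∀ x, Continuous fun w : ℂ => ‖F x w‖ := fun x =>
    (hF.comp (continuous_const.prodMk continuous_id)).norm
  have cxr : ∀ x, Continuous fun θ : ℝ => ‖F x (θ : ℂ)‖ := fun x =>
    (cx x).comp Complex.continuous_ofReal
  have leN : ∀ x, ∀ w ∈ K1, ‖F x w‖ ≤ N x := fun x w hw =>
    le_csSup (cK1.image (cx x)).bddAbove ⟨w, hw, rfl⟩
  have leD : ∀ x, ∀ θ ∈ K2, ‖F x (θ : ℂ)‖ ≤ D x := fun x θ hθ =>
    le_csSup (cK2.image (cxr x)).bddAbove ⟨θ, hθ, rfl⟩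
  have attD : ∀ x, ∃ θ ∈ K2, ‖F x (θ : ℂ)‖ = D x := by
    intro x
    obtain ⟨θ, hθ, h⟩ := (cK2.image (cxr x)).sSup_mem (nK2.image _)
    exact ⟨θ, hθ, h⟩
  have hDN : ∀ x, D x ≤ N x := by
    intro x
    obtain ⟨θ, hθ, h⟩ := attD x
    rw [← h]
    apply leN
    rw [hK1, Metric.mem_closedBall, dist_eq_norm, ← Complex.ofReal_sub, Complex.norm_real,
      Real.norm_eq_abs, abs_le]
    obtain ⟨h1, h2⟩ := hθ
    constructor <;> linarith
  have hD0 : ∀ x, 0 ≤ D x := by
    intro x
    obtain ⟨θ, hθ, h⟩ := attD x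
    rw [← h]
    exact norm_nonneg _
  have hjr : ∀ x, jr F R e y0 x = Real.log (N x / D x) := fun x => rfl
  have hexp : ∀ x, 0 < D x → Real.exp (jr F R e y0 x) * D x = N x := by
    intro x hx
    rw [hjr, Real.exp_log (div_pos (hx.trans_le (hDN x)) hx)]
    field_simp
  refine ⟨?_, ?_, ?_⟩
  · have : jr F R e y0 = fun x => Real.log (N x / D x) := funext hjr
    rw [this]
    exact Real.measurable_log.comp (cN.measurable.div cD.measurable)
  · intro x
    rw [hjr]
    rcases (hD0 x).lt_or_eq with h | h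
    · apply Real.log_nonneg
      rw [le_div_iff₀ h]
      linarith [hDN x]
    · rw [← h]; simp
  · intro x J hJ hyp
    have hup : ∀ w : ℂ, ‖w - (y0 : ℂ)‖ ≤ R → ‖F x w‖ ≤ Real.exp J * D x := by
      intro w hw
      obtain ⟨θ, hθ, h⟩ := hyp w hw
      refine h.trans (mul_le_mul_of_nonneg_left (leD x θ ?_) (Real.exp_pos _).le)
      obtain ⟨h1, h2⟩ := abs_le.1 hθ
      exact ⟨by linarith, by linarith⟩
    have hNJ : N x ≤ Real.exp J * D x := by
      apply csSup_le
      · exact ⟨_, ⟨(y0 : ℂ), by simp [hK1]; linarith, rfl⟩⟩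
      · rintro _ ⟨w, hw, rfl⟩
        apply hup w
        rw [hK1, Metric.mem_closedBall, dist_eq_norm] at hw
        exact hw
    constructor
    · rw [hjr]
      rcases (hD0 x).lt_or_eq with h | h
      · rw [Real.log_le_iff_le_exp (div_pos (h.trans_le (hDN x)) h), div_le_iff₀ h]
        exact hNJ
      · rw [← h]; simpa using hJ
    · intro w hw
      obtain ⟨θ, hθ, h⟩ := attD x
      refine ⟨θ, ?_, ?_⟩
      · rw [abs_le]
        obtain ⟨h1, h2⟩ := hθ
        constructor <;> linarith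
      · rw [h]
        rcases (hD0 x).lt_or_eq with h0 | h0
        · rw [hexp x h0]
          apply leN
          rw [hK1, Metric.mem_closedBall, dist_eq_norm]
          exact hw
        · have := hup w hw
          rw [← h0] at this ⊢
          simpa using this

end Pool.Agent.R267.NM
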