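import Pool.Agent.R267.NM.Defs
import Pool.Agent.R267.DI.Loc
import Pool.Agent.R267.DI.CK
import Pool.Agent.R267.DI.Grad
import Pool.Agent.R267.DI.Geo

set_option autoImplicit false
open Complex Real

namespace Pool.Agent.R267.NM

open Pool.Agent.R267.DI

theorem aux_sq {u v E : ℝ} (hE : 0 ≤ E) (h : u ^ 2 + v ^ 2 < E ^ 2) : |u| ≤ E :=
  abs_le_of_sq_le_sq (by nlinarith [sq_nonneg v]) hE

theorem aux_disc {x cx x1 e : ℝ} (h1 : |cx - x1| ≤ e) (h2 : |x - x1| ≤ e) :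
    |x - cx| ≤ 2 * e := by
  rw [abs_le] at *
  constructor <;> linarith

theorem aux_in {u v e : ℝ} (he : 0 < e) (h1 : |u| ≤ 2 * e) (h2 : |v| ≤ 3 * e) :
    u ^ 2 + v ^ 2 < (4 * e) ^ 2 := by
  have h3 : u ^ 2 ≤ (2 * e) ^ 2 := sq_le_sq' (abs_le.1 h1).1 (abs_le.1 h1).2
  have h4 : v ^ 2 ≤ (3 * e) ^ 2 := sq_le_sq' (abs_le.1 h2).1 (abs_le.1 h2).2
  have : 0 < e ^ 2 := by positivity
  linarith

theorem aux_fin {d J t : ℝ} (hd : 0 ≤ d) (hJ : 0 ≤ J) (ht : 0 ≤ t) :
    d + (t + J) ≤ (1 + d) * (1 + J + t) := by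
  nlinarith [mul_nonneg hd hJ, mul_nonneg hd ht]

theorem s_LOCB (h : S_TWO) : S_LOCB := by
  intro ρ a b s ρ0 ρ1 C hρ ha hb hρ0 h0 h1 hper hC
  have hρ01 : ρ0 ≤ ρ1 := (h0 0).trans (h1 0)
  have hρ1 : 0 < ρ1 := lt_of_lt_of_le hρ0 hρ01
  have hs0 : 0 < Real.sqrt ρ0 := Real.sqrt_pos.2 hρ0
  have hs1 : 0 < Real.sqrt ρ1 := Real.sqrt_pos.2 hρ1
  have hss : Real.sqrt ρ0 ≤ Real.sqrt ρ1 := Real.sqrt_le_sqrt hρ01
  obtain ⟨C2, c2, hC2, hc2, hc21, hTWO⟩ := h (64 * C ^ 2 * ρ1 / ρ0) (by positivity)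
  obtain ⟨l, hl⟩ : ∃ l : ℝ, l = 32 * Real.sqrt ρ1 / Real.sqrt ρ0 := ⟨_, rfl⟩
  have hl0 : 0 < l := by rw [hl]; positivity
  have hl32 : 32 ≤ l := by
    rw [hl, le_div_iff₀ hs0]
    linarith
  obtain ⟨G, hG⟩ : ∃ G : ℝ, G = l * (2 + C ^ 2 / 32) := ⟨_, rfl⟩
  have hG0 : 0 ≤ G := by rw [hG]; positivity
  obtain ⟨C5, hC5⟩ : ∃ C5 : ℝ, C5 = 1 + G := ⟨_, rfl⟩
  have hC51 : 1 ≤ C5 := by rw [hC5]; linarith
  have hC50 : 0 < C5 := by linarith
  obtain ⟨D, hD⟩ : ∃ D : ℝ, D = 2 * Real.exp (8 * C * Real.sqrt (ρ1 / ρ0)) * (1 + C2 * C5) :=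
    ⟨_, rfl⟩
  have hC2C5 : 1 ≤ C2 * C5 := one_le_mul_of_one_le_of_one_le hC2 hC51
  have hD1 : 1 ≤ D := by
    rw [hD]
    have e1 : 1 ≤ Real.exp (8 * C * Real.sqrt (ρ1 / ρ0)) := Real.one_le_exp (by positivity)
    nlinarith [mul_le_mul e1 (by linarith : (1 : ℝ) ≤ 1 + C2 * C5) (by norm_num) (by positivity)]
  have hlog2 : 0 < Real.log 2 := Real.log_pos (by norm_num)
  have hlD : 0 ≤ Real.log D := Real.log_nonneg hD1
  refine ⟨(1 + Real.log D) / Real.log 2, c2 * l / C5, by positivity, by positivity, ?_⟩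
  intro lam φ M u' hlam hφ hu hu' hrep hrep' q m n x1 x2 y0 J T e hJ hT he hg1 hg2 hx1 hx2 hy0
    hf1 hf2 hf3
  obtain ⟨r, hr⟩ : ∃ r : ℝ, r = C / Real.sqrt lam := ⟨_, rfl⟩
  have hsl : 0 < Real.sqrt lam := Real.sqrt_pos.2 hlam
  have hr0 : 0 < r := by rw [hr]; positivity
  rw [← hr] at he ⊢
  have he0 : 0 < e := by rw [he]; positivity
  have he4 : 4 * e = r / Real.sqrt ρ1 := by rw [he]; ring
  obtain ⟨E, hE⟩ : ∃ E : ℝ, E = 2 * r / Real.sqrt ρ0 := ⟨_, rfl⟩
  have hE0 : 0 < E := by rw [hE]; positivity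
  have hEl : 4 * E = l * e := by
    rw [hE, hl, he]
    field_simp
    ring
  have heE : 8 * e ≤ E := by
    have : 32 * e ≤ l * e := mul_le_mul_of_nonneg_right hl32 he0.le
    linarith
  have hT0 : 0 < T := by linarith
  obtain ⟨S, hS⟩ : ∃ S : ℝ, S = supOn ρ a b s φ q r := ⟨_, rfl⟩
  obtain ⟨hgeo1, hgeo2⟩ := s_GEO ρ a b s ρ0 ρ1 hρ hρ0 h0 h1
  obtain ⟨cx, hcx⟩ : ∃ cx : ℝ, cx = q.1 + m * a := ⟨_, rfl⟩
  obtain ⟨cy, hcy⟩ : ∃ cy : ℝ, cy = q.2 + m * s + n * b := ⟨_, rfl⟩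
  rw [← hcx] at hx1 hx2
  rw [← hcy] at hy0
  -- values in the inner disc
  have hin : ∀ x y : ℝ, (x - cx) ^ 2 + (y - cy) ^ 2 < (4 * e) ^ 2 → |φ x y| ≤ S := by
    intro x y hxy
    have h2 := hgeo2 (x, y) q r m n (by
      rw [← he4, Real.sqrt_lt' (by positivity), ← hcx, ← hcy]
      exact hxy)
    rw [hS]
    exact hφ.le_supOn ha hb q (x, y) r h2
  have hS0 : 0 ≤ S := (abs_nonneg _).trans (hin cx cy (by simp; positivity))
  -- bounds on the slices
  have hsl1 : ∀ x0 : ℝ, |cx - x0| ≤ e → ∀ θ : ℝ, |θ - y0| ≤ e →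
      ‖esum (2 * π / b) M (fun m => fc b φ m x0) (θ : ℂ)‖ ≤ S := by
    intro x0 hx0 θ hθ
    rw [← hrep, Complex.norm_real, Real.norm_eq_abs]
    apply hin
    refine aux_in he0 ?_ ?_
    · rw [abs_sub_comm]
      linarith
    · rw [abs_le] at hy0 hθ ⊢
      constructor <;> linarith
  have hsl2 : ∀ θ : ℝ, |θ - y0| ≤ e →
      ‖esum (2 * π / b) M (fun m => u' m x1) (θ : ℂ)‖
        ≤ 2 * S / e + lam * ρ1 * S * e / 2 := by
    intro θ hθ
    rw [← hrep', Complex.norm_real, Real.norm_eq_abs]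
    have hsq : ∀ x y : ℝ, |x - x1| ≤ e → |y - θ| ≤ e → |φ x y| ≤ S := by
      intro x y hx hy
      apply hin
      refine aux_in he0 (aux_disc hx1 hx) ?_
      rw [abs_le] at hy0 hθ hy ⊢
      constructor <;> linarith
    apply s_GRAD φ S (lam * ρ1 * S) e x1 θ he0 hS0 (by positivity) hφ.smooth hsq
    intro x y hx hy
    have hp := hφ.pde x y
    have : deriv (deriv (fun t => φ t y)) x + deriv (deriv (fun t => φ x t)) y
        = -(lam * ρ x * φ x y) := by linarith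
    rw [this, abs_neg, abs_mul, abs_mul, abs_of_pos hlam, abs_of_pos (lt_of_lt_of_le hρ0 (h0 x))]
    have := hsq x y hx hy
    have h3 := h1 x
    have h4 := h0 x
    gcongr
  have hR : 2 * (4 * E) = 64 * Real.sqrt ρ1 / Real.sqrt ρ0 * e := by
    rw [hEl, hl]; ring
  rw [← hR] at hf1 hf2 hf3
  -- bounds on the complex discs
  have hK0 : ∀ w : ℂ, ‖w - (y0 : ℂ)‖ ≤ 2 * (4 * E) →
      ‖esum (2 * π / b) M (fun m => fc b φ m x1) w‖ ≤ Real.exp J * S := by
    intro w hw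
    obtain ⟨θ, hθ, hθ2⟩ := hf1 w hw
    refine hθ2.trans ?_
    gcongr
    exact hsl1 x1 hx1 θ hθ
  have hK0' : ∀ w : ℂ, ‖w - (y0 : ℂ)‖ ≤ 2 * (4 * E) →
      ‖esum (2 * π / b) M (fun m => fc b φ m x2) w‖ ≤ Real.exp J * S := by
    intro w hw
    obtain ⟨θ, hθ, hθ2⟩ := hf2 w hw
    refine hθ2.trans ?_
    gcongr
    exact hsl1 x2 hx2 θ hθ
  have hle2 : lam * ρ1 * (16 * e ^ 2) = C ^ 2 := by
    have h7 : Real.sqrt lam ^ 2 = lam := Real.sq_sqrt hlam.le
    have h8 : Real.sqrt ρ1 ^ 2 = ρ1 := Real.sq_sqrt hρ1.le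
    rw [he, hr, div_pow, div_pow, div_pow, h7, h8]
    field_simp
    ring
  have hG2 : 4 * E * (2 * S / e + lam * ρ1 * S * e / 2) = G * S := by
    rw [hEl, hG, ← hle2]
    field_simp
    ring
  have hK1 : ∀ w : ℂ, ‖w - (y0 : ℂ)‖ ≤ 2 * (4 * E) →
      4 * E * ‖esum (2 * π / b) M (fun m => u' m x1) w‖
        ≤ Real.exp (C5 * T) * (Real.exp J * S) := by
    intro w hw
    obtain ⟨θ, hθ, hθ2⟩ := hf3 w hw
    have hJ1 : 1 ≤ Real.exp J := Real.one_le_exp hJ
    have hGe : G ≤ Real.exp G := by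
      have := Real.add_one_le_exp G
      linarith
    calc 4 * E * ‖esum (2 * π / b) M (fun m => u' m x1) w‖
        ≤ 4 * E * (Real.exp T * (2 * S / e + lam * ρ1 * S * e / 2)) := by
          gcongr
          refine hθ2.trans ?_
          gcongr
          exact hsl2 θ hθ
      _ = Real.exp T * (G * S) := by rw [← hG2]; ring
      _ ≤ Real.exp T * (Real.exp G * (Real.exp J * S)) := by
          have : S ≤ Real.exp J * S := le_mul_of_one_le_left hS0 hJ1
          gcongr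
      _ = Real.exp (T + G) * (Real.exp J * S) := by rw [Real.exp_add]; ring
      _ ≤ Real.exp (C5 * T) * (Real.exp J * S) := by
          have : T + G ≤ C5 * T := by
            have hGT : G * 1 ≤ G * T := mul_le_mul_of_nonneg_left hT hG0
            rw [hC5]
            linarith
          gcongr
  have hQL : lam * ρ1 * (4 * E) ^ 2 ≤ 64 * C ^ 2 * ρ1 / ρ0 := by
    apply le_of_eq
    have h7 : Real.sqrt lam ^ 2 = lam := Real.sq_sqrt hlam.le
    have h8 : Real.sqrt ρ0 ^ 2 = ρ0 := Real.sq_sqrt hρ0.le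
    rw [hE, hr, mul_pow, div_pow, mul_pow, div_pow, h7, h8]
    field_simp
    ring
  have hq0 : Continuous (fun x => lam * ρ x) := by fun_prop
  have hqQ : ∀ x, |lam * ρ x| ≤ lam * ρ1 := by
    intro x
    rw [abs_of_pos (mul_pos hlam (lt_of_lt_of_le hρ0 (h0 x)))]
    have := h1 x
    gcongr
  have hT2 := hTWO (2 * π / b) (lam * ρ1) M (fun x => lam * ρ x) (fc b φ) u' (by positivity)
    hq0 hqQ hu hu' (4 * E) x1 x2 y0 (Real.exp J * S) (C5 * T) (by positivity) hQL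
    (one_le_mul_of_one_le_of_one_le hC51 hT) (by positivity)
    (by
      refine le_trans (le_of_eq ?_) hg1
      rw [hEl]
      field_simp)
    (by
      refine le_trans hg2 (le_of_eq ?_)
      rw [hEl]
      field_simp)
    hK0 hK0' hK1
  have hout : ∀ x y : ℝ, (x - cx) ^ 2 + (y - cy) ^ 2 < E ^ 2 →
      |φ x y| ≤ D * (T * Real.exp J) * S := by
    intro x y hxy
    have hx3 : |x - cx| ≤ E := aux_sq hE0.le hxy
    have hy3 : |y - cy| ≤ E := aux_sq hE0.le (by rwa [add_comm] at hxy)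
    have hx4 : |x - x1| ≤ 2 * E := by
      rw [abs_le] at hx3 hx1 ⊢
      constructor <;> linarith
    have hy4 : |y - y0| ≤ 2 * E := by
      rw [abs_le] at hy3 hy0 ⊢
      constructor <;> linarith
    have hck := s_CK (2 * π / b) (lam * ρ1) M (fun x => lam * ρ x) (fc b φ) u' (by positivity)
      hq0 hqQ hu hu' x1 y0 (4 * E) (Real.exp J * S) (C2 * (C5 * T) * (Real.exp J * S) / (4 * E))
      (fun w hw => hK0 w (by linarith))
      (fun w hw => by
        rw [le_div_iff₀ (by positivity), mul_comm]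
        exact hT2 w hw) x y (by linarith)
    rw [← hrep, Complex.norm_real, Real.norm_eq_abs] at hck
    refine hck.trans ?_
    -- exponents
    have hexp : Real.sqrt (2 * (lam * ρ1)) * |x - x1| ≤ 8 * C * Real.sqrt (ρ1 / ρ0) := by
      have h5 : Real.sqrt (2 * (lam * ρ1)) ≤ 2 * (Real.sqrt lam * Real.sqrt ρ1) := by
        rw [← Real.sqrt_mul hlam.le]
        apply Real.sqrt_le_iff.2
        refine ⟨by positivity, ?_⟩
        rw [mul_pow, Real.sq_sqrt (by positivity)]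
        have : 0 < lam * ρ1 := by positivity
        linarith
      calc Real.sqrt (2 * (lam * ρ1)) * |x - x1|
          ≤ (2 * (Real.sqrt lam * Real.sqrt ρ1)) * (2 * E) := by gcongr
        _ = 8 * C * Real.sqrt (ρ1 / ρ0) := by
          rw [Real.sqrt_div hρ1.le, hE, hr]
          field_simp
          ring
    have hfac : Real.exp J * S + 4 * E * (C2 * (C5 * T) * (Real.exp J * S) / (4 * E))
        ≤ (1 + C2 * C5) * (T * Real.exp J) * S := by
      rw [mul_div_cancel₀ _ (by positivity)]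
      have : Real.exp J * S ≤ T * (Real.exp J * S) := le_mul_of_one_le_left (by positivity) hT
      linarith
    rw [hD]
    calc 2 * Real.exp (Real.sqrt (2 * (lam * ρ1)) * |x - x1|) * (Real.exp J * S + 4 * E *
        (C2 * (C5 * T) * (Real.exp J * S) / (4 * E)))
        ≤ 2 * Real.exp (8 * C * Real.sqrt (ρ1 / ρ0)) *
          ((1 + C2 * C5) * (T * Real.exp J) * S) := by
          gcongr
      _ = _ := by ring
  have hsup : supOn ρ a b s φ q (2 * r) ≤ D * (T * Real.exp J) * S := by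
    apply Real.sSup_le
    · rintro t ⟨p, hp, rfl⟩
      obtain ⟨m1, n1, hmn⟩ := hgeo1 p q (2 * r) hp
      rw [← hE, Real.sqrt_lt' hE0] at hmn
      -- translate p
      have hl := hφ.lattice (m - m1) (n - n1) p.1 p.2
      rw [← hl]
      apply hout
      push_cast
      have e1 : p.1 + (m - m1 : ℝ) * a - cx = p.1 - (q.1 + m1 * a) := by rw [hcx]; ring
      have e2 : p.2 + (m - m1 : ℝ) * s + (n - n1 : ℝ) * b - cy
          = p.2 - (q.2 + m1 * s + n1 * b) := by rw [hcy]; ring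
      rw [e1, e2]
      exact hmn
    · positivity
  have hlT : 0 ≤ Real.log T := Real.log_nonneg hT
  have hnn : 0 ≤ (1 + Real.log D) / Real.log 2 * (1 + J + Real.log T) := by positivity
  unfold doublingIndex
  rw [← hS]
  rcases eq_or_lt_of_le hS0 with hS00 | hSpos
  · rw [← hS00, div_zero, Real.logb_zero]
    exact hnn
  · have hsup0 : 0 ≤ supOn ρ a b s φ q (2 * r) := by
      apply Real.sSup_nonneg
      rintro t ⟨p, -, rfl⟩
      exact abs_nonneg _
    rcases eq_or_lt_of_le hsup0 with h00 | hpos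
    · rw [← h00, zero_div, Real.logb_zero]
      exact hnn
    · rw [Real.logb, div_mul_eq_mul_div, div_le_div_iff_of_pos_right hlog2]
      have hq : supOn ρ a b s φ q (2 * r) / S ≤ D * (T * Real.exp J) := by
        rw [div_le_iff₀ hSpos]
        exact hsup
      calc Real.log (supOn ρ a b s φ q (2 * r) / S)
          ≤ Real.log (D * (T * Real.exp J)) :=
            Real.log_le_log (by positivity) hq
        _ = Real.log D + (Real.log T + J) := by
          rw [Real.log_mul (by positivity) (by positivity),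
            Real.log_mul (by positivity) (by positivity), Real.log_exp]
        _ ≤ (1 + Real.log D) * (1 + J + Real.log T) := aux_fin hlD hJ hlT

end Pool.Agent.R267.NM
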