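import Pool.Agent.R267.NM.Defs

set_option autoImplicit false

namespace Pool.Agent.R267.NM

namespace LogsumAux

theorem pt (K : ℕ) : ∀ J : ℝ, 0 ≤ J → J ≤ 2 ^ K →
    Real.log (1 + J) ≤ 1 + ∑ k ∈ Finset.range K, (if (2 : ℝ) ^ k < J then (1 : ℝ) else 0) := by
  induction K with
  | zero =>
    intro J h0 h1
    rw [pow_zero] at h1
    have := Real.log_le_sub_one_of_pos (show 0 < 1 + J by linarith)
    simp only [Finset.range_zero, Finset.sum_empty]
    linarith
  | succ K ih =>
    intro J h0 h1
    rw [Finset.sum_range_succ]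
    by_cases h : J ≤ 2 ^ K
    · have h2 := ih J h0 h
      have h3 : (0 : ℝ) ≤ (if (2 : ℝ) ^ K < J then (1 : ℝ) else 0) := by split_ifs <;> norm_num
      linarith
    · have h' := not_le.1 h
      rw [if_pos h']
      have h2 : ∑ k ∈ Finset.range K, (if (2 : ℝ) ^ k < J then (1 : ℝ) else 0) = K := by
        rw [Finset.sum_congr rfl (g := fun _ => (1 : ℝ))]
        · simp
        · intro k hk
          have hk' := Finset.mem_range.1 hk
          rw [if_pos]
          exact (pow_le_pow_right₀ (by norm_num) hk'.le).trans_lt h'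
      rw [h2]
      have h4 : (1 : ℝ) ≤ 2 ^ (K + 1) := one_le_pow₀ (by norm_num)
      have h3 : 1 + J ≤ 2 ^ (K + 2) := by
        have : (2 : ℝ) ^ (K + 2) = 2 * 2 ^ (K + 1) := by ring
        linarith
      have h5 : Real.log (1 + J) ≤ Real.log (2 ^ (K + 2)) :=
        Real.log_le_log (by linarith) h3
      rw [Real.log_pow] at h5
      have h6 : Real.log 2 ≤ 1 := by
        have := Real.log_two_lt_d9
        linarith
      have h7 : ((K + 2 : ℕ) : ℝ) * Real.log 2 ≤ (K + 2 : ℕ) * 1 :=
        mul_le_mul_of_nonneg_left h6 (Nat.cast_nonneg _)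
      push_cast at h5 h7
      linarith

end LogsumAux

theorem s_LOGSUM : S_LOGSUM := by
  intro A hA
  refine ⟨1 + 2 * A, by linarith, ?_⟩
  intro n J hJ h
  obtain ⟨K, hK⟩ : ∃ K : ℕ, ∀ j ∈ Finset.range n, J j ≤ 2 ^ K := by
    obtain ⟨K, hK⟩ := pow_unbounded_of_one_lt (∑ j ∈ Finset.range n, J j)
      (show (1 : ℝ) < 2 by norm_num)
    exact ⟨K, fun j hj => (Finset.single_le_sum (fun i _ => hJ i) hj).trans hK.le⟩
  calc ∑ j ∈ Finset.range n, Real.log (1 + J j)
      ≤ ∑ j ∈ Finset.range n,
        (1 + ∑ k ∈ Finset.range K, (if (2 : ℝ) ^ k < J j then (1 : ℝ) else 0)) :=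
        Finset.sum_le_sum fun j hj => LogsumAux.pt K (J j) (hJ j) (hK j hj)
    _ = n + ∑ k ∈ Finset.range K,
        (((Finset.range n).filter (fun j : ℕ => (2 : ℝ) ^ k < J j)).card : ℝ) := by
        rw [Finset.sum_add_distrib, Finset.sum_comm]
        congr 1
        · simp
        · refine Finset.sum_congr rfl fun k _ => ?_
          rw [Finset.sum_boole]
    _ ≤ n + ∑ k ∈ Finset.range K, (A * n) * (1 / 2 : ℝ) ^ k := by
        refine add_le_add le_rfl (Finset.sum_le_sum fun k _ => ?_)
        refine (h (2 ^ k) (by positivity)).trans (le_of_eq ?_)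
        rw [div_pow, one_pow]
        ring
    _ ≤ n + (A * n) * 2 := by
        rw [← Finset.mul_sum]
        have := sum_geometric_two_le K
        have h0 : 0 ≤ A * n := mul_nonneg hA (Nat.cast_nonneg _)
        have := mul_le_mul_of_nonneg_left this h0
        linarith
    _ = (1 + 2 * A) * n := by ring

end Pool.Agent.R267.NM
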