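import Pool.Agent.R267.NM.Defs

/-!
# NM-PICK: selection of two good slices
-/

set_option autoImplicit false
open Complex Real MeasureTheory

namespace Pool.Agent.R267.NM.PPick

/-- averages of a family with bounded sum, and Markov's inequality -/
theorem avg (n : ℕ) (X W A : ℝ) (F : ℕ → ℝ → ℝ) (hW : 0 < W)
    (mF : ∀ j, Measurable (F j)) (F0 : ∀ j x, 0 ≤ F j x)
    (hF : ∀ x ∈ Set.Icc X (X + W), ∑ j ∈ Finset.range n, F j x ≤ A * n) :
    ∃ l : ℕ → ℝ, (∀ j, 0 ≤ l j) ∧ (∑ j ∈ Finset.range n, l j ≤ A * n) ∧
      ∀ j, j < n → ∀ m : ℝ, 10 * l j < m →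
        volume ({x | m ≤ F j x} ∩ Set.Icc X (X + W)) ≤ ENNReal.ofReal (W / 10) := by
  set I : Set ℝ := Set.Icc X (X + W) with hI
  have hIv : volume I = ENNReal.ofReal W := by rw [hI, Real.volume_Icc]; congr 1; ring
  have hIr : volume.real I = W := by
    rw [Measure.real, hIv, ENNReal.toReal_ofReal hW.le]
  have hIf : volume I ≠ ⊤ := by rw [hIv]; exact ENNReal.ofReal_ne_top
  have fint : ∀ j, j < n → IntegrableOn (F j) I := by
    intro j hj
    refine Measure.integrableOn_of_bounded (M := A * n) hIf (mF j).aestronglyMeasurable ?_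
    refine (ae_restrict_iff' (by rw [hI]; exact measurableSet_Icc)).2 (Filter.Eventually.of_forall ?_)
    intro x hx
    rw [Real.norm_eq_abs, abs_of_nonneg (F0 j x)]
    exact (Finset.single_le_sum (f := fun j => F j x) (fun i _ => F0 i x)
      (Finset.mem_range.2 hj)).trans (hF x hx)
  refine ⟨fun j => (∫ x in I, F j x) / W, ?_, ?_, ?_⟩
  · intro j
    exact div_nonneg (integral_nonneg (F0 j)) hW.le
  · rw [← Finset.sum_div, div_le_iff₀ hW, ← integral_finsetSum _ (fun j hj =>
      fint j (Finset.mem_range.1 hj))]
    calc ∫ x in I, ∑ j ∈ Finset.range n, F j x ≤ ∫ _ in I, A * n := by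
          refine setIntegral_mono_on ?_ ?_ (by rw [hI]; exact measurableSet_Icc) hF
          · exact integrable_finsetSum _ (fun j hj => fint j (Finset.mem_range.1 hj))
          · exact integrableOn_const hIf
      _ = A * n * W := by
          rw [setIntegral_const, hIr, smul_eq_mul]; ring
  · intro j hj m hm
    have hl0 : 0 ≤ (∫ x in I, F j x) / W := div_nonneg (integral_nonneg (F0 j)) hW.le
    have hm0 : 0 < m := by
      have : 10 * ((∫ x in I, F j x) / W) < m := hm
      linarith
    have h1 := mul_meas_ge_le_integral_of_nonneg (μ := volume.restrict I)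
      (Filter.Eventually.of_forall (F0 j)) (fint j hj) m
    have h2 : m * (volume.restrict I).real {x | m ≤ F j x} < m * (W / 10) := by
      have h3 : (∫ x in I, F j x) < m * (W / 10) := by
        have : 10 * ((∫ x in I, F j x) / W) < m := hm
        have h4 : 10 * ((∫ x in I, F j x) / W) * (W / 10) = ∫ x in I, F j x := by
          field_simp
        have h5 : 10 * ((∫ x in I, F j x) / W) * (W / 10) < m * (W / 10) :=
          mul_lt_mul_of_pos_right this (by positivity)
        rw [h4] at h5
        exact h5
      exact h1.trans_lt h3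
    have h3 : (volume.restrict I).real {x | m ≤ F j x} < W / 10 := lt_of_mul_lt_mul_left h2 hm0.le
    have hms : MeasurableSet {x | m ≤ F j x} := measurableSet_le measurable_const (mF j)
    rw [Measure.real, Measure.restrict_apply hms] at h3
    have hfin : volume ({x | m ≤ F j x} ∩ I) ≠ ⊤ :=
      ne_top_of_le_ne_top hIf (measure_mono Set.inter_subset_right)
    exact (ENNReal.le_ofReal_iff_toReal_le hfin (by positivity)).2 h3.le

/-- two sets of large measure in a short interval intersect -/
theorem shift_inter (X W g : ℝ) (F : Set ℝ) (hW : 0 < W) (mF : MeasurableSet F)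
    (hF : F ⊆ Set.Icc X (X + W)) (hv : ENNReal.ofReal (3 * W / 5) ≤ volume F) (hg : 0 < g)
    (hg' : g ≤ W / 10) : ∃ x ∈ F, x + g ∈ F := by
  by_contra hcon
  push Not at hcon
  -- F and its translate are disjoint
  set F' : Set ℝ := (fun x => x + g) ⁻¹' F with hF'
  have hd : Disjoint F F' := by
    rw [Set.disjoint_left]
    intro x hx hx'
    exact hcon x hx hx'
  have hmF' : MeasurableSet F' := (measurable_id.add_const g) mF
  have hv' : volume F' = volume F := measure_preimage_add_right volume g F
  have hsub : F ∪ F' ⊆ Set.Icc (X - g) (X + W) := by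
    intro x hx
    rcases hx with hx | hx
    · have := hF hx
      exact ⟨by linarith [this.1], this.2⟩
    · have := hF (show x + g ∈ F from hx)
      exact ⟨by linarith [this.1], by linarith [this.2]⟩
  have h1 : volume F + volume F ≤ ENNReal.ofReal (W + g) := by
    calc volume F + volume F = volume F + volume F' := by rw [hv']
      _ = volume (F ∪ F') := (measure_union hd hmF').symm
      _ ≤ volume (Set.Icc (X - g) (X + W)) := measure_mono hsub
      _ = ENNReal.ofReal (W + g) := by rw [Real.volume_Icc]; congr 1; ring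
  have h2 : ENNReal.ofReal (3 * W / 5 + 3 * W / 5) ≤ ENNReal.ofReal (W + g) := by
    rw [ENNReal.ofReal_add (by positivity) (by positivity)]
    exact (add_le_add hv hv).trans h1
  rw [ENNReal.ofReal_le_ofReal_iff (by positivity)] at h2
  linarith

end Pool.Agent.R267.NM.PPick

namespace Pool.Agent.R267.NM

open PPick in
theorem s_PICK : S_PICK := by
  classical
  intro n X W A J h S k hW hA mJ mh J0 h0 k0 mS SS vS hG hh
  set f : ℕ → ℝ → ℝ := fun j => (S j).indicator (fun x => max (J j x - k j) 0) with hf
  have mf : ∀ j, Measurable (f j) := fun j =>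
    (((mJ j).sub_const (k j)).max measurable_const).indicator (mS j)
  have f0 : ∀ j x, 0 ≤ f j x := fun j x =>
    Set.indicator_nonneg (fun _ _ => le_max_right _ _) x
  have fs : ∀ x ∈ Set.Icc X (X + W), ∑ j ∈ Finset.range n, f j x ≤ A * n := by
    intro x hx
    obtain ⟨G, G0, Gs, GJ⟩ := hG x hx
    refine (Finset.sum_le_sum fun j hj => ?_).trans Gs
    show (S j).indicator (fun x => max (J j x - k j) 0) x ≤ G j
    by_cases hxS : x ∈ S j
    · rw [Set.indicator_of_mem hxS]
      refine max_le ?_ (G0 j)
      have := GJ j (Finset.mem_range.1 hj) hxS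
      linarith
    · rw [Set.indicator_of_notMem hxS]; exact G0 j
  obtain ⟨a, a0, as, aM⟩ := avg n X W A f hW mf f0 fs
  obtain ⟨l, l0, ls, lM⟩ := avg n X W A h hW mh h0 hh
  refine ⟨fun j => 10 * a j + 10 * l j + 1, fun j => by
    have := a0 j; have := l0 j; positivity, ?_, ?_⟩
  · simp only [Finset.sum_add_distrib, ← Finset.mul_sum, Finset.sum_const, Finset.card_range,
      nsmul_eq_mul, mul_one]
    have hn : (0 : ℝ) ≤ n := Nat.cast_nonneg n
    nlinarith
  · intro j hj g hg hg'
    set m : ℝ := 10 * a j + 10 * l j + 1 with hm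
    have ha := a0 j
    have hl := l0 j
    have v1 := aM j hj m (by rw [hm]; linarith)
    have v2 := lM j hj m (by rw [hm]; linarith)
    -- the good set
    set B1 : Set ℝ := {x | m ≤ f j x} ∩ Set.Icc X (X + W) with hB1
    set B2 : Set ℝ := {x | m ≤ h j x} ∩ Set.Icc X (X + W) with hB2
    have mB1 : MeasurableSet B1 :=
      (measurableSet_le measurable_const (mf j)).inter measurableSet_Icc
    have mB2 : MeasurableSet B2 :=
      (measurableSet_le measurable_const (mh j)).inter measurableSet_Icc
    set F : Set ℝ := S j \ (B1 ∪ B2) with hF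
    have mF : MeasurableSet F := (mS j).diff (mB1.union mB2)
    have hFI : F ⊆ Set.Icc X (X + W) := Set.sdiff_subset.trans (SS j)
    have hvF : ENNReal.ofReal (3 * W / 5) ≤ volume F := by
      have h1 : volume (S j) ≤ volume F + (ENNReal.ofReal (W / 10) + ENNReal.ofReal (W / 10)) := by
        calc volume (S j) ≤ volume (F ∪ (B1 ∪ B2)) := by
              refine measure_mono fun x hx => ?_
              by_cases hxB : x ∈ B1 ∪ B2
              · exact Or.inr hxB
              · exact Or.inl ⟨hx, hxB⟩
          _ ≤ volume F + volume (B1 ∪ B2) := measure_union_le _ _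
          _ ≤ volume F + (volume B1 + volume B2) := by gcongr; exact measure_union_le _ _
          _ ≤ _ := by gcongr
      have h2 : ENNReal.ofReal (3 * W / 5) + (ENNReal.ofReal (W / 10) + ENNReal.ofReal (W / 10)) =
          ENNReal.ofReal (4 * W / 5) := by
        rw [← ENNReal.ofReal_add (by positivity) (by positivity),
          ← ENNReal.ofReal_add (by positivity) (by positivity)]
        congr 1; ring
      have h3 := (h2.le.trans (vS j hj)).trans h1
      have hfin : ENNReal.ofReal (W / 10) + ENNReal.ofReal (W / 10) ≠ ⊤ := by simp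
      exact (ENNReal.add_le_add_iff_right hfin).1 h3
    obtain ⟨x, hx, hxg⟩ := shift_inter X W g F hW mF hFI hvF hg hg'
    have key : ∀ y ∈ F, y ∈ Set.Icc X (X + W) ∧ y ∈ S j ∧ J j y ≤ k j + m ∧ h j y ≤ m := by
      intro y hy
      have hyI := hFI hy
      have hyS : y ∈ S j := hy.1
      have hyB : y ∉ B1 ∪ B2 := hy.2
      have hy1 : f j y < m := by
        by_contra hc
        push Not at hc
        exact hyB (Or.inl ⟨hc, hyI⟩)
      have hy2 : h j y < m := by
        by_contra hc
        push Not at hc
        exact hyB (Or.inr ⟨hc, hyI⟩)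
      refine ⟨hyI, hyS, ?_, hy2.le⟩
      have hfy : f j y = max (J j y - k j) 0 := by
        show (S j).indicator (fun x => max (J j x - k j) 0) y = _
        rw [Set.indicator_of_mem hyS]
      have h5 : J j y - k j ≤ f j y := by rw [hfy]; exact le_max_left _ _
      linarith
    obtain ⟨k1, k2, k3, k4⟩ := key x hx
    obtain ⟨l1, l2, l3, -⟩ := key (x + g) hxg
    exact ⟨x, k1, x + g, l1, rfl, k2, l2, k3, l3, k4⟩

end Pool.Agent.R267.NM
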