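import Pool.Agent.R267.NM.Defs
import Pool.Agent.R267.DI.CK

set_option autoImplicit false

/-!
# Project NM, piece NM-TWO (helper962)
-/

namespace Pool.Agent.R267.NM

open Pool.Agent.R267.DI

namespace Two

open Complex Set

lemma hasDerivAt_esum_w (κ : ℝ) (M : ℕ) (a : ℤ → ℂ) (w : ℂ) :
    HasDerivAt (esum κ M a)
      (esum κ M (fun m => a m * (Complex.I * ((κ * m : ℝ) : ℂ))) w) w := by
  unfold esum
  apply HasDerivAt.fun_sum
  intro m _
  have h1 : HasDerivAt (fun w : ℂ => Complex.I * ((κ * m : ℝ) : ℂ) * w)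
      (Complex.I * ((κ * m : ℝ) : ℂ)) w := by
    simpa using (hasDerivAt_id w).const_mul (Complex.I * ((κ * m : ℝ) : ℂ))
  have h2 := (h1.cexp).const_mul (a m)
  refine h2.congr_deriv ?_
  ring

lemma iter2 (κ : ℝ) (M : ℕ) (a : ℤ → ℂ) (w : ℂ) :
    iteratedDeriv 2 (esum κ M a) w = -esum κ M (fun m => (((κ * m) ^ 2 : ℝ) : ℂ) * a m) w := by
  have h1 : deriv (esum κ M a) =
      esum κ M (fun m => a m * (Complex.I * ((κ * m : ℝ) : ℂ))) :=
    funext fun z => (hasDerivAt_esum_w κ M a z).deriv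
  rw [iteratedDeriv_succ, iteratedDeriv_one, h1, (hasDerivAt_esum_w κ M _ w).deriv]
  unfold esum
  rw [← Finset.sum_neg_distrib]
  refine Finset.sum_congr rfl fun m _ => ?_
  push_cast
  have : Complex.I ^ 2 = -1 := Complex.I_sq
  linear_combination (a m * (κ * m) ^ 2 * Complex.exp (Complex.I * (κ * m) * w)) * this

lemma second (κ : ℝ) (M : ℕ) (a : ℤ → ℂ) (w : ℂ) (Δ B : ℝ) (hΔ : 0 < Δ)
    (h : ∀ z, ‖z - w‖ ≤ Δ → ‖esum κ M a z‖ ≤ B) :
    ‖esum κ M (fun m => (((κ * m) ^ 2 : ℝ) : ℂ) * a m) w‖ ≤ 2 * B / Δ ^ 2 := by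
  have h1 : Differentiable ℂ (esum κ M a) := fun z =>
    (hasDerivAt_esum_w κ M a z).differentiableAt
  have h2 := norm_iteratedDeriv_le_of_forall_mem_sphere_norm_le (c := w) (R := Δ) (C := B)
    (f := esum κ M a) 2 hΔ h1.diffContOnCl (fun z hz => h z (by
      rw [mem_sphere_iff_norm] at hz; exact hz.le))
  rw [iter2, norm_neg] at h2
  simpa using h2

lemma esum_ode (κ : ℝ) (M : ℕ) (a : ℤ → ℂ) (w : ℂ) (qx : ℝ) :
    esum κ M (fun m => ((((κ * m) ^ 2 - qx : ℝ)) : ℂ) * a m) w =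
      esum κ M (fun m => (((κ * m) ^ 2 : ℝ) : ℂ) * a m) w - (qx : ℂ) * esum κ M a w := by
  unfold esum
  rw [Finset.mul_sum, ← Finset.sum_sub_distrib]
  refine Finset.sum_congr rfl fun m _ => ?_
  push_cast
  ring

lemma ode_bd (κ : ℝ) (M : ℕ) (a : ℤ → ℂ) (w : ℂ) (qx Q Δ B : ℝ) (hΔ : 0 < Δ) (hq : |qx| ≤ Q)
    (h : ∀ z, ‖z - w‖ ≤ Δ → ‖esum κ M a z‖ ≤ B) :
    ‖esum κ M (fun m => ((((κ * m) ^ 2 - qx : ℝ)) : ℂ) * a m) w‖ ≤ (2 / Δ ^ 2 + Q) * B := by
  have hB : 0 ≤ B := le_trans (norm_nonneg _) (h w (by simp [hΔ.le]))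
  rw [esum_ode]
  refine (norm_sub_le _ _).trans ?_
  have h1 := second κ M a w Δ B hΔ h
  have h2 : ‖(qx : ℂ) * esum κ M a w‖ ≤ Q * B := by
    rw [norm_mul, Complex.norm_real, Real.norm_eq_abs]
    exact mul_le_mul hq (h w (by simp [hΔ.le])) (norm_nonneg _) ((abs_nonneg _).trans hq)
  calc _ ≤ 2 * B / Δ ^ 2 + Q * B := add_le_add h1 h2
    _ = _ := by ring

lemma taylor (F F' F'' : ℝ → ℂ) (hF : ∀ x, HasDerivAt F (F' x) x)
    (hF' : ∀ x, HasDerivAt F' (F'' x) x) (x1 x S : ℝ) (hx : x1 ≤ x)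
    (hS : ∀ t ∈ Icc x1 x, ‖F'' t‖ ≤ S) :
    ‖F x - F x1 - ((x - x1 : ℝ) : ℂ) * F' x1‖ ≤ S * (x - x1) ^ 2 := by
  have hS0 : 0 ≤ S := (norm_nonneg _).trans (hS x1 ⟨le_rfl, hx⟩)
  have h1 : ∀ t ∈ Icc x1 x, ‖F' t - F' x1‖ ≤ S * (x - x1) := by
    intro t ht
    have h := Convex.norm_image_sub_le_of_norm_hasDerivWithin_le (f := F') (f' := F'')
      (s := Icc x1 x) (C := S) (x := x1) (y := t) (fun y _ => (hF' y).hasDerivWithinAt) hS
      (convex_Icc x1 x) ⟨le_rfl, hx⟩ ht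
    refine h.trans (mul_le_mul_of_nonneg_left ?_ hS0)
    rw [Real.norm_eq_abs, abs_of_nonneg (by linarith [ht.1])]
    linarith [ht.2]
  have h2 : ∀ t, HasDerivAt (fun t => F t - ((t - x1 : ℝ) : ℂ) * F' x1) (F' t - F' x1) t := by
    intro t
    have h3 : HasDerivAt (fun t : ℝ => ((t - x1 : ℝ) : ℂ)) 1 t := by
      have := ((hasDerivAt_id t).sub_const x1).ofReal_comp
      simpa using this
    have h4 := (hF t).sub (h3.mul_const (F' x1))
    refine h4.congr_deriv ?_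
    ring
  have h5 := Convex.norm_image_sub_le_of_norm_hasDerivWithin_le
    (f := fun t => F t - ((t - x1 : ℝ) : ℂ) * F' x1) (f' := fun t => F' t - F' x1)
    (s := Icc x1 x) (C := S * (x - x1)) (x := x1) (y := x)
    (fun y _ => (h2 y).hasDerivWithinAt) h1 (convex_Icc x1 x) ⟨le_rfl, hx⟩ ⟨hx, le_rfl⟩
  have e : F x - F x1 - ((x - x1 : ℝ) : ℂ) * F' x1 =
      (F x - ((x - x1 : ℝ) : ℂ) * F' x1) - (F x1 - ((x1 - x1 : ℝ) : ℂ) * F' x1) := by
    simp
    ring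
  rw [e]
  refine h5.trans (le_of_eq ?_)
  rw [Real.norm_eq_abs, abs_of_nonneg (by linarith)]
  ring

/-- interpolation on `[x1, x2]` and bound of the derivative -/
lemma interp (F F' F'' : ℝ → ℂ) (hF : ∀ x, HasDerivAt F (F' x) x)
    (hF' : ∀ x, HasDerivAt F' (F'' x) x) (x1 x2 K S : ℝ) (hx : x1 < x2)
    (hS : ∀ t ∈ Icc x1 x2, ‖F'' t‖ ≤ S) (h1 : ‖F x1‖ ≤ K) (h2 : ‖F x2‖ ≤ K) :
    (x2 - x1) * ‖F' x1‖ ≤ 2 * K + S * (x2 - x1) ^ 2 ∧
    ∀ x ∈ Icc x1 x2, ‖F x‖ ≤ 3 * K + 2 * S * (x2 - x1) ^ 2 := by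
  have hS0 : 0 ≤ S := (norm_nonneg _).trans (hS x1 ⟨le_rfl, hx.le⟩)
  have hg : 0 < x2 - x1 := by linarith
  have t2 := taylor F F' F'' hF hF' x1 x2 S hx.le hS
  have hd : (x2 - x1) * ‖F' x1‖ ≤ 2 * K + S * (x2 - x1) ^ 2 := by
    have e : ((x2 - x1 : ℝ) : ℂ) * F' x1 = F x2 - F x1 -
        (F x2 - F x1 - ((x2 - x1 : ℝ) : ℂ) * F' x1) := by ring
    have e2 : (x2 - x1) * ‖F' x1‖ = ‖((x2 - x1 : ℝ) : ℂ) * F' x1‖ := by
      rw [norm_mul, Complex.norm_real, Real.norm_of_nonneg hg.le]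
    rw [e2, e]
    refine (norm_sub_le _ _).trans ?_
    have := norm_sub_le (F x2) (F x1)
    linarith
  refine ⟨hd, fun x hx' => ?_⟩
  have t3 := taylor F F' F'' hF hF' x1 x S hx'.1 (fun t ht => hS t ⟨ht.1, ht.2.trans hx'.2⟩)
  have e : F x = (F x - F x1 - ((x - x1 : ℝ) : ℂ) * F' x1) + F x1 +
      ((x - x1 : ℝ) : ℂ) * F' x1 := by ring
  have e2 : ‖((x - x1 : ℝ) : ℂ) * F' x1‖ ≤ (x2 - x1) * ‖F' x1‖ := by
    rw [norm_mul, Complex.norm_real, Real.norm_of_nonneg (by linarith [hx'.1])]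
    exact mul_le_mul_of_nonneg_right (by linarith [hx'.2]) (norm_nonneg _)
  have e3 : S * (x - x1) ^ 2 ≤ S * (x2 - x1) ^ 2 := by
    apply mul_le_mul_of_nonneg_left _ hS0
    exact pow_le_pow_left₀ (by linarith [hx'.1]) (by linarith [hx'.2]) 2
  rw [e]
  refine (norm_add_le _ _).trans ?_
  have := norm_add_le (F x - F x1 - ((x - x1 : ℝ) : ℂ) * F' x1) (F x1)
  linarith

end Two

open Two in
theorem s_TWO : S_TWO := by
  intro Q0 hQ0
  set C1 : ℝ := 6 * Real.exp (Real.sqrt (2 * Q0)) with hC1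
  have hC1p : 0 < C1 := by positivity
  set c : ℝ := 1 / (20 + 2 * Q0) with hc
  have hcp : 0 < c := by positivity
  have hc20 : c ≤ 1 / 20 := by
    rw [hc]
    apply one_div_le_one_div_of_le <;> linarith
  have hc2 : c ^ 2 * (50 + Q0) ≤ 1 / 6 := by
    rw [hc, div_pow, one_pow, div_mul_eq_mul_div, one_mul, div_le_div_iff₀ (by positivity)
      (by norm_num)]
    nlinarith [sq_nonneg Q0]
  refine ⟨4 / c + (8 + Q0) * (9 / 2 + C1), c, ?_, hcp, by linarith, ?_⟩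
  · have h1 : 4 ≤ 4 / c := by
      rw [le_div_iff₀ hcp]
      linarith
    have h2 : 0 ≤ (8 + Q0) * (9 / 2 + C1) := by positivity
    linarith
  intro κ Q M q u u' hQ _ hq hu hu' L x1 x2 y0 K0 T hL hQL hT hK0 hg1 hg2 h1 h2 h3
  have hTp : 0 < T := by linarith
  have hgp : 0 < x2 - x1 := lt_of_lt_of_le (by positivity) hg1
  have hx12 : x1 < x2 := by linarith
  have hcT : c / T ≤ 1 / 20 := by
    rw [div_le_iff₀ hTp]
    nlinarith
  have hgL : x2 - x1 ≤ c / T * L := by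
    refine hg2.trans (le_of_eq ?_)
    ring
  have hgL' : x2 - x1 ≤ 1 / 20 * L := hgL.trans (mul_le_mul_of_nonneg_right hcT hL.le)
  -- the function and its derivatives
  set Φ : ℂ → ℝ → ℂ := fun w x => esum κ M (fun m => u m x) w with hΦ
  set Φ' : ℂ → ℝ → ℂ := fun w x => esum κ M (fun m => u' m x) w with hΦ'
  set Φ'' : ℂ → ℝ → ℂ := fun w x =>
    esum κ M (fun m => ((((κ * m) ^ 2 - q x : ℝ)) : ℂ) * u m x) w with hΦ''
  have hd1 : ∀ w x, HasDerivAt (Φ w) (Φ' w x) x := fun w x =>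
    DI.CK.hasDerivAt_esum κ M u (fun m => u' m x) w x (fun m => hu m x)
  have hd2 : ∀ w x, HasDerivAt (Φ' w) (Φ'' w x) x := fun w x =>
    DI.CK.hasDerivAt_esum κ M u' (fun m => ((((κ * m) ^ 2 - q x : ℝ)) : ℂ) * u m x) w x
      (fun m => hu' m x)
  have hexpT : 1 ≤ Real.exp T := Real.one_le_exp hTp.le
  -- step 1
  have s1 : ∀ x ∈ Set.Icc x1 x2, ∀ w : ℂ, ‖w - (y0 : ℂ)‖ ≤ 1.9 * L →
      ‖Φ w x‖ ≤ C1 * Real.exp T * K0 := by
    intro x hx w hw
    have hh := DI.CK.half κ Q M q u u' hQ hq hu hu' x1 (2 * L) K0 (Real.exp T * K0 / L) (y0 : ℂ)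
      h1 (fun w hw => by
        rw [le_div_iff₀ hL, mul_comm]
        exact h3 w hw) x w hx.1 (by
        have := hx.2
        linarith)
    refine hh.trans ?_
    have e1 : Real.sqrt (2 * Q) * (x - x1) ≤ Real.sqrt (2 * Q0) := by
      have e2 : Real.sqrt (2 * Q) * (x - x1) ≤ Real.sqrt (2 * Q) * L :=
        mul_le_mul_of_nonneg_left (by linarith [hx.2]) (Real.sqrt_nonneg _)
      refine e2.trans ?_
      apply Real.le_sqrt_of_sq_le
      rw [mul_pow, Real.sq_sqrt (by linarith)]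
      linarith
    have e3 : Real.exp (Real.sqrt (2 * Q) * (x - x1)) ≤ Real.exp (Real.sqrt (2 * Q0)) :=
      Real.exp_le_exp.2 e1
    have e4 : K0 + 2 * L * (Real.exp T * K0 / L) ≤ 3 * (Real.exp T * K0) := by
      have : 2 * L * (Real.exp T * K0 / L) = 2 * (Real.exp T * K0) := by
        field_simp
      rw [this]
      nlinarith
    calc 2 * Real.exp (Real.sqrt (2 * Q) * (x - x1)) * (K0 + 2 * L * (Real.exp T * K0 / L))
        ≤ 2 * Real.exp (Real.sqrt (2 * Q0)) * (3 * (Real.exp T * K0)) := by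
          apply mul_le_mul _ e4 (by positivity) (by positivity)
          linarith
      _ = C1 * Real.exp T * K0 := by rw [hC1]; ring
  -- step 2
  set k : ℕ := ⌈T⌉₊ with hk
  have hkT : T ≤ (k : ℝ) := Nat.le_ceil T
  have hk2 : (k : ℝ) ≤ 2 * T := by
    have := Nat.ceil_lt_add_one hTp.le
    linarith
  have hkp : 0 < (k : ℝ) := by linarith
  set Δ : ℝ := 0.4 * L / k with hΔ
  have hΔp : 0 < Δ := by positivity
  have hkΔ : k * Δ = 0.4 * L := by
    rw [hΔ]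
    field_simp
  have hθ : 2 * ((2 / Δ ^ 2 + Q) * (x2 - x1) ^ 2) ≤ 1 / 3 := by
    have e1 : (x2 - x1) ^ 2 ≤ (c / T * L) ^ 2 := pow_le_pow_left₀ hgp.le hgL 2
    have e2 : 2 / Δ ^ 2 ≤ 50 * T ^ 2 / L ^ 2 := by
      have e3 : 1 / 5 * L / T ≤ Δ := by
        rw [hΔ, div_le_div_iff₀ hTp hkp]
        nlinarith
      have e4 : (1 / 5 * L / T) ^ 2 ≤ Δ ^ 2 := pow_le_pow_left₀ (by positivity) e3 2
      calc 2 / Δ ^ 2 ≤ 2 / (1 / 5 * L / T) ^ 2 :=
            div_le_div_of_nonneg_left (by norm_num) (by positivity) e4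
        _ = 50 * T ^ 2 / L ^ 2 := by field_simp; norm_num
    have e5 : (2 / Δ ^ 2 + Q) * (x2 - x1) ^ 2 ≤ (50 * T ^ 2 / L ^ 2 + Q) * (c / T * L) ^ 2 :=
      mul_le_mul (by linarith) e1 (by positivity) (by positivity)
    have e6 : (50 * T ^ 2 / L ^ 2 + Q) * (c / T * L) ^ 2 = c ^ 2 * (50 + Q * L ^ 2 / T ^ 2) := by
      field_simp
    have e7 : Q * L ^ 2 / T ^ 2 ≤ Q0 := by
      rw [div_le_iff₀ (by positivity)]
      nlinarith [one_le_pow₀ (n := 2) hT]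
    have e8 : c ^ 2 * (50 + Q * L ^ 2 / T ^ 2) ≤ c ^ 2 * (50 + Q0) :=
      mul_le_mul_of_nonneg_left (by linarith) (by positivity)
    linarith
  have s2 : ∀ i : ℕ, ∀ x ∈ Set.Icc x1 x2, ∀ w : ℂ, ‖w - (y0 : ℂ)‖ ≤ 1.9 * L - i * Δ →
      ‖Φ w x‖ ≤ 9 / 2 * K0 + (1 / 3) ^ i * (C1 * Real.exp T * K0) := by
    intro i
    induction i with
    | zero =>
      intro x hx w hw
      have := s1 x hx w (by simpa using hw)
      simp only [pow_zero, one_mul]
      linarith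
    | succ i ih =>
      intro x hx w hw
      set b : ℝ := 9 / 2 * K0 + (1 / 3) ^ i * (C1 * Real.exp T * K0) with hb
      have hbp : 0 ≤ b := by positivity
      have hS : ∀ t ∈ Set.Icc x1 x2, ‖Φ'' w t‖ ≤ (2 / Δ ^ 2 + Q) * b := by
        intro t ht
        apply ode_bd κ M (fun m => u m t) w (q t) Q Δ b hΔp (hq t)
        intro z hz
        apply ih t ht z
        have e1 : z - (y0 : ℂ) = (z - w) + (w - (y0 : ℂ)) := by ring
        rw [e1]
        refine (norm_add_le _ _).trans ?_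
        push_cast at hw
        linarith
      have hw2 : ‖w - (y0 : ℂ)‖ ≤ 2 * L := by
        refine hw.trans ?_
        have : 0 ≤ ((i + 1 : ℕ) : ℝ) * Δ := by positivity
        linarith
      have := (interp (Φ w) (Φ' w) (Φ'' w) (hd1 w) (hd2 w) x1 x2 K0 ((2 / Δ ^ 2 + Q) * b) hx12 hS
        (h1 w hw2) (h2 w hw2)).2 x hx
      refine this.trans ?_
      have e1 : 2 * ((2 / Δ ^ 2 + Q) * b) * (x2 - x1) ^ 2 =
          (2 * ((2 / Δ ^ 2 + Q) * (x2 - x1) ^ 2)) * b := by ring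
      rw [e1]
      have e2 := mul_le_mul_of_nonneg_right hθ hbp
      calc 3 * K0 + (2 * ((2 / Δ ^ 2 + Q) * (x2 - x1) ^ 2)) * b ≤ 3 * K0 + 1 / 3 * b := by linarith
        _ = _ := by rw [hb, pow_succ]; ring
  have s3 : ∀ x ∈ Set.Icc x1 x2, ∀ w : ℂ, ‖w - (y0 : ℂ)‖ ≤ 1.5 * L →
      ‖Φ w x‖ ≤ (9 / 2 + C1) * K0 := by
    intro x hx w hw
    have := s2 k x hx w (by rw [hkΔ]; linarith)
    refine this.trans ?_
    have e1 : (1 / 3 : ℝ) ^ k * Real.exp T ≤ 1 := by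
      have e2 : (1 / 3 : ℝ) ^ k ≤ Real.exp (-(k : ℝ)) := by
        rw [show Real.exp (-(k : ℝ)) = (Real.exp (-1)) ^ k by
          rw [← Real.exp_nat_mul]; ring_nf]
        apply pow_le_pow_left₀ (by norm_num)
        rw [Real.exp_neg, ← one_div]
        apply one_div_le_one_div_of_le (Real.exp_pos 1)
        linarith [Real.exp_one_lt_d9]
      calc (1 / 3 : ℝ) ^ k * Real.exp T ≤ Real.exp (-(k : ℝ)) * Real.exp T :=
            mul_le_mul_of_nonneg_right e2 (Real.exp_nonneg _)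
        _ = Real.exp (-(k : ℝ) + T) := by rw [Real.exp_add]
        _ ≤ 1 := Real.exp_le_one_iff.2 (by linarith)
    have e3 : (1 / 3 : ℝ) ^ k * (C1 * Real.exp T * K0) = ((1 / 3 : ℝ) ^ k * Real.exp T) * (C1 * K0) := by
      ring
    rw [e3]
    have e4 := mul_le_mul_of_nonneg_right e1 (by positivity : 0 ≤ C1 * K0)
    linarith
  -- conclusion
  intro w hw
  set B : ℝ := (9 / 2 + C1) * K0 with hB
  have hBp : 0 ≤ B := by positivity
  have hS : ∀ t ∈ Set.Icc x1 x2, ‖Φ'' w t‖ ≤ (2 / (L / 2) ^ 2 + Q) * B := by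
    intro t ht
    apply ode_bd κ M (fun m => u m t) w (q t) Q (L / 2) B (by positivity) (hq t)
    intro z hz
    apply s3 t ht z
    have e1 : z - (y0 : ℂ) = (z - w) + (w - (y0 : ℂ)) := by ring
    rw [e1]
    refine (norm_add_le _ _).trans ?_
    linarith
  have hfin := (interp (Φ w) (Φ' w) (Φ'' w) (hd1 w) (hd2 w) x1 x2 K0 ((2 / (L / 2) ^ 2 + Q) * B)
    hx12 hS (h1 w (by linarith)) (h2 w (by linarith))).1
  have e0 : (x2 - x1) * (L * ‖Φ' w x1‖) ≤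
      (x2 - x1) * ((4 / c + (8 + Q0) * (9 / 2 + C1)) * T * K0) := by
    have f1 : (x2 - x1) * (L * ‖Φ' w x1‖) = L * ((x2 - x1) * ‖Φ' w x1‖) := by ring
    rw [f1]
    have f2 := mul_le_mul_of_nonneg_left hfin hL.le
    refine f2.trans ?_
    have f3 : L * (2 * K0) ≤ (x2 - x1) * (4 / c * T * K0) := by
      have f4 : c * L / (2 * T) * (4 / c * T * K0) = L * (2 * K0) := by
        field_simp
        ring
      rw [← f4]
      exact mul_le_mul_of_nonneg_right hg1 (by positivity)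
    have f5 : L * ((2 / (L / 2) ^ 2 + Q) * B * (x2 - x1) ^ 2) ≤
        (x2 - x1) * ((8 + Q0) * (9 / 2 + C1) * T * K0) := by
      have f6 : L * ((2 / (L / 2) ^ 2 + Q) * B * (x2 - x1) ^ 2) =
          (x2 - x1) * ((8 + Q * L ^ 2) * B * ((x2 - x1) / L)) := by
        field_simp
        ring
      rw [f6]
      apply mul_le_mul_of_nonneg_left _ hgp.le
      have f7 : (x2 - x1) / L ≤ T := by
        rw [div_le_iff₀ hL]
        nlinarith
      calc (8 + Q * L ^ 2) * B * ((x2 - x1) / L) ≤ (8 + Q0) * B * T := by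
            apply mul_le_mul _ f7 (by positivity) (by positivity)
            exact mul_le_mul_of_nonneg_right (by linarith) hBp
        _ = _ := by rw [hB]; ring
    have f8 : L * (2 * K0 + (2 / (L / 2) ^ 2 + Q) * B * (x2 - x1) ^ 2) =
        L * (2 * K0) + L * ((2 / (L / 2) ^ 2 + Q) * B * (x2 - x1) ^ 2) := by ring
    rw [f8]
    have f9 : (x2 - x1) * ((4 / c + (8 + Q0) * (9 / 2 + C1)) * T * K0) =
        (x2 - x1) * (4 / c * T * K0) + (x2 - x1) * ((8 + Q0) * (9 / 2 + C1) * T * K0) := by ring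
    rw [f9]
    exact add_le_add f3 f5
  exact le_of_mul_le_mul_left e0 hgp

end Pool.Agent.R267.NM
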