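import Pool.Agent.R267.NM.Zer
import Pool.Agent.R267.NM.Col
import Pool.Agent.R267.NM.Boole
import Pool.Agent.R267.NM.Energy
import Pool.Agent.R267.NM.Good
import Pool.Agent.R267.NM.Jr
import Pool.Agent.R267.NM.Locb
import Pool.Agent.R267.NM.Logsum
import Pool.Agent.R267.NM.Pick
import Pool.Agent.R267.NM.Two
import Pool.Agent.R267.DI.AsmA
import Pool.Agent.R267.DI.Hwk
import Pool.Agent.R267.DI.Loc1
import Pool.Agent.R267.DI.Sums
import Pool.Agent.R267.DI.WeakAsm

set_option autoImplicit false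
open Complex Real MeasureTheory

namespace Pool.Agent.R267.NM

open Pool.Agent.R267.DI Pool.Agent.R267.NL

theorem grid_floor {a x : ℝ} {n : ℕ} (ha : 0 < a) (hn : 0 < n) (hx : x ∈ Set.Ico (0 : ℝ) a) :
    ∃ i : ℕ, i < n ∧ i * a / n ≤ x ∧ x ≤ i * a / n + a / n := by
  have hn' : (0 : ℝ) < n := by exact_mod_cast hn
  refine ⟨⌊x * n / a⌋₊, ?_, ?_⟩
  · rw [Nat.floor_lt (by have := hx.1; positivity)]
    rw [div_lt_iff₀ ha]
    have := hx.2
    nlinarith
  · have h1 := Nat.floor_le (show 0 ≤ x * n / a by have := hx.1; positivity)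
    have h2 := Nat.lt_floor_add_one (x * n / a)
    set i : ℝ := (⌊x * n / a⌋₊ : ℝ) with hi
    rw [le_div_iff₀ ha] at h1
    rw [div_lt_iff₀ ha] at h2
    constructor
    · rw [div_le_iff₀ hn']
      linarith
    · rw [← add_div, le_div_iff₀ hn']
      linarith

theorem Dbl.mono {b : ℝ} {M n : ℕ} {c1 e : ℝ} {cf : ℤ → ℂ} {j : ℕ} {J J' : ℝ}
    (h : Dbl b M n c1 e cf j J) (hJ : J ≤ J') : Dbl b M n c1 e cf j J' := by
  intro w hw
  obtain ⟨θ, hθ, hθ2⟩ := h w hw
  refine ⟨θ, hθ, hθ2.trans ?_⟩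
  gcongr

theorem num1 {C sl sC : ℝ} (hC : 0 < C) (hsl : 0 < sl) (h : 1 ≤ sC * sl) : C / sl ≤ C * sC := by
  rw [div_le_iff₀ hsl]
  nlinarith

theorem num2 {a b sl sr C τ : ℝ} (hsl : 0 < sl) (hsr : 0 < sr) (hC : 0 < C) (hτ : 0 < τ) :
    1000 * (a + b) * (2 * (a + b) * (sl * sr)) / (1 / 100 * (τ * (C / sl / sr / 4)))
      = 800000 * (a + b) ^ 2 * (sr * sr) / (C * τ) * (sl * sl) := by
  field_simp
  ring

theorem num3 {a b s z : ℝ} (hb : 0 ≤ b) (hs : 0 ≤ s) (hz : z ≤ 2 * a * s) :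
    z ≤ 2 * (a + b) * s := by
  have : 0 ≤ b * s := mul_nonneg hb hs
  linarith

theorem num4 {a b s z : ℝ} (ha : 0 ≤ a) (hs : 0 ≤ s) (hz : z ≤ 2 * b * s) :
    z ≤ 2 * (a + b) * s := by
  have : 0 ≤ a * s := mul_nonneg ha hs
  linarith

theorem num5 {s q W : ℝ} (hs : 0 ≤ s) (hW : 0 ≤ W) (hq : s ^ 2 = q) (h3 : W * (3 * s) ≤ 1) :
    9 * q * W ^ 2 ≤ 1 := by
  have h4 : (W * (3 * s)) ^ 2 ≤ 1 := pow_le_one₀ (by positivity) h3
  rw [← hq]
  linarith

theorem num6 {X Y e : ℝ} (he : 0 < e) (hX : |X| ≤ e) (hY : |Y| ≤ e) :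
    X ^ 2 + Y ^ 2 < (4 * e) ^ 2 := by
  have h1 : X ^ 2 ≤ e ^ 2 := sq_le_sq' (abs_le.1 hX).1 (abs_le.1 hX).2
  have h2 : Y ^ 2 ≤ e ^ 2 := sq_le_sq' (abs_le.1 hY).1 (abs_le.1 hY).2
  have h3 : 0 < e ^ 2 := by positivity
  linarith

theorem num7 {c1 s0 s1 : ℝ} (hs0 : 0 < s0) (h : s0 ≤ s1) (hc : c1 = 64 * s1 / s0) : 1 ≤ c1 := by
  rw [hc, le_div_iff₀ hs0]
  linarith

theorem num8 {τ e T0 cL : ℝ} (hτ : 0 < τ) (he : 0 < e) (hT : T0 = 1 + 10 * cL / τ)
    (hT0 : 0 < T0) : cL * e / T0 ≤ τ * e / 10 := by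
  rw [div_le_div_iff₀ hT0 (by norm_num)]
  have h4 : τ * T0 = τ + 10 * cL := by
    rw [hT]; field_simp
  have h5 : τ * e * T0 = e * (τ * T0) := by ring
  rw [h5, h4]
  have : 0 ≤ e * τ := by positivity
  linarith

theorem average_bounded (hSL : S_SLICE) (hCR : S_CROSS) {ρ : ℝ → ℝ} {a b : ℝ} (hρ : Continuous ρ)
    (ha : 0 < a) (hb : 0 < b)
    (hpos : ∀ x, 0 < ρ x) (hper : ∀ x, ρ (x + a) = ρ x) {C C1 C2 : ℝ} (hC : 0 < C) (hC1 : 0 < C1)
    (hC2 : 0 < C2) :
    ∃ A : ℝ, 0 ≤ A ∧ ∀ (lam : ℝ) (φ : ℝ → ℝ → ℝ), 0 < lam → IsEigenfunction ρ a b 0 lam φ →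
      ∀ (ι : Type) [Fintype ι] (c : ι → ℝ × ℝ), IsAdmissible ρ a b 0 lam φ C C1 C2 c →
      ∑ i, doublingIndex ρ a b 0 φ (c i) (C / Real.sqrt lam) ≤ A * Fintype.card ι := by
  obtain ⟨ρ0, ρ1, hρ0, h0, h1⟩ := exists_bounds hρ ha hpos hper
  have hρ01 : ρ0 ≤ ρ1 := (h0 0).trans (h1 0)
  have hρ1 : 0 < ρ1 := lt_of_lt_of_le hρ0 hρ01
  have hs0 : 0 < Real.sqrt ρ0 := Real.sqrt_pos.2 hρ0
  have hs1 : 0 < Real.sqrt ρ1 := Real.sqrt_pos.2 hρ1
  have hsC2 : 0 < Real.sqrt C2 := Real.sqrt_pos.2 hC2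
  set c1 := 64 * Real.sqrt ρ1 / Real.sqrt ρ0 with hc1
  have hc1' : 1 ≤ c1 := num7 hs0 (Real.sqrt_le_sqrt hρ01) hc1
  set emax := C * Real.sqrt C2 / (4 * Real.sqrt ρ1) with hemax
  have hemax0 : 0 < emax := by positivity
  set c0 := C / 4 + 2 * π / b * emax with hc0
  have hc00 : 0 < c0 := by positivity
  obtain ⟨τ0, hτ0, hSL1⟩ := hSL b c0 c1 (b + emax) hb hc00 (by positivity) (by positivity)
  set τ1 := min τ0 (min (a / (4 * (a + emax))) (min (b / (4 * (b + emax))) (4 / (3 * C)))) with hτ1d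
  have hτ1 : 0 < τ1 := by
    rw [hτ1d]
    refine lt_min hτ0 (lt_min (by positivity) (lt_min (by positivity) (by positivity)))
  obtain ⟨AS, hAS, hSL2⟩ := hSL1 τ1 hτ1
  obtain ⟨AW, hAW, hWK⟩ := s_WEAK s_LOC1 s_SUMS (s_HWK s_BOOLE s_SUMS) c0 c1 (2 * π + c0) hc00
    (by positivity) (by positivity)
  obtain ⟨AL', hAL', hLS⟩ := s_LOGSUM AW hAW
  obtain ⟨AG, hAG, hGD⟩ := s_GOOD s_ENERGY
  obtain ⟨AL, cL, hAL, hcL, hLOC⟩ := s_LOCB s_TWO ρ a b 0 ρ0 ρ1 C hρ ha hb hρ0 h0 h1 hper hC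
  set A := AS + AL' with hA
  have hA0 : 0 ≤ A := by positivity
  set B1 := 4 * a * Real.sqrt ρ1 / C + Real.sqrt C2 with hB1
  set B2 := 4 * b * Real.sqrt ρ1 / C + Real.sqrt C2 with hB2
  have hB10 : 0 < B1 := by positivity
  have hB20 : 0 < B2 := by positivity
  set T0 := 1 + 10 * cL / τ1 with hT0
  have hT01 : 1 ≤ T0 := by
    rw [hT0]
    have : 0 < 10 * cL / τ1 := by positivity
    linarith
  have hlT0 : 0 ≤ Real.log T0 := Real.log_nonneg hT01
  set B3 := 800000 * (a + b) ^ 2 * ρ1 / (C * τ1) with hB3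
  have hB30 : 0 < B3 := by positivity
  refine ⟨C1 * (AL * ((1 + Real.log T0 + A + 2 * (20 * A + 2) + A * (AG / τ1) * 2) * (B1 * B2)
    + A * (AG / τ1) * B3)) * C2, by positivity, ?_⟩
  intro lam φ hlam h ι _ c hadm
  have hsl : 0 < Real.sqrt lam := Real.sqrt_pos.2 hlam
  have hne : Nonempty ι := ⟨(hadm.covers (0, 0)).choose⟩
  have hcard1 : (1 : ℝ) ≤ Fintype.card ι := by exact_mod_cast Fintype.card_pos
  have hlamC : 1 ≤ C2 * lam := hcard1.trans hadm.upper
  have hslC : 1 ≤ Real.sqrt C2 * Real.sqrt lam := by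
    rw [← Real.sqrt_mul hC2.le]
    exact Real.one_le_sqrt.2 hlamC
  set e := C / Real.sqrt lam / Real.sqrt ρ1 / 4 with he
  have he0 : 0 < e := by positivity
  have hee : e ≤ emax := by
    rw [he, hemax]
    have : C / Real.sqrt lam ≤ C * Real.sqrt C2 := num1 hC hsl hslC
    calc C / Real.sqrt lam / Real.sqrt ρ1 / 4 ≤ C * Real.sqrt C2 / Real.sqrt ρ1 / 4 := by gcongr
      _ = _ := by field_simp
  set nx := ⌈a / e⌉₊ with hnx
  set n := ⌈b / e⌉₊ with hn
  have hnx0 : 0 < nx := Nat.ceil_pos.2 (by positivity)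
  have hn0 : 0 < n := Nat.ceil_pos.2 (by positivity)
  have hnx0' : (0 : ℝ) < nx := by exact_mod_cast hnx0
  have hn0' : (0 : ℝ) < n := by exact_mod_cast hn0
  have hnxe : a ≤ nx * e := by
    rw [← div_le_iff₀ he0]
    exact Nat.le_ceil _
  have hne' : b ≤ n * e := by
    rw [← div_le_iff₀ he0]
    exact Nat.le_ceil _
  have hnxe2 : (nx : ℝ) * e ≤ a + emax := by
    have h7 : (nx : ℝ) < a / e + 1 := Nat.ceil_lt_add_one (show 0 ≤ a / e by positivity)
    calc (nx : ℝ) * e ≤ (a / e + 1) * e := by gcongr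
      _ = a + e := by field_simp
      _ ≤ a + emax := by linarith
  have hne2 : (n : ℝ) * e ≤ b + emax := by
    have h7 : (n : ℝ) < b / e + 1 := Nat.ceil_lt_add_one (show 0 ≤ b / e by positivity)
    calc (n : ℝ) * e ≤ (b / e + 1) * e := by gcongr
      _ = b + e := by field_simp
      _ ≤ b + emax := by linarith
  have hnxB : (nx : ℝ) ≤ B1 * Real.sqrt lam := by
    have h2 : (nx : ℝ) < a / e + 1 := Nat.ceil_lt_add_one (show 0 ≤ a / e by positivity)
    have h3 : a / e = 4 * a * Real.sqrt ρ1 / C * Real.sqrt lam := by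
      rw [he]; field_simp
    rw [h3] at h2
    rw [hB1, add_mul]
    linarith
  have hnB : (n : ℝ) ≤ B2 * Real.sqrt lam := by
    have h2 : (n : ℝ) < b / e + 1 := Nat.ceil_lt_add_one (show 0 ≤ b / e by positivity)
    have h3 : b / e = 4 * b * Real.sqrt ρ1 / C * Real.sqrt lam := by
      rw [he]; field_simp
    rw [h3] at h2
    rw [hB2, add_mul]
    linarith
  have hηc : 2 * π / b * e ≤ c0 := by
    rw [hc0]
    have : 2 * π / b * e ≤ 2 * π / b * emax := by gcongr
    have : 0 < C / 4 := by positivity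
    linarith
  -- square roots
  have hsq : Real.sqrt (lam * ρ1) = Real.sqrt lam * Real.sqrt ρ1 := Real.sqrt_mul hlam.le _
  have heq : e * Real.sqrt (lam * ρ1) = C / 4 := by
    rw [hsq, he]; field_simp
  have hsq0 : 0 < Real.sqrt (lam * ρ1) := Real.sqrt_pos.2 (by positivity)
  -- the width
  set W := min (τ0 * e) (min (a / (4 * nx)) (min (b / (4 * n)) (1 / (3 * Real.sqrt (lam * ρ1)))))
    with hWd
  have hWτ0 : W ≤ τ0 * e := min_le_left _ _
  have hWa : W ≤ a / (4 * nx) := (min_le_right _ _).trans (min_le_left _ _)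
  have hWb : W ≤ b / (4 * n) :=
    (min_le_right _ _).trans ((min_le_right _ _).trans (min_le_left _ _))
  have hWq : W ≤ 1 / (3 * Real.sqrt (lam * ρ1)) :=
    (min_le_right _ _).trans ((min_le_right _ _).trans (min_le_right _ _))
  have hτW : τ1 * e ≤ W := by
    rw [hWd]
    refine le_min ?_ (le_min ?_ (le_min ?_ ?_))
    · have : τ1 ≤ τ0 := min_le_left _ _
      gcongr
    · have h2 : τ1 ≤ a / (4 * (a + emax)) := (min_le_right _ _).trans (min_le_left _ _)
      rw [le_div_iff₀ (by positivity)]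
      calc τ1 * e * (4 * nx) = τ1 * (4 * (nx * e)) := by ring
        _ ≤ a / (4 * (a + emax)) * (4 * (a + emax)) := by gcongr
        _ = a := by field_simp
    · have h2 : τ1 ≤ b / (4 * (b + emax)) :=
        (min_le_right _ _).trans ((min_le_right _ _).trans (min_le_left _ _))
      rw [le_div_iff₀ (by positivity)]
      calc τ1 * e * (4 * n) = τ1 * (4 * (n * e)) := by ring
        _ ≤ b / (4 * (b + emax)) * (4 * (b + emax)) := by gcongr
        _ = b := by field_simp
    · have h2 : τ1 ≤ 4 / (3 * C) :=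
        (min_le_right _ _).trans ((min_le_right _ _).trans (min_le_right _ _))
      rw [le_div_iff₀ (by positivity)]
      calc τ1 * e * (3 * Real.sqrt (lam * ρ1)) = 3 * τ1 * (e * Real.sqrt (lam * ρ1)) := by ring
        _ = 3 * τ1 * (C / 4) := by rw [heq]
        _ ≤ 3 * (4 / (3 * C)) * (C / 4) := by gcongr
        _ = 1 := by field_simp
  have hW0 : 0 < W := lt_of_lt_of_le (by positivity) hτW
  -- Fourier data
  obtain ⟨M, hM, hM2⟩ := exists_M (lam := lam) (ρ1 := ρ1) hb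
  obtain ⟨u', hu, hu', hrep, hrep'⟩ := s_FOU ρ a b 0 lam ρ1 φ M hρ ha hb hlam h1 hper h.smooth
    h.per2 h.per1 h.pde hM
  have hMe : (M : ℝ) * (2 * π / b * e) ≤ c0 := by
    rw [hc0]
    have h5 : (M : ℝ) * (2 * π / b * e) ≤ C / 4 := by
      calc (M : ℝ) * (2 * π / b * e) = (2 * π / b * M) * e := by ring
        _ ≤ Real.sqrt (lam * ρ1) * e := by gcongr
        _ = C / 4 := by rw [mul_comm, heq]
    have : 0 < 2 * π / b * emax := by positivity
    linarith
  have hφa : ∀ x y, φ (x + a) y = φ x y := by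
    intro x y
    have := h.per1 x y
    rwa [add_zero] at this
  -- zero counts
  set Z := 2 * (a + b) * Real.sqrt (lam * ρ1) with hZ
  have hZ0 : 0 ≤ Z := by positivity
  have hpde : ∀ x y, deriv (deriv (fun t => φ t y)) x + deriv (deriv (fun t => φ x t)) y
      + lam * ρ x * φ x y = 0 := h.pde
  obtain ⟨K, hK0, hKs, hKc⟩ := hCR φ (fun x _ => lam * ρ x) a b (lam * ρ1) Z W (1 / 100) nx n ha hb
    hZ0 hW0 (by norm_num) hnx0 hn0
    (by
      calc 4 * W ≤ 4 * (a / (4 * nx)) := by gcongr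
        _ = a / nx := by field_simp)
    (by
      calc 4 * W ≤ 4 * (b / (4 * n)) := by gcongr
        _ = b / n := by field_simp)
    (by
      have h3 : W * (3 * Real.sqrt (lam * ρ1)) ≤ 1 := by
        rw [le_div_iff₀ (by positivity)] at hWq
        exact hWq
      exact num5 hsq0.le hW0.le (Real.sq_sqrt (by positivity)) h3)
    h.smooth (fun x _ => by have := hpos x; positivity)
    (fun x _ => by have := h1 x; gcongr) hpde hφa h.per2 h.ne
    (fun y hy cc => by
      obtain ⟨z1, z2⟩ := zer_x hρ ha hb hlam (fun x => (hpos x).le) h1 hρ1 hper hφa hM2 hu hu' hrep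
        y hy cc
      exact ⟨z1, num3 hb.le hsq0.le z2⟩)
    (fun x hx cc => by
      obtain ⟨z1, z2⟩ := zer_y hb (by positivity) hM2 hrep x hx cc
      exact ⟨z1, num4 ha.le hsq0.le z2⟩)
  -- columns
  have hcol : ∀ i, i < nx → ∃ m : ℕ → ℝ, (∀ j, 0 ≤ m j) ∧
      (∑ j ∈ Finset.range n, m j ≤ (20 * A + 2) * n) ∧
      ∀ j, j < n → ∀ g : ℝ, 0 < g → g ≤ W / 10 →
      ∃ x1 ∈ Set.Icc (i * a / nx : ℝ) (i * a / nx + W), ∃ x2 ∈ Set.Icc (i * a / nx : ℝ) (i * a / nx + W),
        x2 = x1 + g ∧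
        Dbl b M n c1 e (fun m => fc b φ m x1) j (A * (1 + e * (AG * K i j / W)) + m j) ∧
        Dbl b M n c1 e (fun m => fc b φ m x2) j (A * (1 + e * (AG * K i j / W)) + m j) ∧
        Dbl b M n c1 e (fun m => u' m x1) j (Real.exp (m j)) := by
    intro i hi
    refine column (lam := lam) (ρ := ρ) s_JR s_PICK hn0 he0 hc1' hW0 hA0 hAG h.smooth hu hu' hrep
      ?_ ?_ (K i) ?_
    · intro cf
      by_cases hcf : ∃ m ∈ Finset.Icc (-(M : ℤ)) (M : ℤ), cf m ≠ 0
      · obtain ⟨J, hJ0, hJd, hJs⟩ := hWK M n (2 * π / b * e) hn0 (by positivity) hηc hMe (by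
            calc 2 * π = 2 * π / b * b := by field_simp
              _ ≤ 2 * π / b * (n * e) := by gcongr
              _ = n * (2 * π / b * e) := by ring) (by
            have h6 : (n : ℝ) * e ≤ b + e := by
              have h7 : (n : ℝ) < b / e + 1 := Nat.ceil_lt_add_one (show 0 ≤ b / e by positivity)
              calc (n : ℝ) * e ≤ (b / e + 1) * e := by gcongr
                _ = b + e := by field_simp
            calc (n : ℝ) * (2 * π / b * e) = 2 * π / b * (n * e) := by ring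
              _ ≤ 2 * π / b * (b + e) := by gcongr
              _ = 2 * π + 2 * π / b * e := by field_simp
              _ ≤ 2 * π + c0 := by linarith) cf hcf
        refine ⟨J, fun j => (hJ0 j).1, ?_, ?_⟩
        · intro j hj w hw
          have hG : Good M n (2 * π / b * e) c1 cf J := ⟨fun j => (hJ0 j).1, hJd⟩
          exact hG.scale hb rfl hj w hw
        · refine (hLS n J (fun j => (hJ0 j).1) hJs).trans ?_
          rw [hA]
          have : 0 ≤ AS * (n : ℝ) := by positivity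
          linarith
      · push Not at hcf
        refine ⟨fun _ => 0, fun _ => le_rfl, fun j _ => dbl_zero he0.le hcf j 0, ?_⟩
        simp
        positivity
    · intro cf hcf
      obtain ⟨G, hG0, hGs, hG⟩ := hSL2 M n e hn0 he0 hηc hMe hne' hne2 cf hcf
      refine ⟨G, hG0, hGs.trans ?_, ?_⟩
      · rw [hA]
        have : 0 ≤ AL' * (n : ℝ) := by positivity
        linarith
      · intro j hj T hT hvol
        have h2 : Dbl b M n c1 e cf j (G j + AS * (1 + T)) :=
          fun w hw => hG j hj T W hT hτW hWτ0 hvol w hw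
        refine h2.mono ?_
        rw [hA]
        have : 0 ≤ AL' * (1 + T) := by positivity
        linarith
    · intro j hj
      have h2 := hGD φ (fun x _ => lam * ρ x) (i * a / nx) (j * b / n) W (K i j) hW0 (hK0 i j)
        h.smooth (fun x _ => by have := hpos x; positivity) hpde (by
          have := hKc i j hi hj
          linarith)
      exact h2
  choose! mm hmm0 hmms hmm using hcol
  -- cells
  have hcell : ∀ k : ι, ∃ (i j : ℕ) (m l : ℤ), i < nx ∧ j < n ∧
      (i * a / nx : ℝ) ≤ (c k).1 + m * a ∧ (c k).1 + m * a ≤ i * a / nx + a / nx ∧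
      (j * b / n : ℝ) ≤ (c k).2 + m * 0 + l * b ∧ (c k).2 + m * 0 + l * b ≤ j * b / n + b / n := by
    intro k
    obtain ⟨m, l, hm, hl⟩ := exists_rep 0 ha hb (c k)
    obtain ⟨i, hi, hi2, hi3⟩ := grid_floor ha hnx0 hm
    obtain ⟨j, hj, hj2, hj3⟩ := grid_floor hb hn0 hl
    exact ⟨i, j, m, l, hi, hj, hi2, hi3, hj2, hj3⟩
  choose ci cj cm cl hci hcj hcx1 hcx2 hcy1 hcy2 using hcell
  have hanx : a / nx ≤ e := by
    rw [div_le_iff₀ hnx0']
    linarith
  have hbn : b / n ≤ e := by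
    rw [div_le_iff₀ hn0']
    linarith
  have hWa' : W ≤ a / nx := by
    refine hWa.trans ?_
    apply div_le_div_of_nonneg_left ha.le hnx0'
    linarith
  have hfib : ∀ p : ℕ × ℕ,
      (((Finset.univ.filter (fun k => (ci k, cj k) = p)).card : ℕ) : ℝ) ≤ C1 := by
    intro p
    obtain ⟨-, hgeo2⟩ := s_GEO ρ a b 0 ρ0 ρ1 hρ hρ0 h0 h1
    refine le_trans ?_ (hadm.overlap (p.1 * a / nx, p.2 * b / n))
    rw [← Set.ncard_coe_finset]
    refine Nat.cast_le.2 (Set.ncard_le_ncard ?_ (Set.toFinite _))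
    intro k hk
    rw [Finset.mem_coe, Finset.mem_filter] at hk
    have hk2 := hk.2
    rw [Set.mem_ofPred_eq]
    apply hgeo2 _ (c k) _ (cm k) (cl k)
    have a1 := hcx1 k
    have a2 := hcx2 k
    have a3 := hcy1 k
    have a4 := hcy2 k
    have e1 : ci k = p.1 := by rw [← hk2]
    have e2 : cj k = p.2 := by rw [← hk2]
    rw [e1] at a1 a2
    rw [e2] at a3 a4
    have hpos' : 0 < C / Real.sqrt lam / Real.sqrt ρ1 := by positivity
    rw [Real.sqrt_lt' hpos']
    have h4e : C / Real.sqrt lam / Real.sqrt ρ1 = 4 * e := by rw [he]; ring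
    rw [h4e]
    exact num6 he0 (abs_le.2 ⟨by linarith, by linarith⟩) (abs_le.2 ⟨by linarith, by linarith⟩)
  set f : ℕ × ℕ → ℝ := fun p => AL * (1 + Real.log T0 + A * (1 + e * (AG * K p.1 p.2 / W))
    + 2 * max 0 (mm p.1 p.2)) with hf
  have hf0 : ∀ p, 0 ≤ f p := by
    intro p
    have : 0 ≤ max 0 (mm p.1 p.2) := le_max_left _ _
    rw [hf]
    positivity
  have hloc : ∀ k, doublingIndex ρ a b 0 φ (c k) (C / Real.sqrt lam) ≤ f (ci k, cj k) := by
    intro k
    have hm0 := hmm0 (ci k) (hci k) (cj k)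
    set m0 := mm (ci k) (cj k) with hm0d
    set T := T0 * Real.exp m0 with hT
    have hexp1 : 1 ≤ Real.exp m0 := Real.one_le_exp hm0
    have hTT0 : T0 ≤ T := le_mul_of_one_le_right (by linarith) hexp1
    have hT1 : 1 ≤ T := hT01.trans hTT0
    have hTpos : 0 < T := by linarith
    have hg1 : cL * e / T ≤ W / 10 := by
      have h2 : cL * e / T ≤ cL * e / T0 := by
        apply div_le_div_of_nonneg_left (by positivity) (by linarith) hTT0
      have h3 : cL * e / T0 ≤ τ1 * e / 10 := num8 hτ1 he0 hT0 (by linarith)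
      linarith
    obtain ⟨x1, hx1, x2, hx2, hx12, hd1, hd2, hd3⟩ := hmm (ci k) (hci k) (cj k) (hcj k)
      (cL * e / T) (by positivity) hg1
    have hz1 := hcx1 k
    have hz2 := hcx2 k
    have hz3 := hcy1 k
    have hz4 := hcy2 k
    have hres := hLOC lam φ M u' hlam h hu hu' hrep hrep' (c k) (cm k) (cl k) x1 x2
      (cj k * b / n) (A * (1 + e * (AG * K (ci k) (cj k) / W)) + m0) T e
      (by positivity) hT1 he
      (by
        rw [hx12]
        have h2 : cL * e / (2 * T) ≤ cL * e / T := by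
          apply div_le_div_of_nonneg_left (by positivity) hTpos
          linarith
        linarith)
      (by rw [hx12]; linarith)
      (by
        rw [abs_le]
        have := hx1.1
        have := hx1.2
        constructor <;> linarith)
      (by
        rw [abs_le]
        have := hx2.1
        have := hx2.2
        constructor <;> linarith)
      (by
        rw [abs_le]
        constructor <;> linarith)
      (fun w hw => hd1 w hw) (fun w hw => hd2 w hw)
      (fun w hw => by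
        exact (hd3.mono (le_mul_of_one_le_left (Real.exp_pos _).le hT01)) w hw)
    refine hres.trans ?_
    rw [hf]
    simp only
    have hlogT : Real.log T = Real.log T0 + m0 := by
      rw [hT, Real.log_mul (by linarith) (Real.exp_pos _).ne', Real.log_exp]
    rw [hlogT]
    refine mul_le_mul_of_nonneg_left ?_ hAL
    have h2 : m0 ≤ max 0 (mm (ci k) (cj k)) := le_max_right _ _
    linarith
  classical
  set S := Finset.range nx ×ˢ Finset.range n with hS
  have hsumcells := sum_cells (S := S) (cell := fun k => (ci k, cj k)) (C1 := C1)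
    (fun k => by rw [hS]; simp [hci k, hcj k]) hfib f hf0
  have hcardpos : (0 : ℝ) < Fintype.card ι := by linarith
  have hlamcard : lam ≤ C2 * Fintype.card ι := by
    have := hadm.lower
    rw [div_le_iff₀ hC2] at this
    linarith
  have hnn : (nx : ℝ) * n ≤ B1 * B2 * lam := by
    calc (nx : ℝ) * n ≤ (B1 * Real.sqrt lam) * (B2 * Real.sqrt lam) := by gcongr
      _ = B1 * B2 * (Real.sqrt lam * Real.sqrt lam) := by ring
      _ = B1 * B2 * lam := by rw [Real.mul_self_sqrt hlam.le]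
  -- the sum of `K`
  have hKsum : ∑ i ∈ Finset.range nx, ∑ j ∈ Finset.range n, (K i j : ℝ)
      ≤ 2 * (nx * n) + B3 * lam := by
    refine hKs.trans ?_
    have h2 : 1000 * (a + b) * Z / (1 / 100 * W) ≤ B3 * lam := by
      have h3 : 1000 * (a + b) * Z / (1 / 100 * W) ≤ 1000 * (a + b) * Z / (1 / 100 * (τ1 * e)) := by
        apply div_le_div_of_nonneg_left (by positivity) (by positivity)
        linarith
      refine h3.trans (le_of_eq ?_)
      have h4 := num2 (a := a) (b := b) hsl hs1 hC hτ1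
      rw [Real.mul_self_sqrt hlam.le, Real.mul_self_sqrt hρ1.le] at h4
      rw [hB3, hZ, hsq, he]
      exact h4
    linarith
  have hmsum : ∑ i ∈ Finset.range nx, ∑ j ∈ Finset.range n, max 0 (mm i j)
      ≤ (20 * A + 2) * (nx * n) := by
    calc ∑ i ∈ Finset.range nx, ∑ j ∈ Finset.range n, max 0 (mm i j)
        ≤ ∑ _i ∈ Finset.range nx, (20 * A + 2) * n := by
          refine Finset.sum_le_sum fun i hi => ?_
          rw [Finset.mem_range] at hi
          refine le_trans (le_of_eq ?_) (hmms i hi)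
          refine Finset.sum_congr rfl fun j _ => ?_
          exact max_eq_right (hmm0 i hi j)
      _ = _ := by
        rw [Finset.sum_const, Finset.card_range, nsmul_eq_mul]
        ring
  have hfsum : ∑ p ∈ S, f p ≤ AL * ((1 + Real.log T0 + A + 2 * (20 * A + 2)
      + A * (AG / τ1) * 2) * (B1 * B2) + A * (AG / τ1) * B3) * lam := by
    have h2 : ∑ p ∈ S, f p = AL * ((1 + Real.log T0 + A) * (nx * n)
        + A * (e * AG / W) * (∑ i ∈ Finset.range nx, ∑ j ∈ Finset.range n, (K i j : ℝ))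
        + 2 * (∑ i ∈ Finset.range nx, ∑ j ∈ Finset.range n, max 0 (mm i j))) := by
      rw [hS, Finset.sum_product]
      have h3 : ∀ i j : ℕ, f (i, j) = AL * (1 + Real.log T0 + A) + AL * (A * (e * AG / W)) * (K i j : ℝ)
          + AL * 2 * max 0 (mm i j) := by
        intro i j
        rw [hf]
        simp only
        ring
      simp only [h3, Finset.sum_add_distrib, Finset.sum_const, Finset.card_range, nsmul_eq_mul,
        ← Finset.mul_sum]
      ring
    rw [h2]
    have h4 : e * AG / W ≤ AG / τ1 := by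
      rw [div_le_div_iff₀ hW0 hτ1]
      calc e * AG * τ1 = AG * (τ1 * e) := by ring
        _ ≤ AG * W := by gcongr
    have h5 : (0 : ℝ) ≤ ∑ i ∈ Finset.range nx, ∑ j ∈ Finset.range n, (K i j : ℝ) := by positivity
    have h6 : 0 ≤ e * AG / W := by positivity
    calc AL * ((1 + Real.log T0 + A) * (nx * n)
        + A * (e * AG / W) * (∑ i ∈ Finset.range nx, ∑ j ∈ Finset.range n, (K i j : ℝ))
        + 2 * (∑ i ∈ Finset.range nx, ∑ j ∈ Finset.range n, max 0 (mm i j)))
        ≤ AL * ((1 + Real.log T0 + A) * (nx * n)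
        + A * (AG / τ1) * (2 * (nx * n) + B3 * lam)
        + 2 * ((20 * A + 2) * (nx * n))) := by
          gcongr
      _ = AL * ((1 + Real.log T0 + A + 2 * (20 * A + 2) + A * (AG / τ1) * 2) * (nx * n)
        + A * (AG / τ1) * B3 * lam) := by ring
      _ ≤ AL * ((1 + Real.log T0 + A + 2 * (20 * A + 2) + A * (AG / τ1) * 2) * (B1 * B2 * lam)
        + A * (AG / τ1) * B3 * lam) := by gcongr
      _ = _ := by ring
  calc ∑ i, doublingIndex ρ a b 0 φ (c i) (C / Real.sqrt lam)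
      ≤ ∑ k, f (ci k, cj k) := Finset.sum_le_sum fun k _ => hloc k
    _ ≤ C1 * ∑ p ∈ S, f p := hsumcells
    _ ≤ C1 * (AL * ((1 + Real.log T0 + A + 2 * (20 * A + 2)
      + A * (AG / τ1) * 2) * (B1 * B2) + A * (AG / τ1) * B3) * lam) := by gcongr
    _ ≤ C1 * (AL * ((1 + Real.log T0 + A + 2 * (20 * A + 2)
      + A * (AG / τ1) * 2) * (B1 * B2) + A * (AG / τ1) * B3) * (C2 * Fintype.card ι)) := by gcongr
    _ = _ := by ring

end Pool.Agent.R267.NM
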