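import Pool.Agent.R267.NL.Main
import Pool.Agent.R267.DI.Grid

set_option autoImplicit false
open Complex Real MeasureTheory

namespace Pool.Agent.R267.NM

open Pool.Agent.R267.DI Pool.Agent.R267.NL

theorem cd2 {f f1 f2 : ℝ → ℝ} (h1 : ∀ x, HasDerivAt f (f1 x) x) (h2 : ∀ x, HasDerivAt f1 (f2 x) x)
    (hc : Continuous f2) : ContDiff ℝ 2 f ∧ ∀ x, deriv (deriv f) x = f2 x := by
  have e1 : deriv f = f1 := funext fun x => (h1 x).deriv
  have e2 : deriv f1 = f2 := funext fun x => (h2 x).deriv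
  refine ⟨?_, fun x => by rw [e1, e2]⟩
  have h : (2 : WithTop ℕ∞) = 1 + 1 := by norm_num
  rw [h, contDiff_succ_iff_deriv]
  refine ⟨fun x => (h1 x).differentiableAt, by intro h; simp at h, ?_⟩
  rw [e1]
  rw [show (1 : WithTop ℕ∞) = 0 + 1 by norm_num, contDiff_succ_iff_deriv]
  refine ⟨fun x => (h2 x).differentiableAt, by intro h; simp at h, ?_⟩
  rw [e2]
  exact contDiff_zero.2 hc

/-- Sturm's bound for a sum of modes. -/
theorem modes_count {a Q : ℝ} {q : ℝ → ℝ} (I : Finset ℤ) (μ : ℤ → ℝ) (T : ℤ → ℝ → ℝ) (ha : 0 < a)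
    (hQ : 0 < Q) (hq : Continuous q) (hqa : ∀ x, q (x + a) = q x)
    (hT : ∀ m ∈ I, ContDiff ℝ 2 (T m)) (hTa : ∀ m ∈ I, ∀ x, T m (x + a) = T m x)
    (hTe : ∀ m ∈ I, ∀ x, deriv (deriv (T m)) x = (μ m - q x) * T m x)
    (hμ : ∀ m ∈ I, ∀ x, |μ m - q x| ≤ Q) (F : ℝ → ℝ) (hF : ∀ x, F x = ∑ m ∈ I, T m x)
    (hne : ∃ x, F x ≠ 0) (c : ℝ) :
    {x | x ∈ Set.Ico c (c + a) ∧ F x = 0}.Finite ∧
      (Set.ncard {x | x ∈ Set.Ico c (c + a) ∧ F x = 0} : ℝ) ≤ 2 * a * Real.sqrt Q := by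
  classical
  set S := I.image μ with hS
  set R : ℝ → ℝ → ℝ := fun ν x => ∑ m ∈ I.filter (fun m => μ m = ν), T m x with hR
  have hsum : ∀ x, ∑ ν ∈ S, R ν x = F x := by
    intro x
    rw [hF x, hR]
    exact Finset.sum_fiberwise_of_maps_to (fun m hm => Finset.mem_image_of_mem μ hm) _
  have hd : ∀ ν, ∀ x, HasDerivAt (R ν) (∑ m ∈ I.filter (fun m => μ m = ν), deriv (T m) x) x := by
    intro ν x
    apply HasDerivAt.fun_sum
    intro m hm
    exact ((hT m (Finset.mem_filter.1 hm).1).differentiable (by norm_num) x).hasDerivAt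
  have hd2 : ∀ ν, ∀ x, HasDerivAt (fun x => ∑ m ∈ I.filter (fun m => μ m = ν), deriv (T m) x)
      ((ν - q x) * R ν x) x := by
    intro ν x
    have h1 : (ν - q x) * R ν x = ∑ m ∈ I.filter (fun m => μ m = ν), deriv (deriv (T m)) x := by
      rw [hR, Finset.mul_sum]
      refine Finset.sum_congr rfl fun m hm => ?_
      rw [hTe m (Finset.mem_filter.1 hm).1, (Finset.mem_filter.1 hm).2]
    rw [h1]
    apply HasDerivAt.fun_sum
    intro m hm
    exact (Pool.Agent.R267.DI.Grad.dd (hT m (Finset.mem_filter.1 hm).1) x).2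
  have hRc : ∀ ν, ContDiff ℝ 2 (R ν) := by
    intro ν
    refine (cd2 (hd ν) (hd2 ν) ?_).1
    refine (continuous_const.sub hq).mul ?_
    rw [hR]
    refine continuous_finsetSum _ fun m hm => ?_
    exact (hT m (Finset.mem_filter.1 hm).1).continuous
  have hcount := s_COUNT s_UNIQ (s_NV s_UNIQ) s_ROLLE a Q q S R ha hQ hq hqa
    (fun ν _ => hRc ν)
    (fun ν _ x => Finset.sum_congr rfl fun m hm => hTa m (Finset.mem_filter.1 hm).1 x)
    (fun ν _ x => (cd2 (hd ν) (hd2 ν) (by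
      refine (continuous_const.sub hq).mul ?_
      rw [hR]
      refine continuous_finsetSum _ fun m hm => ?_
      exact (hT m (Finset.mem_filter.1 hm).1).continuous)).2 x)
    (fun ν hν x => by
      obtain ⟨m, hm, rfl⟩ := Finset.mem_image.1 hν
      exact hμ m hm x)
    (by
      obtain ⟨x, hx⟩ := hne
      exact ⟨x, by rw [hsum]; exact hx⟩)
  have hFper : ∀ x, F (x + a) = F x := fun x => by
    rw [hF, hF]
    exact Finset.sum_congr rfl fun m hm => hTa m hm x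
  refine s_FIN a (2 * a * Real.sqrt Q) F ha hFper (fun N hN hZ => hcount N hN ?_)
    (by positivity) c
  obtain ⟨g, g1, g2, g3⟩ := hZ
  exact ⟨g, g1, g2, fun i => by
    have h1 := hsum (g i)
    simp only [h1]
    exact g3 i⟩

section
variable {ρ : ℝ → ℝ} {a b lam ρ1 : ℝ} {φ : ℝ → ℝ → ℝ} {M : ℕ} {u' : ℤ → ℝ → ℂ}

theorem mu_le (hb : 0 < b) (hM2 : 2 * π / b * M ≤ Real.sqrt (lam * ρ1)) (hq : 0 ≤ lam * ρ1)
    (m : ℤ) (hm : m ∈ Finset.Icc (-(M : ℤ)) (M : ℤ)) :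
    (2 * π / b * m) ^ 2 ≤ lam * ρ1 := by
  have hκ : 0 < 2 * π / b := by positivity
  rw [Finset.mem_Icc] at hm
  have h1 : |(m : ℝ)| ≤ M := by
    have : |m| ≤ (M : ℤ) := abs_le.2 hm
    exact_mod_cast this
  have h2 : (2 * π / b * (m : ℝ)) ^ 2 = (2 * π / b * |(m : ℝ)|) ^ 2 := by
    rw [mul_pow, mul_pow, sq_abs]
  rw [h2]
  calc (2 * π / b * |(m : ℝ)|) ^ 2 ≤ (Real.sqrt (lam * ρ1)) ^ 2 := by
        gcongr
        exact (mul_le_mul_of_nonneg_left h1 hκ.le).trans hM2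
    _ = lam * ρ1 := Real.sq_sqrt hq

/-- Zeros on horizontal lines. -/
theorem zer_x (hρ : Continuous ρ) (ha : 0 < a) (hb : 0 < b) (hlam : 0 < lam) (hρ0 : ∀ x, 0 ≤ ρ x)
    (h1 : ∀ x, ρ x ≤ ρ1) (hρ1 : 0 < ρ1) (hper : ∀ x, ρ (x + a) = ρ x)
    (hφ : ∀ x y, φ (x + a) y = φ x y)
    (hM2 : 2 * π / b * M ≤ Real.sqrt (lam * ρ1))
    (hu : ∀ m x, HasDerivAt (fc b φ m) (u' m x) x)
    (hu' : ∀ m x, HasDerivAt (u' m) ((((2 * π / b * m) ^ 2 - lam * ρ x : ℝ) : ℂ) * fc b φ m x) x)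
    (hrep : ∀ x y : ℝ, (φ x y : ℂ) = esum (2 * π / b) M (fun m => fc b φ m x) (y : ℂ))
    (y : ℝ) (hy : ∃ x, φ x y ≠ 0) (c : ℝ) :
    {x | x ∈ Set.Ico c (c + a) ∧ φ x y = 0}.Finite ∧
      (Set.ncard {x | x ∈ Set.Ico c (c + a) ∧ φ x y = 0} : ℝ)
        ≤ 2 * a * Real.sqrt (lam * ρ1) := by
  have hQ : 0 < lam * ρ1 := by positivity
  set E : ℤ → ℂ := fun m => Complex.exp (Complex.I * ((2 * π / b * m : ℝ) : ℂ) * (y : ℂ)) with hE
  have hre : ∀ (m : ℤ) (f : ℝ → ℂ) (f' : ℂ) (x : ℝ), HasDerivAt f f' x →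
      HasDerivAt (fun x => (f x * E m).re) ((f' * E m).re) x := by
    intro m f f' x h
    have h2 := (h.mul_const (E m))
    exact (Complex.reCLM.hasFDerivAt.comp_hasDerivAt x h2)
  have hfc : ∀ m, Continuous (fc b φ m) := fun m =>
    continuous_iff_continuousAt.2 fun x => (hu m x).continuousAt
  have hc2 : ∀ m : ℤ, Continuous (fun x =>
      (((((2 * π / b * m) ^ 2 - lam * ρ x : ℝ) : ℂ) * fc b φ m x) * E m).re) := by
    intro m
    have h1 : Continuous (fun x : ℝ => (((2 * π / b * m) ^ 2 - lam * ρ x : ℝ) : ℂ)) := by fun_prop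
    exact Complex.continuous_re.comp ((h1.mul (hfc m)).mul continuous_const)
  have key : ∀ m : ℤ, ContDiff ℝ 2 (fun x => (fc b φ m x * E m).re) ∧
      ∀ x, deriv (deriv (fun x => (fc b φ m x * E m).re)) x =
        (((((2 * π / b * m) ^ 2 - lam * ρ x : ℝ) : ℂ) * fc b φ m x) * E m).re := fun m =>
    cd2 (f1 := fun x => (u' m x * E m).re) (fun x => hre m _ _ x (hu m x))
      (fun x => hre m _ _ x (hu' m x)) (hc2 m)
  refine modes_count (a := a) (Q := lam * ρ1) (q := fun x => lam * ρ x)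
    (Finset.Icc (-(M : ℤ)) (M : ℤ)) (fun m => (2 * π / b * m) ^ 2)
    (fun m x => (fc b φ m x * E m).re) ha hQ (by fun_prop) (fun x => by rw [hper])
    (fun m _ => (key m).1) ?_ ?_ ?_ (fun x => φ x y) ?_ hy c
  · intro m _ x
    have : fc b φ m (x + a) = fc b φ m x := by
      unfold fc
      simp only [hφ]
    simp only [this]
  · intro m _ x
    rw [(key m).2 x, mul_assoc, Complex.re_ofReal_mul]
  · intro m hm x
    have h2 := mu_le hb hM2 hQ.le m hm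
    have h3 : lam * ρ x ≤ lam * ρ1 := by gcongr; exact h1 x
    have h4 : 0 ≤ lam * ρ x := mul_nonneg hlam.le (hρ0 x)
    have h5 : 0 ≤ (2 * π / b * (m : ℝ)) ^ 2 := by positivity
    rw [abs_le]
    constructor
    · linarith
    · linarith
  · intro x
    have h2 := congrArg Complex.re (hrep x y)
    rw [Complex.ofReal_re] at h2
    rw [h2]
    unfold esum
    rw [Complex.re_sum]

/-- Zeros on vertical lines. -/
theorem zer_y (hb : 0 < b) (hq : 0 < lam * ρ1)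
    (hM2 : 2 * π / b * M ≤ Real.sqrt (lam * ρ1))
    (hrep : ∀ x y : ℝ, (φ x y : ℂ) = esum (2 * π / b) M (fun m => fc b φ m x) (y : ℂ))
    (x : ℝ) (hx : ∃ y, φ x y ≠ 0) (c : ℝ) :
    {y | y ∈ Set.Ico c (c + b) ∧ φ x y = 0}.Finite ∧
      (Set.ncard {y | y ∈ Set.Ico c (c + b) ∧ φ x y = 0} : ℝ)
        ≤ 2 * b * Real.sqrt (lam * ρ1) := by
  set T : ℤ → ℝ → ℝ := fun m y =>
    (fc b φ m x * Complex.exp (Complex.I * ((2 * π / b * m : ℝ) : ℂ) * (y : ℂ))).re with hT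
  have hder : ∀ (m : ℤ) (d : ℂ) (y : ℝ), HasDerivAt (fun y : ℝ =>
      (d * Complex.exp (Complex.I * ((2 * π / b * m : ℝ) : ℂ) * (y : ℂ))).re)
      (((Complex.I * ((2 * π / b * m : ℝ) : ℂ) * d) *
        Complex.exp (Complex.I * ((2 * π / b * m : ℝ) : ℂ) * (y : ℂ))).re) y := by
    intro m d y
    have h1 : HasDerivAt (fun y : ℝ => Complex.I * ((2 * π / b * m : ℝ) : ℂ) * (y : ℂ))
        (Complex.I * ((2 * π / b * m : ℝ) : ℂ) * 1) y :=
      (Complex.ofRealCLM.hasDerivAt (x := y)).const_mul _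
    have h2 := (h1.cexp).const_mul d
    have h3 := Complex.reCLM.hasFDerivAt.comp_hasDerivAt y h2
    refine h3.congr_deriv ?_
    simp only [Complex.reCLM_apply]
    congr 1
    ring
  have key : ∀ m : ℤ, ContDiff ℝ 2 (T m) ∧ ∀ y, deriv (deriv (T m)) y =
      ((Complex.I * ((2 * π / b * m : ℝ) : ℂ) * (Complex.I * ((2 * π / b * m : ℝ) : ℂ) *
        fc b φ m x)) * Complex.exp (Complex.I * ((2 * π / b * m : ℝ) : ℂ) * (y : ℂ))).re :=
    fun m => cd2 (fun y => hder m _ y) (fun y => hder m _ y) (by fun_prop)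
  refine modes_count (a := b) (Q := lam * ρ1) (q := fun _ => 0)
    (Finset.Icc (-(M : ℤ)) (M : ℤ)) (fun m => -(2 * π / b * m) ^ 2)
    T hb hq continuous_const (fun _ => rfl) (fun m _ => (key m).1) ?_ ?_ ?_ (fun y => φ x y) ?_ hx c
  · intro m _ y
    simp only [hT]
    have : Complex.exp (Complex.I * ((2 * π / b * m : ℝ) : ℂ) * ((y + b : ℝ) : ℂ))
        = Complex.exp (Complex.I * ((2 * π / b * m : ℝ) : ℂ) * (y : ℂ)) := by
      rw [Complex.exp_eq_exp_iff_exists_int]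
      refine ⟨m, ?_⟩
      push_cast
      have hb' : (b : ℂ) ≠ 0 := by exact_mod_cast hb.ne'
      field_simp
    rw [this]
  · intro m _ y
    rw [(key m).2 y]
    have : (Complex.I * ((2 * π / b * m : ℝ) : ℂ) * (Complex.I * ((2 * π / b * m : ℝ) : ℂ) *
        fc b φ m x)) * Complex.exp (Complex.I * ((2 * π / b * m : ℝ) : ℂ) * (y : ℂ))
        = ((-(2 * π / b * m) ^ 2 - 0 : ℝ) : ℂ) * (fc b φ m x *
          Complex.exp (Complex.I * ((2 * π / b * m : ℝ) : ℂ) * (y : ℂ))) := by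
      push_cast
      linear_combination (((2 * π / b * m : ℂ)) ^ 2 * (fc b φ m x *
          Complex.exp (Complex.I * ((2 * π / b * m : ℂ)) * (y : ℂ)))) * Complex.I_sq
    rw [this, Complex.re_ofReal_mul]
  · intro m hm y
    have h2 := mu_le hb hM2 hq.le m hm
    have h5 : 0 ≤ (2 * π / b * (m : ℝ)) ^ 2 := by positivity
    rw [sub_zero, abs_neg, abs_of_nonneg h5]
    exact h2
  · intro y
    have h2 := congrArg Complex.re (hrep x y)
    rw [Complex.ofReal_re] at h2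
    rw [h2]
    unfold esum
    rw [Complex.re_sum]

end

end Pool.Agent.R267.NM
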